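import Mathlib

/-!
# ALG : algebra of five cyclic variables

Put `S k = q k + q (k + 1) = e (k + 1) - e k` and `a k = e k - q k`, so `a (k + 1) - a k = 2 q k`,
`e k = a k + q k = (a k + a (k + 1)) / 2` and `∑ q k e k = ∑ (a (k + 1)² - a k²) / 4 = 0`. Moreover
`∑ S k e k = ∑ (e (k + 1) - e k) e k = - 1/2 ∑ (e (k + 1) - e k)² = - 1/2 ∑ S k²`, so
`∑ q (k + 1) e k = - 1/2 ∑ S k²`. Likewise `∑ S k e (k + 1) = 1/2 ∑ S k²` and `∑ q (k + 1) e (k + 1) = 0`, so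
`∑ q k e (k + 1) = 1/2 ∑ S k²`. If `S = 0` then `q (k + 1) = - q k` and `q = 0`, since 5 is odd.
(Expand the sums over `ZMod 5` with `Fin.sum_univ_five` after `show`/`change`, or use `simp [Fin.sum_univ_succ]`.)
-/

namespace Pool.Agent.H44.SQM

theorem ALG_d5 : ∀ k : ZMod 5, k + 1 + 1 + 1 + 1 + 1 = k := by decide
theorem ALG_d2 : ∀ k : ZMod 5, k + 2 = k + 1 + 1 := by decide
theorem ALG_d3 : ∀ k : ZMod 5, k + 3 = k + 1 + 1 + 1 := by decide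
theorem ALG_d4 : ∀ k : ZMod 5, k + 4 = k + 1 + 1 + 1 + 1 := by decide
theorem ALG_d22 : ∀ k : ZMod 5, k + 1 + 2 + 2 = k := by decide
theorem ALG_five (a : ZMod 5 → ℤ) : ∑ j, a j = a 0 + a 1 + a 2 + a 3 + a 4 :=
  Fin.sum_univ_five a

theorem ALG_sq {q : ZMod 5 → ℤ} (h : ∑ k, ((q (k + 1) : ℝ) + q k) ^ 2 = 0) :
    ∀ k, q k = 0 := by
  have h0 : ∀ k, ((q (k + 1) : ℝ) + q k) = 0 := by
    intro k
    have := (Finset.sum_eq_zero_iff_of_nonneg (fun k _ => sq_nonneg _)).1 h k (Finset.mem_univ k)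
    exact pow_eq_zero_iff two_ne_zero |>.1 this
  have h1 : ∀ k, q (k + 1) + q k = 0 := by
    intro k
    exact_mod_cast h0 k
  intro k
  have e1 := h1 k
  have e2 := h1 (k + 1)
  have e3 := h1 (k + 1 + 1)
  have e4 := h1 (k + 1 + 1 + 1)
  have e5 := h1 (k + 1 + 1 + 1 + 1)
  rw [ALG_d5 k] at e5
  omega

theorem ALG_sh (a : ZMod 5 → ℝ) : ∑ k, a (k + 1) = ∑ k, a k :=
  Equiv.sum_comp (Equiv.addRight (1 : ZMod 5)) a

/-- `∑ q k e k = 0` -/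
theorem ALG_qe {q : ZMod 5 → ℤ} {e : ZMod 5 → ℝ}
    (he : ∀ k, e (k + 1) - e k = q (k + 1) + q k) : ∑ k, (q k : ℝ) * e k = 0 := by
  have h := ALG_sh (fun k => (e k - q k) ^ 2 / 4)
  have h2 : ∑ k, (q k : ℝ) * e k =
      ∑ k, ((e (k + 1) - q (k + 1)) ^ 2 / 4 - (e k - q k) ^ 2 / 4) := by
    refine Finset.sum_congr rfl fun k _ => ?_
    have := he k
    have e2 : e (k + 1) = e k + q (k + 1) + q k := by linarith
    rw [e2]
    ring
  rw [h2, Finset.sum_sub_distrib, h, sub_self]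

theorem alg_one (q : ZMod 5 → ℤ) (e : ZMod 5 → ℝ) (he : ∀ k, e (k + 1) - e k = q (k + 1) + q k)
    (h : ∑ k, (q (k + 1) : ℝ) * e k = 0) : ∀ k, q k = 0 := by
  apply ALG_sq
  have h1 := ALG_qe he
  have h2 := ALG_sh (fun k => e k ^ 2)
  have h3 : ∑ k, ((q (k + 1) : ℝ) + q k) ^ 2 =
      ∑ k, e (k + 1) ^ 2 - ∑ k, e k ^ 2 - 2 * ∑ k, (q (k + 1) : ℝ) * e k -
        2 * ∑ k, (q k : ℝ) * e k := by
    rw [Finset.mul_sum, Finset.mul_sum, ← Finset.sum_sub_distrib, ← Finset.sum_sub_distrib,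
      ← Finset.sum_sub_distrib]
    refine Finset.sum_congr rfl fun k _ => ?_
    have e2 : e (k + 1) = e k + q (k + 1) + q k := by linarith [he k]
    rw [e2]
    ring
  rw [h3, h2, h, h1]
  ring

theorem alg_two (q : ZMod 5 → ℤ) (e : ZMod 5 → ℝ) (he : ∀ k, e (k + 1) - e k = q (k + 1) + q k)
    (h : ∑ k, (q k : ℝ) * e (k + 1) = 0) : ∀ k, q k = 0 := by
  apply ALG_sq
  have h1 := ALG_qe he
  have h1' := ALG_sh (fun k => (q k : ℝ) * e k)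
  have h2 := ALG_sh (fun k => e k ^ 2)
  have h3 : ∑ k, ((q (k + 1) : ℝ) + q k) ^ 2 =
      ∑ k, e k ^ 2 - ∑ k, e (k + 1) ^ 2 + 2 * ∑ k, (q k : ℝ) * e (k + 1) +
        2 * ∑ k, (q (k + 1) : ℝ) * e (k + 1) := by
    rw [Finset.mul_sum, Finset.mul_sum, ← Finset.sum_sub_distrib, ← Finset.sum_add_distrib,
      ← Finset.sum_add_distrib]
    refine Finset.sum_congr rfl fun k _ => ?_
    have e2 : e (k + 1) = e k + q (k + 1) + q k := by linarith [he k]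
    rw [e2]
    ring
  rw [h3, h2, h, h1', h1]
  ring

theorem alg_fix (q : ZMod 5 → ℤ) (hq : ∑ k, q k = 0) (h : ∀ k, q (k + 1) = q k) :
    ∀ k, q k = 0 := by
  intro k
  have e1 := h k
  have e2 := h (k + 1)
  have e3 := h (k + 1 + 1)
  have e4 := h (k + 1 + 1 + 1)
  have e5 : ∑ j, q j = ∑ j, q (k + j) := (Equiv.sum_comp (Equiv.addLeft k) q).symm
  have e6 := ALG_five (fun j => q (k + j))
  rw [ALG_d2 k, ALG_d3 k, ALG_d4 k, add_zero] at e6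
  omega

theorem alg_fix2 (q : ZMod 5 → ℤ) (hq : ∑ k, q k = 0) (h : ∀ k, q (k + 2) = q k) :
    ∀ k, q k = 0 := by
  refine alg_fix q hq fun k => ?_
  have e1 := h (k + 1)
  have e2 := h (k + 1 + 2)
  rw [ALG_d22 k] at e2
  omega

end Pool.Agent.H44.SQM
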