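import Mathlib

/-!
# Mapping tori, closed manifolds, three-dimensional polyhedra

* `MT h`                : the mapping torus of a homeomorphism `h : X ≃ₜ X`;
* `IsClosedManifold n`  : closed topological manifolds of dimension `n`;
* `IsPolyhedron3`       : 3-dimensional polyhedra.
-/

namespace Pool.Agent.H44.SQM

/-- The equivalence relation on `X × ℝ` generated by `(x, t) ~ (h x, t + 1)`. -/
def mtSetoid {X : Type*} [TopologicalSpace X] (h : X ≃ₜ X) : Setoid (X × ℝ) where
  r p q := ∃ n : ℤ, q = ((h ^ n) p.1, p.2 + (n : ℝ))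
  iseqv := by
    refine ⟨fun p => ⟨0, by simp⟩, ?_, ?_⟩
    · rintro ⟨x, s⟩ ⟨y, t⟩ ⟨n, hn⟩
      refine ⟨-n, ?_⟩
      simp only [Prod.mk.injEq] at hn ⊢
      obtain ⟨rfl, rfl⟩ := hn
      refine ⟨?_, by push_cast; ring⟩
      rw [← Homeomorph.mul_apply, ← zpow_add]
      simp
    · rintro ⟨x, s⟩ ⟨y, t⟩ ⟨z, u⟩ ⟨n, hn⟩ ⟨m, hm⟩
      refine ⟨m + n, ?_⟩
      simp only [Prod.mk.injEq] at hn hm ⊢
      obtain ⟨rfl, rfl⟩ := hn
      obtain ⟨rfl, rfl⟩ := hm
      refine ⟨?_, by push_cast; ring⟩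
      rw [← Homeomorph.mul_apply, ← zpow_add]

/-- The mapping torus of `h`: the quotient of `X × ℝ` by `(x, t) ~ (h x, t + 1)`,
with the quotient topology. -/
abbrev MT {X : Type*} [TopologicalSpace X] (h : X ≃ₜ X) : Type _ := Quotient (mtSetoid h)

/-- `X` is a closed topological manifold of dimension `n`: compact, Hausdorff, and every point has
an open neighbourhood homeomorphic to an open subset of `ℝⁿ`. -/
def IsClosedManifold (n : ℕ) (X : Type*) [TopologicalSpace X] : Prop :=
  CompactSpace X ∧ T2Space X ∧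
    ∀ x : X, ∃ U : Set X, IsOpen U ∧ x ∈ U ∧
      ∃ W : Set (Fin n → ℝ), IsOpen W ∧ Nonempty (U ≃ₜ W)

/-- `X` is homeomorphic to the underlying space of a finite simplicial complex of
dimension exactly three (all simplices have at most four vertices, some simplex has four). -/
def IsPolyhedron3 (X : Type*) [TopologicalSpace X] : Prop :=
  ∃ (N : ℕ) (K : Geometry.SimplicialComplex ℝ (Fin N → ℝ)),
    K.faces.Finite ∧ (∀ s ∈ K.faces, s.card ≤ 4) ∧ (∃ s ∈ K.faces, s.card = 4) ∧
      Nonempty (X ≃ₜ K.space)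

end Pool.Agent.H44.SQM
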