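import Pool.Agent.H44.SQM.Base

/-!
# Squares of 3-manifolds: definitions

(`MT h`, `IsClosedManifold n`, `IsPolyhedron3` are defined in `Base`.)

* `geo T`       : geometric realisation (barycentric coordinates) of the complex with facets `T`;
* `Surf`        : the triangulated surface of genus two (13 vertices, 30 triangles);
* `phi`         : its symmetry of order five.
* `Null`, `Rel` : circle valued maps that lift to the reals, and the relation
  which says that the cup product of two circle valued maps vanishes.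
-/

namespace Pool.Agent.H44.SQM

open Topology

/-! ### Mapping tori -/

/-- the quotient map -/
abbrev mk {X : Type*} [TopologicalSpace X] (h : X ≃ₜ X) (p : X × ℝ) : MT h :=
  Quotient.mk (mtSetoid h) p

/-! ### Geometric realisations -/

/-- Geometric realisation, in barycentric coordinates, of the simplicial complex on the vertex set
`ι` whose facets are the members of `T`. -/
def geo {ι : Type*} [Fintype ι] (T : Set (Finset ι)) : Set (ι → ℝ) :=
  {p | (∀ v, 0 ≤ p v) ∧ ∑ v, p v = 1 ∧ ∃ t ∈ T, ∀ v, v ∉ t → p v = 0}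

/-- A permutation of the vertices which preserves the set of facets acts on the realisation:
the vertex `v` goes to the vertex `s v`. -/
def permHomeo {ι : Type*} [Fintype ι] [DecidableEq ι] (T : Set (Finset ι)) (s : Equiv.Perm ι)
    (hs : ∀ t ∈ T, t.map s.toEmbedding ∈ T) (hs' : ∀ t ∈ T, t.map s.symm.toEmbedding ∈ T) :
    geo T ≃ₜ geo T where
  toFun p := ⟨fun v => p.1 (s.symm v), fun v => p.2.1 _,
    by rw [← p.2.2.1]; exact Equiv.sum_comp s.symm p.1, by
      obtain ⟨t, ht, h0⟩ := p.2.2.2
      refine ⟨t.map s.toEmbedding, hs t ht, fun v hv => h0 _ fun h => hv ?_⟩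
      simpa using h⟩
  invFun p := ⟨fun v => p.1 (s v), fun v => p.2.1 _,
    by rw [← p.2.2.1]; exact Equiv.sum_comp s p.1, by
      obtain ⟨t, ht, h0⟩ := p.2.2.2
      refine ⟨t.map s.symm.toEmbedding, hs' t ht, fun v hv => h0 _ fun h => hv ?_⟩
      simpa using h⟩
  left_inv p := by ext v; simp
  right_inv p := by ext v; simp
  continuous_toFun := by
    refine Continuous.subtype_mk (continuous_pi fun v => ?_) _
    exact (continuous_apply _).comp continuous_subtype_val
  continuous_invFun := by
    refine Continuous.subtype_mk (continuous_pi fun v => ?_) _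
    exact (continuous_apply _).comp continuous_subtype_val

/-! ### The surface of genus two -/

/-- the vertex `a` (centre), fixed by the symmetry -/
def va : Fin 13 := 0
/-- the vertex `b`, fixed by the symmetry -/
def vb : Fin 13 := 1
/-- the vertex `c`, fixed by the symmetry -/
def vc : Fin 13 := 2
/-- the vertices `x_k` -/
def vx (k : ZMod 5) : Fin 13 := ⟨3 + k.val, by have := ZMod.val_lt k; omega⟩
/-- the vertices `y_k` -/
def vy (k : ZMod 5) : Fin 13 := ⟨8 + k.val, by have := ZMod.val_lt k; omega⟩

/-- The six orbits of triangles. -/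
def tri (k : ZMod 5) : Fin 6 → Finset (Fin 13)
  | 0 => {va, vy k, vy (k + 2)}
  | 1 => {vy k, vy (k + 2), vx (k + 2)}
  | 2 => {vy k, vx k, vc}
  | 3 => {vy k, vc, vx (k + 1)}
  | 4 => {vy k, vx (k + 1), vb}
  | 5 => {vy k, vb, vx (k + 2)}

/-- The 30 triangles. -/
def tris : Set (Finset (Fin 13)) := {t | ∃ k i, t = tri k i}

/-- The surface of genus two. -/
abbrev Surf : Type := geo tris

/-- The symmetry on vertices: fixes `a`, `b`, `c` and maps `x_k` to `x_{k+1}`, `y_k` to
`y_{k+1}`. -/
def sig : Equiv.Perm (Fin 13) where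
  toFun v := if v.val < 3 then v else if v.val < 8 then vx ((v.val : ZMod 5) - 3 + 1)
    else vy ((v.val : ZMod 5) - 8 + 1)
  invFun v := if v.val < 3 then v else if v.val < 8 then vx ((v.val : ZMod 5) - 3 - 1)
    else vy ((v.val : ZMod 5) - 8 - 1)
  left_inv := by decide
  right_inv := by decide

theorem sig_va : sig va = va := by decide
theorem sig_vb : sig vb = vb := by decide
theorem sig_vc : sig vc = vc := by decide
theorem sig_vx : ∀ k, sig (vx k) = vx (k + 1) := by decide
theorem sig_vy : ∀ k, sig (vy k) = vy (k + 1) := by decide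
theorem sig_pow : sig ^ 5 = 1 := by decide

theorem sig_tri : ∀ k i, (tri k i).map sig.toEmbedding = tri (k + 1) i := by decide
theorem sig_tri' : ∀ k i, (tri k i).map sig.symm.toEmbedding = tri (k - 1) i := by decide

/-- The symmetry of order five of the surface. -/
def phi : Surf ≃ₜ Surf :=
  permHomeo tris sig (by rintro _ ⟨k, i, rfl⟩; exact ⟨_, _, sig_tri k i⟩)
    (by rintro _ ⟨k, i, rfl⟩; exact ⟨_, _, sig_tri' k i⟩)

theorem exists_tri : ∀ v : Fin 13, ∃ k i, v ∈ tri k i := by decide

/-- the point of the surface given by a vertex -/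
def vtx (v : Fin 13) : Surf := ⟨fun w => if w = v then 1 else 0, by
  refine ⟨fun w => ?_, by simp, ?_⟩
  · show (0 : ℝ) ≤ if w = v then 1 else 0
    split_ifs <;> norm_num
  obtain ⟨k, i, h⟩ := exists_tri v
  refine ⟨tri k i, ⟨k, i, rfl⟩, fun w hw => ?_⟩
  show (if w = v then (1 : ℝ) else 0) = 0
  rw [if_neg]
  rintro rfl
  exact hw h⟩

/-- The points of the surface which are supported on the set of vertices `t` (a closed simplex of
the surface if `t` is contained in a triangle and not empty). -/
def face (t : Finset (Fin 13)) : Set Surf := {p | ∀ v, v ∉ t → p.1 v = 0}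

/-- The closed star of the vertex `y_k` (the union of the closed triangles containing it). -/
def St (k : ZMod 5) : Set Surf :=
  {p | ∃ l i, vy k ∈ tri l i ∧ p ∈ face (tri l i)}

/-! ### Circle valued maps -/

/-- the circle `ℝ / ℤ` -/
abbrev S1 : Type := AddCircle (1 : ℝ)

/-- A circle valued map which lifts to a real valued function (equivalently, is null homotopic). -/
def Null {X : Type*} [TopologicalSpace X] (f : C(X, S1)) : Prop :=
  ∃ u : C(X, ℝ), ∀ x, f x = (u x : S1)

/-- The relation `Rel f g` (the cup product of the classes of `f` and `g` vanishes): on the infinite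
cyclic cover `{(x, y) : g x = y mod 1}` there is a circle valued function `z` with
`z (x, y + 1) = f x + z (x, y)`. -/
def Rel {X : Type*} [TopologicalSpace X] (f g : C(X, S1)) : Prop :=
  ∃ z : C({p : X × ℝ // g p.1 = (p.2 : S1)}, S1),
    ∀ (x : X) (y : ℝ) (hy : g x = (y : S1)) (hy' : g x = ((y + 1 : ℝ) : S1)),
      z ⟨(x, y + 1), hy'⟩ = f x + z ⟨(x, y), hy⟩

/-- `f ∘ h` -/
def pull {X : Type*} [TopologicalSpace X] (f : C(X, S1)) (h : X ≃ₜ X) : C(X, S1) :=
  ⟨fun x => f (h x), f.continuous.comp h.continuous⟩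

/-- The only classes fixed by `h` are null. -/
def Fix {X : Type*} [TopologicalSpace X] (h : X ≃ₜ X) : Prop :=
  ∀ f : C(X, S1), (∃ w : C(X, ℝ), ∀ x, f (h x) = f x + (w x : S1)) → Null f

/-- The projection of a mapping torus to the circle. -/
def tau {X : Type*} [TopologicalSpace X] (h : X ≃ₜ X) : C(MT h, S1) where
  toFun := Quotient.lift (fun p : X × ℝ => (p.2 : S1)) (by
    rintro ⟨x, s⟩ ⟨y, t⟩ ⟨n, hn⟩
    simp only [Prod.mk.injEq] at hn
    obtain ⟨rfl, rfl⟩ := hn
    simp only [AddCircle.coe_add]
    have : ((n : ℝ) : S1) = 0 := by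
      rw [AddCircle.coe_eq_zero_iff]; exact ⟨n, by simp⟩
    rw [this, add_zero])
  continuous_toFun := by
    refine Continuous.quotient_lift ?_ _
    exact (AddCircle.continuous_mk' (1 : ℝ)).comp continuous_snd

theorem coe_add_one (s : ℝ) : ((s + 1 : ℝ) : S1) = (s : S1) := by
  rw [AddCircle.coe_add, AddCircle.coe_period, add_zero]

theorem coe_sub_one (s : ℝ) : ((s - 1 : ℝ) : S1) = (s : S1) := by
  rw [AddCircle.coe_sub, AddCircle.coe_period, sub_zero]

/-- The infinite cyclic cover of the mapping torus. -/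
abbrev Cov {X : Type*} [TopologicalSpace X] (h : X ≃ₜ X) : Type _ :=
  {p : MT h × ℝ // tau h p.1 = (p.2 : S1)}

/-- The deck transformation `(a, s) ↦ (a, s + 1)`. -/
def deck {X : Type*} [TopologicalSpace X] (h : X ≃ₜ X) : Cov h ≃ₜ Cov h where
  toFun p := ⟨(p.1.1, p.1.2 + 1), by rw [p.2]; exact (coe_add_one _).symm⟩
  invFun p := ⟨(p.1.1, p.1.2 - 1), by rw [p.2]; exact (coe_sub_one _).symm⟩
  left_inv p := by simp
  right_inv p := by simp
  continuous_toFun := by
    refine Continuous.subtype_mk ?_ _
    fun_prop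
  continuous_invFun := by
    refine Continuous.subtype_mk ?_ _
    fun_prop

/-- The homeomorphism `(x, t) ↦ (h x, t + 1)` of `X × ℝ`. -/
def step {X : Type*} [TopologicalSpace X] (h : X ≃ₜ X) : X × ℝ ≃ₜ X × ℝ :=
  h.prodCongr (Homeomorph.addRight 1)

/-- There is a class `c` which is not null with `c ∪ T^* c = 0`. -/
def PP {X : Type*} [TopologicalSpace X] (T : X ≃ₜ X) : Prop :=
  ∃ c : C(X, S1), ¬ Null c ∧ (Rel c (pull c T) ∨ Rel (pull c T) c)

/-- Local lifts `u k` of a circle valued map `f` on the closed stars of the vertices `y_k`,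
all equal at the vertex `a`, and the integers `q k` which describe the class of `f`. -/
structure Dat (f : C(Surf, S1)) (u : ZMod 5 → Surf → ℝ) (q : ZMod 5 → ℤ) : Prop where
  cont : ∀ k, ContinuousOn (u k) (St k)
  lift : ∀ k, ∀ p ∈ St k, f p = (u k p : S1)
  base : ∀ k l, u k (vtx va) = u l (vtx va)
  qx : ∀ k, u k (vtx (vx (k + 1))) = u (k + 1) (vtx (vx (k + 1))) + q k

end Pool.Agent.H44.SQM
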