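import Pool.Agent.H44.SQM.MTB

/-!
# FIB : the infinite cyclic cover of a mapping torus is a product

The map `(x, t) ↦ (mk (x, t), t)` is a homeomorphism from `X × ℝ` to `Cov h`. It is a
continuous bijection (injective by `mk_inj`, surjective by `exists_rep`). It is open: let `W` be
open and `(x, t) ∈ W`; put `W' = W ∩ X × (t - 1/4, t + 1/4)`; the set of all `(a, s)` in `Cov h`
with `a ∈ mk W'` and `|s - t| < 1/4` is open, contains the image of `(x, t)` and is contained in
the image of `W`, because `a = mk (x', t')` with `(x', t') ∈ W'`, `t' = s mod 1` and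
`|t' - s| < 1/2` imply `t' = s`.
-/

namespace Pool.Agent.H44.SQM

open Topology

/-- The map `(x, t) ↦ (mk (x, t), t)`. -/
def FIBmap {X : Type*} [TopologicalSpace X] (h : X ≃ₜ X) (p : X × ℝ) : Cov h :=
  ⟨(mk h p, p.2), tau_mk h p.1 p.2⟩

theorem FIBmap_continuous {X : Type*} [TopologicalSpace X] (h : X ≃ₜ X) :
    Continuous (FIBmap h) :=
  Continuous.subtype_mk ((isOpenQuotientMap_mk h).continuous.prodMk continuous_snd) _

theorem FIBmap_injective {X : Type*} [TopologicalSpace X] (h : X ≃ₜ X) :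
    Function.Injective (FIBmap h) := by
  rintro ⟨x, s⟩ ⟨y, t⟩ he
  have h1 : (mk h (x, s), s) = (mk h (y, t), t) := congrArg Subtype.val he
  have h2 : s = t := congrArg Prod.snd h1
  have h3 : mk h (x, s) = mk h (y, t) := congrArg Prod.fst h1
  obtain ⟨hx, ht⟩ := mk_inj h (by rw [h2]; simp) h3
  rw [hx, ht]

theorem FIBmap_surjective {X : Type*} [TopologicalSpace X] (h : X ≃ₜ X) :
    Function.Surjective (FIBmap h) := by
  rintro ⟨⟨a, s⟩, hs⟩
  obtain ⟨x, hx⟩ := exists_rep h a s hs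
  exact ⟨(x, s), Subtype.ext (Prod.ext hx.symm rfl)⟩

theorem FIBmap_isOpenMap {X : Type*} [TopologicalSpace X] (h : X ≃ₜ X) :
    IsOpenMap (FIBmap h) := by
  intro W hW
  rw [isOpen_iff_mem_nhds]
  rintro _ ⟨⟨x, t⟩, hp, rfl⟩
  set W' : Set (X × ℝ) := W ∩ {q | |q.2 - t| < 1 / 4} with hW'
  have hW'o : IsOpen W' :=
    hW.inter (isOpen_lt (continuous_abs.comp (continuous_snd.sub continuous_const))
      continuous_const)
  set O : Set (Cov h) := {c | c.1.1 ∈ mk h '' W' ∧ |c.1.2 - t| < 1 / 4} with hO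
  have hOo : IsOpen O := by
    have h1 : IsOpen (mk h '' W') := (isOpenQuotientMap_mk h).isOpenMap _ hW'o
    refine (h1.preimage (continuous_fst.comp continuous_subtype_val)).inter ?_
    exact isOpen_lt (continuous_abs.comp ((continuous_snd.comp continuous_subtype_val).sub
      continuous_const)) continuous_const
  have hmem : FIBmap h (x, t) ∈ O := by
    refine ⟨⟨(x, t), ⟨hp, ?_⟩, rfl⟩, ?_⟩
    · show |t - t| < 1 / 4
      simp
    · show |t - t| < 1 / 4
      simp
  refine Filter.mem_of_superset (hOo.mem_nhds hmem) ?_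
  rintro ⟨⟨a, s⟩, hs⟩ ⟨⟨⟨x', t'⟩, ⟨hpW, hpt⟩, hpa⟩, hst⟩
  have hpt' : |t' - t| < 1 / 4 := hpt
  have hst' : |s - t| < 1 / 4 := hst
  have hpa' : mk h (x', t') = a := hpa
  obtain ⟨y, hy⟩ := exists_rep h a s hs
  have hts : |t' - s| < 1 := by
    rw [abs_lt] at hpt' hst' ⊢
    constructor <;> linarith [hpt'.1, hpt'.2, hst'.1, hst'.2]
  obtain ⟨_, h2⟩ := mk_inj h hts (hpa'.trans hy)
  refine ⟨(x', t'), hpW, Subtype.ext (Prod.ext hpa' h2)⟩

theorem exists_fib {X : Type*} [TopologicalSpace X] (h : X ≃ₜ X) :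
    ∃ e : X × ℝ ≃ₜ Cov h, (∀ p, (e p).1 = (mk h p, p.2)) ∧
      ∀ p, e (step h p) = deck h (e p) := by
  refine ⟨(Equiv.ofBijective (FIBmap h) ⟨FIBmap_injective h, FIBmap_surjective h⟩
    ).toHomeomorphOfContinuousOpen (FIBmap_continuous h) (FIBmap_isOpenMap h),
    fun p => rfl, ?_⟩
  rintro ⟨x, t⟩
  have h1 := mk_shift h 1 x t
  refine Subtype.ext (Prod.ext ?_ rfl)
  show mk h (h x, t + 1) = mk h (x, t)
  simpa using h1

end Pool.Agent.H44.SQM
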