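import Pool.Agent.H44.SQM.LIH

/-!
# LIC : consequences of homotopy lifting
-/

namespace Pool.Agent.H44.SQM

open Topology

/-- A circle valued map on `X × ℝ` which is null on `X × {0}` is null
(the homotopy `((x, t), r) ↦ f (x, r t)`). -/
theorem null_prod_real {X : Type*} [TopologicalSpace X] (f : C(X × ℝ, S1))
    (u₀ : C(X, ℝ)) (h : ∀ x, f (x, 0) = (u₀ x : S1)) : Null f := by
  obtain ⟨u, hu, -⟩ := lift_homotopy (X := X × ℝ)
    ⟨fun q => f (q.1.1, (q.2 : ℝ) * q.1.2), by fun_prop⟩ (u₀.comp ⟨Prod.fst, continuous_fst⟩)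
    (by
      rintro ⟨x, t⟩
      show f (x, ((0 : unitInterval) : ℝ) * t) = (u₀ x : S1)
      rw [show (((0 : unitInterval) : ℝ) * t) = 0 by simp]
      exact h x)
  refine ⟨⟨fun p => u (p, 1), by fun_prop⟩, ?_⟩
  rintro ⟨x, t⟩
  have h1 := hu ((x, t), 1)
  show f (x, t) = (u ((x, t), 1) : S1)
  rw [← h1]
  show f (x, t) = f (x, ((1 : unitInterval) : ℝ) * t)
  rw [show (((1 : unitInterval) : ℝ) * t) = t by simp]

theorem LIC_null_const {X : Type*} [TopologicalSpace X] (y : S1) :
    Null (ContinuousMap.const X y) := by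
  obtain ⟨r, rfl⟩ := QuotientAddGroup.mk_surjective y
  exact ⟨ContinuousMap.const X r, fun x => rfl⟩

/-- `Null f` is the same as null homotopic. -/
theorem null_iff_nullhomotopic {X : Type*} [TopologicalSpace X] (f : C(X, S1)) :
    Null f ↔ f.Nullhomotopic := by
  constructor
  · rintro ⟨u, hu⟩
    have h1 : u.Nullhomotopic := by
      have := (id_nullhomotopic ℝ).comp_left u
      rwa [ContinuousMap.id_comp] at this
    have h2 := h1.comp_right (⟨fun r : ℝ => (r : S1), AddCircle.continuous_mk' (1 : ℝ)⟩ : C(ℝ, S1))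
    convert h2 using 1
    ext x
    exact hu x
  · rintro ⟨y, hy⟩
    exact null_of_homotopic hy.symm (LIC_null_const y)

/-- On a contractible set a circle valued function lifts. -/
theorem exists_lift_on {X : Type*} [TopologicalSpace X] {S : Set X} [ContractibleSpace S]
    {F : X → S1} (hF : ContinuousOn F S) :
    ∃ u : X → ℝ, ContinuousOn u S ∧ ∀ p ∈ S, F p = (u p : S1) := by
  classical
  have h1 : (⟨S.domRestrict F, continuousOn_iff_continuous_domRestrict.1 hF⟩ : C(S, S1)).Nullhomotopic := by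
    have := (id_nullhomotopic S).comp_right
      (⟨S.domRestrict F, continuousOn_iff_continuous_domRestrict.1 hF⟩ : C(S, S1))
    rwa [ContinuousMap.comp_id] at this
  obtain ⟨u, hu⟩ := (null_iff_nullhomotopic _).2 h1
  refine ⟨fun x => if hx : x ∈ S then u ⟨x, hx⟩ else 0, ?_, ?_⟩
  · rw [continuousOn_iff_continuous_domRestrict]
    convert u.continuous using 1
    ext x
    simp
  · intro p hp
    have := hu ⟨p, hp⟩
    simp only [hp, dif_pos]
    exact this

end Pool.Agent.H44.SQM
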