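import Pool.Agent.H44.SQM.LIF

/-!
# MTB : basic topology of mapping tori
-/

namespace Pool.Agent.H44.SQM

open Topology

theorem mk_eq_iff {X : Type*} [TopologicalSpace X] (h : X ≃ₜ X) (p q : X × ℝ) :
    mk h p = mk h q ↔ ∃ n : ℤ, q = ((h ^ n) p.1, p.2 + (n : ℝ)) := Quotient.eq

theorem mk_shift {X : Type*} [TopologicalSpace X] (h : X ≃ₜ X) (n : ℤ) (x : X) (t : ℝ) :
    mk h ((h ^ n) x, t + (n : ℝ)) = mk h (x, t) :=
  ((mk_eq_iff h (x, t) ((h ^ n) x, t + (n : ℝ))).2 ⟨n, rfl⟩).symm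

@[simp] theorem tau_mk {X : Type*} [TopologicalSpace X] (h : X ≃ₜ X) (x : X) (t : ℝ) :
    tau h (mk h (x, t)) = (t : S1) := rfl

/-- Every point of the mapping torus has a representative at a given height `s` with
`tau a = s mod 1`. -/
theorem exists_rep {X : Type*} [TopologicalSpace X] (h : X ≃ₜ X) (a : MT h) (s : ℝ)
    (hs : tau h a = (s : S1)) : ∃ x, a = mk h (x, s) := by
  induction a using Quotient.inductionOn with
  | h p =>
    obtain ⟨x, t⟩ := p
    have h1 : (t : S1) = (s : S1) := hs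
    obtain ⟨n, hn⟩ := coe_eq_coe_iff.1 h1.symm
    refine ⟨(h ^ n) x, ?_⟩
    subst hn
    exact (mk_shift h n x t).symm

/-- the homeomorphism `(x, t) ↦ (h ^ n x, t + n)` -/
def MTB_act {X : Type*} [TopologicalSpace X] (h : X ≃ₜ X) (n : ℤ) : X × ℝ ≃ₜ X × ℝ :=
  Homeomorph.prodCongr (h ^ n) (Homeomorph.addRight (n : ℝ))

/-- The saturation of an open set `W` is the union over `n : ℤ` of its images under
`(x, t) ↦ (h ^ n x, t + n)`. -/
theorem isOpenQuotientMap_mk {X : Type*} [TopologicalSpace X] (h : X ≃ₜ X) :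
    IsOpenQuotientMap (mk h) := by
  refine ⟨Quotient.mk_surjective, continuous_quotient_mk', ?_⟩
  intro W hW
  have hq : IsQuotientMap (mk h) := isQuotientMap_quotient_mk'
  rw [← hq.isOpen_preimage]
  have : mk h ⁻¹' (mk h '' W) = ⋃ n : ℤ, MTB_act h n '' W := by
    ext q
    simp only [Set.mem_preimage, Set.mem_image, Set.mem_iUnion]
    constructor
    · rintro ⟨p, hp, he⟩
      obtain ⟨n, hn⟩ := (mk_eq_iff h p q).1 he
      exact ⟨n, p, hp, hn.symm⟩
    · rintro ⟨n, p, hp, rfl⟩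
      exact ⟨p, hp, (mk_eq_iff h _ _).2 ⟨n, rfl⟩⟩
  rw [this]
  exact isOpen_iUnion fun n => (MTB_act h n).isOpenMap W hW

/-- `mk` is injective on `X × (t - 1/2, t + 1/2)`. -/
theorem mk_inj {X : Type*} [TopologicalSpace X] (h : X ≃ₜ X) {x y : X} {s t : ℝ}
    (hst : |s - t| < 1) (he : mk h (x, s) = mk h (y, t)) : x = y ∧ s = t := by
  obtain ⟨n, hn⟩ := (mk_eq_iff h _ _).1 he
  simp only [Prod.mk.injEq] at hn
  obtain ⟨h1, h2⟩ := hn
  subst h2
  have h3 : |(n : ℝ)| < 1 := by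
    have : s - (s + (n : ℝ)) = -(n : ℝ) := by ring
    rwa [this, abs_neg] at hst
  have h4 : n = 0 := by
    have : |n| < 1 := by exact_mod_cast h3
    exact Int.abs_lt_one_iff.1 this
  subst h4
  refine ⟨?_, by simp⟩
  rw [h1]; simp

end Pool.Agent.H44.SQM
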