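import Pool.Agent.H44.SQM.LIF
import Pool.Agent.H44.SQM.LIC
import Pool.Agent.H44.SQM.MTB

/-!
# H1M : circle valued maps on a mapping torus

Let `X` be connected and let every class fixed by `h` be null (`Fix h`). Let `g : MT h → S1`,
and `G (x, t) = g (mk (x, t))`, so `G (h x, t + 1) = G (x, t)`. By `real_diff` (a = -1, b = 0) the
function `f x = G (x, 0)` satisfies `f (h x) = G (h x, 0) = G (x, -1) = f x - w x`, so `f` is null by `Fix h`,
hence `G` is null by `null_prod_real`: `G = ↑U`. Now `U (h x, t + 1) - U (x, t)` is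
integer valued and continuous on the connected space `X × ℝ`, so it is a constant `n`
(`int_const'`), and `U (x, t) - n t` descends to a continuous function `u` on `MT h`, with
`g = n • tau + u`.

If `n • tau = ↑u` then `u (mk (x, t)) - n t` is integer valued on `X × ℝ`, so it is constant;
comparing `(x, t)` and `(h x, t + 1)` gives `n = 0`.
-/

namespace Pool.Agent.H44.SQM

open Topology

theorem H1M_continuous_mk {X : Type*} [TopologicalSpace X] (h : X ≃ₜ X) :
    Continuous (mk h) := continuous_quotient_mk'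

theorem H1M_shift_one {X : Type*} [TopologicalSpace X] (h : X ≃ₜ X) (x : X) (t : ℝ) :
    mk h (h x, t + 1) = mk h (x, t) := by
  have := mk_shift h 1 x t
  simpa using this

theorem H1M_zpow_shift {X : Type*} [TopologicalSpace X] (h : X ≃ₜ X) (V : X × ℝ → ℝ)
    (hV : ∀ x t, V (h x, t + 1) = V (x, t)) (n : ℤ) (x : X) (t : ℝ) :
    V ((h ^ n) x, t + (n : ℝ)) = V (x, t) := by
  have hneg : ∀ (k : ℕ) (x : X) (t : ℝ), V ((h ^ (-(k : ℤ))) x, t + ((-(k : ℤ) : ℤ) : ℝ)) = V (x, t) := by
    intro k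
    induction k with
    | zero => intro x t; simp
    | succ k ih =>
      intro x t
      have e1 := hV ((h ^ (-((k + 1 : ℕ) : ℤ))) x) (t + ((-((k + 1 : ℕ) : ℤ) : ℤ) : ℝ))
      rw [← e1, ← Homeomorph.mul_apply]
      have e2 : h * h ^ (-((k + 1 : ℕ) : ℤ)) = h ^ (-(k : ℤ)) := by
        rw [← zpow_one_add]
        congr 1
        push_cast
        ring
      have e3 : t + ((-((k + 1 : ℕ) : ℤ) : ℤ) : ℝ) + 1 = t + ((-(k : ℤ) : ℤ) : ℝ) := by
        push_cast
        ring
      rw [e2, e3]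
      exact ih x t
  have hpos : ∀ (k : ℕ) (x : X) (t : ℝ), V ((h ^ (k : ℤ)) x, t + ((k : ℤ) : ℝ)) = V (x, t) := by
    intro k
    induction k with
    | zero => intro x t; simp
    | succ k ih =>
      intro x t
      have e1 := hV ((h ^ (k : ℤ)) x) (t + ((k : ℤ) : ℝ))
      rw [← Homeomorph.mul_apply] at e1
      have e2 : h * h ^ (k : ℤ) = h ^ ((k + 1 : ℕ) : ℤ) := by
        rw [← zpow_one_add]
        congr 1
        push_cast
        ring
      have e3 : t + ((k : ℤ) : ℝ) + 1 = t + (((k + 1 : ℕ) : ℤ) : ℝ) := by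
        push_cast
        ring
      rw [e2, e3] at e1
      rw [e1]
      exact ih x t
  obtain ⟨k, rfl | rfl⟩ := n.eq_nat_or_neg
  · exact hpos k x t
  · exact hneg k x t

theorem exists_int {X : Type*} [TopologicalSpace X] [ConnectedSpace X] (h : X ≃ₜ X)
    (hF : Fix h) (g : C(MT h, S1)) :
    ∃ (n : ℤ) (u : C(MT h, ℝ)), ∀ a, g a = n • tau h a + (u a : S1) := by
  have hGc : Continuous (fun p : X × ℝ => g (mk h p)) := g.continuous.comp (H1M_continuous_mk h)
  let G : C(X × ℝ, S1) := ⟨fun p => g (mk h p), hGc⟩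
  have hG : ∀ x t, G (h x, t + 1) = G (x, t) := fun x t => by
    show g (mk h (h x, t + 1)) = g (mk h (x, t))
    rw [H1M_shift_one]
  obtain ⟨w, hw⟩ := real_diff (fun p => G p) G.continuous (-1) 0
  let f : C(X, S1) := ⟨fun x => G (x, 0), G.continuous.comp (by fun_prop)⟩
  have hf : Null f := by
    refine hF f ⟨-w, fun x => ?_⟩
    have e1 : f (h x) = G (x, -1) := by
      show G (h x, 0) = G (x, -1)
      have := hG x (-1)
      rw [show (-1 : ℝ) + 1 = 0 by norm_num] at this
      exact this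
    have e2 : f x = G (x, -1) + (w x : S1) := hw x
    rw [e1, e2]
    simp
  obtain ⟨u₀, hu₀⟩ := hf
  obtain ⟨U, hU⟩ := null_prod_real G u₀ hu₀
  obtain ⟨n, hn⟩ := int_const' (X := X × ℝ) (g := fun p => U (h p.1, p.2 + 1) - U p)
    (by fun_prop) (by
      rintro ⟨x, t⟩
      have e1 := hU (h x, t + 1)
      have e2 := hU (x, t)
      rw [hG x t, e2] at e1
      rw [AddCircle.coe_sub, ← e1, sub_self])
  have hV : ∀ x t, (fun p : X × ℝ => U p - n * p.2) (h x, t + 1)
      = (fun p : X × ℝ => U p - n * p.2) (x, t) := by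
    intro x t
    have := hn (x, t)
    simp only at this ⊢
    linarith
  have hres : ∀ p q : X × ℝ, (mtSetoid h).r p q →
      (fun p : X × ℝ => U p - n * p.2) p = (fun p : X × ℝ => U p - n * p.2) q := by
    rintro ⟨x, t⟩ q ⟨m, rfl⟩
    exact (H1M_zpow_shift h (fun p : X × ℝ => U p - n * p.2) hV m x t).symm
  have hcont : Continuous (fun p : X × ℝ => U p - n * p.2) := by fun_prop
  refine ⟨n, ⟨Quotient.lift (fun p : X × ℝ => U p - n * p.2) hres,
    Continuous.quotient_lift hcont hres⟩, ?_⟩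
  intro a
  obtain ⟨⟨x, t⟩, rfl⟩ := Quotient.exists_rep a
  have e1 : g (mk h (x, t)) = (U (x, t) : S1) := hU (x, t)
  have e2 : tau h (mk h (x, t)) = (t : S1) := tau_mk h x t
  show g (mk h (x, t)) = n • tau h (mk h (x, t)) + ((U (x, t) - n * t : ℝ) : S1)
  rw [e1, e2, ← coe_zmul, ← AddCircle.coe_add]
  congr 1
  ring

theorem tau_zsmul {X : Type*} [TopologicalSpace X] [ConnectedSpace X] (h : X ≃ₜ X)
    (n : ℤ) (u : C(MT h, ℝ)) (hu : ∀ a, n • tau h a = (u a : S1)) : n = 0 := by
  have hc : Continuous (fun p : X × ℝ => u (mk h p) - n * p.2) := by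
    have := u.continuous.comp (H1M_continuous_mk h)
    exact this.sub (continuous_const.mul continuous_snd)
  obtain ⟨m, hm⟩ := int_const' (X := X × ℝ) (g := fun p => u (mk h p) - n * p.2) hc (by
    rintro ⟨x, t⟩
    have e1 := hu (mk h (x, t))
    rw [tau_mk, ← coe_zmul] at e1
    show ((u (mk h (x, t)) - n * t : ℝ) : S1) = 0
    rw [AddCircle.coe_sub, ← e1, sub_self])
  obtain ⟨x⟩ : Nonempty X := inferInstance
  have e1 := hm (x, 0)
  have e2 := hm (h x, 0 + 1)
  simp only at e1 e2
  rw [H1M_shift_one] at e2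
  have : (n : ℝ) = 0 := by linarith
  exact_mod_cast this

end Pool.Agent.H44.SQM
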