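import Pool.Agent.H44.SQM.LIF
import Pool.Agent.H44.SQM.LIC
import Pool.Agent.H44.SQM.H1M
import Pool.Agent.H44.SQM.FIB

/-!
# EQA : a homotopy equivalence of mapping tori lifts to the infinite cyclic covers

Let `θ : MT h₁ → MT h₂`, `θ' : MT h₂ → MT h₁` be homotopy inverse to each other. By `exists_int`,
`tau₂ ∘ θ = n tau₁ + u` and `tau₁ ∘ θ' = n' tau₂ + u'`. Then
`tau₁ ∘ θ' ∘ θ = n' n tau₁ + (n' u + u' ∘ θ)`, and this is `tau₁ + w` by `homotopic_diff`; by `tau_zsmul`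
`n n' = 1`, so `n = n' = 1` or `n = n' = -1`.

`Θ (a, s) = (θ a, n s + u a)`, `Θ' (b, t) = (θ' b, n' t + u' b)`. Clearly
`Θ (a, s + 1) = (θ a, n s + u a + n) = deck₂ ^ n (Θ (a, s))`.

`Θ (Θ' (b, t)) = (θ (θ' b), t + n u' b + u (θ' b))`. Let `H : MT h₂ × [0, 1] → MT h₂` be a homotopy
from `θ ∘ θ'` to the identity. By `lift_homotopy` (on `Cov h₂`) there is
`L : Cov h₂ × [0, 1] → ℝ` with `L ((b, t), 0) = t + n u' b + u (θ' b)` and `↑L ((b, t), r) = tau₂ (H (b, r))`.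
`((b, t), r) ↦ (H (b, r), L ((b, t), r))` is a homotopy from `Θ ∘ Θ'` to
`(b, t) ↦ (b, L ((b, t), 1))`, and `L ((b, t), 1) - t` is integer valued and continuous on `Cov h₂`, which is
connected (it is homeomorphic to `X₂ × ℝ` by `exists_fib`), so it is a constant `m`.
-/

namespace Pool.Agent.H44.SQM

open Topology

theorem deck_zpow {X : Type*} [TopologicalSpace X] (h : X ≃ₜ X) (n : ℤ) (p : Cov h) :
    ((deck h ^ n) p).1 = (p.1.1, p.1.2 + n) := by
  have hpos : ∀ (k : ℕ) (p : Cov h), ((deck h ^ k) p).1 = (p.1.1, p.1.2 + k) := by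
    intro k
    induction k with
    | zero => intro p; simp
    | succ k ih =>
      intro p
      rw [pow_succ, Homeomorph.mul_apply, ih]
      have : (deck h p).1 = (p.1.1, p.1.2 + 1) := rfl
      rw [this]
      push_cast
      simp only [Prod.mk.injEq, true_and]
      ring
  rcases Int.eq_nat_or_neg n with ⟨k, rfl | rfl⟩
  · rw [zpow_natCast, hpos]; simp
  · rw [zpow_neg, zpow_natCast]
    have h1 := hpos k (((deck h ^ k)⁻¹ : Cov h ≃ₜ Cov h) p)
    have h2 : (deck h ^ k) (((deck h ^ k)⁻¹ : Cov h ≃ₜ Cov h) p) = p := by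
      rw [← Homeomorph.mul_apply, mul_inv_cancel, Homeomorph.one_apply]
    rw [h2] at h1
    rw [h1]
    push_cast
    refine Prod.ext rfl ?_
    show _ = (((deck h ^ k)⁻¹ : Cov h ≃ₜ Cov h) p).1.2 + k + -(k : ℝ)
    ring

theorem exists_lift_equiv {X₁ X₂ : Type*} [TopologicalSpace X₁] [TopologicalSpace X₂]
    [ConnectedSpace X₁] [ConnectedSpace X₂] (h₁ : X₁ ≃ₜ X₁) (h₂ : X₂ ≃ₜ X₂)
    (F₁ : Fix h₁) (F₂ : Fix h₂) (e : ContinuousMap.HomotopyEquiv (MT h₁) (MT h₂)) :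
    ∃ (Θ : C(Cov h₁, Cov h₂)) (Θ' : C(Cov h₂, Cov h₁)) (n m : ℤ), (n = 1 ∨ n = -1) ∧
      (∀ p, Θ (deck h₁ p) = (deck h₂ ^ n) (Θ p)) ∧
      (Θ.comp Θ').Homotopic ((deck h₂ ^ m : Cov h₂ ≃ₜ Cov h₂) : C(Cov h₂, Cov h₂)) := by
  obtain ⟨n, u, hu⟩ := exists_int h₁ F₁ ((tau h₂).comp e.toFun)
  obtain ⟨n', u', hu'⟩ := exists_int h₂ F₂ ((tau h₁).comp e.invFun)
  simp only [ContinuousMap.comp_apply] at hu hu'
  -- `n' n = 1`
  have hnn : n' * n = 1 := by
    obtain ⟨w, hw⟩ := homotopic_diff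
      ((ContinuousMap.Homotopic.refl (tau h₁)).comp e.left_inv)
    simp only [ContinuousMap.comp_apply, ContinuousMap.id_apply] at hw
    have h0 := tau_zsmul h₁ (1 - n' * n)
      ⟨fun a => n' * u a + u' (e.toFun a) + w a, by fun_prop⟩ (by
        intro a
        have h1 : tau h₁ a = n' • (n • tau h₁ a + (u a : S1)) + (u' (e.toFun a) : S1)
            + (w a : S1) := by
          rw [← hu a, ← hu' (e.toFun a)]
          exact hw a
        show _ = (((n' * u a + u' (e.toFun a) + w a : ℝ)) : S1)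
        rw [AddCircle.coe_add, AddCircle.coe_add, coe_zmul, sub_smul, one_smul, mul_smul]
        rw [smul_add] at h1
        nth_rewrite 1 [h1]
        abel)
    omega
  -- the lifts
  let Θ : C(Cov h₁, Cov h₂) := ⟨fun p => ⟨(e.toFun p.1.1, n * p.1.2 + u p.1.1), by
      show tau h₂ (e.toFun p.1.1) = ((n * p.1.2 + u p.1.1 : ℝ) : S1)
      rw [hu, p.2, AddCircle.coe_add, coe_zmul]⟩, by
    refine Continuous.subtype_mk ?_ _
    fun_prop⟩
  let Θ' : C(Cov h₂, Cov h₁) := ⟨fun p => ⟨(e.invFun p.1.1, n' * p.1.2 + u' p.1.1), by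
      show tau h₁ (e.invFun p.1.1) = ((n' * p.1.2 + u' p.1.1 : ℝ) : S1)
      rw [hu', p.2, AddCircle.coe_add, coe_zmul]⟩, by
    refine Continuous.subtype_mk ?_ _
    fun_prop⟩
  obtain ⟨H⟩ := e.right_inv
  obtain ⟨L, hL, hL0⟩ := lift_homotopy
    (⟨fun q => tau h₂ (H (q.2, q.1.1.1)), by fun_prop⟩ : C(Cov h₂ × unitInterval, S1))
    (⟨fun p => (Θ (Θ' p)).1.2, by fun_prop⟩ : C(Cov h₂, ℝ)) (by
      intro p
      show tau h₂ (H (0, p.1.1)) = _
      rw [H.apply_zero]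
      exact (Θ (Θ' p)).2)
  have hL' : ∀ (p : Cov h₂) (r : unitInterval), tau h₂ (H (r, p.1.1)) = (L (p, r) : S1) :=
    fun p r => hL (p, r)
  have hpre : PreconnectedSpace (Cov h₂) := by
    obtain ⟨f, -, -⟩ := exists_fib h₂
    exact f.surjective.denseRange.preconnectedSpace f.continuous
  obtain ⟨m, hm⟩ := int_const' (g := fun p : Cov h₂ => L (p, 1) - p.1.2) (by fun_prop) (by
    intro p
    have h1 := hL' p 1
    rw [H.apply_one] at h1
    rw [AddCircle.coe_sub, ← h1]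
    show tau h₂ p.1.1 - _ = 0
    rw [p.2, sub_self])
  have hn1 : n = 1 ∨ n = -1 := Int.eq_one_or_neg_one_of_mul_eq_one (by rw [mul_comm]; exact hnn)
  refine ⟨Θ, Θ', n, m, hn1, ?_, ⟨?_⟩⟩
  · intro p
    apply Subtype.ext
    rw [deck_zpow]
    show (e.toFun p.1.1, (n : ℝ) * (p.1.2 + 1) + u p.1.1)
      = (e.toFun p.1.1, n * p.1.2 + u p.1.1 + n)
    simp only [Prod.mk.injEq, true_and]
    ring
  · refine
      { toFun := fun q => ⟨(H (q.1, q.2.1.1), L (q.2, q.1)), hL' q.2 q.1⟩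
        continuous_toFun := by
          refine Continuous.subtype_mk ?_ _
          fun_prop
        map_zero_left := ?_
        map_one_left := ?_ }
    · intro p
      apply Subtype.ext
      show (H (0, p.1.1), L (p, 0)) = (Θ (Θ' p)).1
      rw [H.apply_zero, hL0]
      rfl
    · intro p
      apply Subtype.ext
      show (H (1, p.1.1), L (p, 1)) = ((deck h₂ ^ m : Cov h₂ ≃ₜ Cov h₂) p).1
      rw [deck_zpow, H.apply_one]
      have h1 : L (p, 1) - p.1.2 = m := hm p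
      have h2 : L (p, 1) = p.1.2 + m := by linarith
      rw [h2]
      rfl

end Pool.Agent.H44.SQM
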