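import Pool.Agent.H44.SQM.Defs

/-!
# RLP : stability properties of the relation `Rel`

`Rel f g` : there is `z : {(x, y) : g x = y mod 1} → S1` with `z (x, y + 1) = f x + z (x, y)`.
-/

namespace Pool.Agent.H44.SQM

open Topology

/-- `z' (x, y) = z (k x, y)`. -/
theorem rel_comp {X Y : Type*} [TopologicalSpace X] [TopologicalSpace Y] {f g : C(Y, S1)}
    (h : Rel f g) (k : C(X, Y)) : Rel (f.comp k) (g.comp k) := by
  obtain ⟨z, hz⟩ := h
  refine ⟨⟨fun p => z ⟨(k p.1.1, p.1.2), p.2⟩, ?_⟩, ?_⟩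
  · refine z.continuous.comp (Continuous.subtype_mk ?_ _)
    exact (k.continuous.comp (continuous_fst.comp continuous_subtype_val)).prodMk
      (continuous_snd.comp continuous_subtype_val)
  · intro x y hy hy'
    exact hz (k x) y hy hy'

/-- `z' (x, y) = z (x, y) + u x * y`. -/
theorem rel_add_left {X : Type*} [TopologicalSpace X] {f f' g : C(X, S1)} (u : C(X, ℝ))
    (hu : ∀ x, f' x = f x + (u x : S1)) (h : Rel f g) : Rel f' g := by
  obtain ⟨z, hz⟩ := h
  refine ⟨⟨fun p => z p + ((u p.1.1 * p.1.2 : ℝ) : S1), ?_⟩, ?_⟩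
  · refine z.continuous.add ((AddCircle.continuous_mk' (1 : ℝ)).comp ?_)
    exact (u.continuous.comp (continuous_fst.comp continuous_subtype_val)).mul
      (continuous_snd.comp continuous_subtype_val)
  · intro x y hy hy'
    show z ⟨(x, y + 1), hy'⟩ + ((u x * (y + 1) : ℝ) : S1)
      = f' x + (z ⟨(x, y), hy⟩ + ((u x * y : ℝ) : S1))
    rw [hz x y hy hy', hu x, mul_add, mul_one, AddCircle.coe_add]
    abel

/-- `z' (x, y) = z (x, y - v x)`. -/
theorem rel_add_right {X : Type*} [TopologicalSpace X] {f g g' : C(X, S1)} (v : C(X, ℝ))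
    (hv : ∀ x, g' x = g x + (v x : S1)) (h : Rel f g) : Rel f g' := by
  obtain ⟨z, hz⟩ := h
  have key : ∀ (x : X) (y : ℝ), g' x = (y : S1) → g x = ((y - v x : ℝ) : S1) := by
    intro x y hy
    rw [AddCircle.coe_sub, ← hy, hv x, add_sub_cancel_right]
  refine ⟨⟨fun p => z ⟨(p.1.1, p.1.2 - v p.1.1), key _ _ p.2⟩, ?_⟩, ?_⟩
  · refine z.continuous.comp (Continuous.subtype_mk ?_ _)
    exact (continuous_fst.comp continuous_subtype_val).prodMk
      ((continuous_snd.comp continuous_subtype_val).sub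
        (v.continuous.comp (continuous_fst.comp continuous_subtype_val)))
  · intro x y hy hy'
    show z ⟨(x, y + 1 - v x), key _ _ hy'⟩ = f x + z ⟨(x, y - v x), key _ _ hy⟩
    have h1 : g x = (((y - v x) + 1 : ℝ) : S1) := by
      rw [coe_add_one]; exact key _ _ hy
    rw [← hz x (y - v x) (key _ _ hy) h1]
    congr 1
    apply Subtype.ext
    show (x, y + 1 - v x) = (x, y - v x + 1)
    rw [Prod.mk.injEq]
    exact ⟨rfl, by ring⟩

end Pool.Agent.H44.SQM
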