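import Pool.Agent.H44.SQM.LIC
import Pool.Agent.H44.SQM.RLP

/-!
# EQB : transfer of the property `PP`
-/

namespace Pool.Agent.H44.SQM

open Topology

/-- Let `c` on `Y₂` be not null with `Rel c (c ∘ D₂)` or `Rel (c ∘ D₂) c`. Put `c₁ = c ∘ Θ`. If `c₁` were null,
so would be `c ∘ Θ ∘ Θ'`, which is homotopic to `c ∘ D₂ ^ m`, hence `c` would be null.
`c₁ ∘ D₁ = c ∘ D₂ ^ n ∘ Θ`. If `n = 1`, pull back the relation by `Θ`. If `n = -1`, pull it back by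
`D₂⁻¹ ∘ Θ`: `Rel c (c ∘ D₂)` gives `Rel (c₁ ∘ D₁) c₁` and `Rel (c ∘ D₂) c` gives `Rel c₁ (c₁ ∘ D₁)`. -/
theorem pp_of_maps {Y₁ Y₂ : Type*} [TopologicalSpace Y₁] [TopologicalSpace Y₂]
    (D₁ : Y₁ ≃ₜ Y₁) (D₂ : Y₂ ≃ₜ Y₂) (Θ : C(Y₁, Y₂)) (Θ' : C(Y₂, Y₁)) (n m : ℤ)
    (hn : n = 1 ∨ n = -1) (hΘ : ∀ p, Θ (D₁ p) = (D₂ ^ n) (Θ p))
    (hh : (Θ.comp Θ').Homotopic (((D₂ ^ m : Y₂ ≃ₜ Y₂) : C(Y₂, Y₂)))) (hp : PP D₂) : PP D₁ := by
  obtain ⟨c, hc, hr⟩ := hp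
  refine ⟨c.comp Θ, fun hN => hc ?_, ?_⟩
  · have h1 : Null (c.comp (Θ.comp Θ')) := null_comp hN Θ'
    have h2 : (c.comp (Θ.comp Θ')).Homotopic (c.comp ((D₂ ^ m : Y₂ ≃ₜ Y₂) : C(Y₂, Y₂))) :=
      ContinuousMap.Homotopic.comp (ContinuousMap.Homotopic.refl c) hh
    have h3 := null_of_homotopic h2 h1
    have h4 := null_comp h3 (((D₂ ^ m : Y₂ ≃ₜ Y₂).symm : Y₂ ≃ₜ Y₂) : C(Y₂, Y₂))
    have h5 : (c.comp ((D₂ ^ m : Y₂ ≃ₜ Y₂) : C(Y₂, Y₂))).comp
        (((D₂ ^ m : Y₂ ≃ₜ Y₂).symm : Y₂ ≃ₜ Y₂) : C(Y₂, Y₂)) = c := by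
      ext y
      simp
    rwa [h5] at h4
  · rcases hn with rfl | rfl
    · have e : pull (c.comp Θ) D₁ = (pull c D₂).comp Θ := by
        ext p
        show c (Θ (D₁ p)) = c (D₂ (Θ p))
        rw [hΘ, zpow_one]
      rw [e]
      rcases hr with hr | hr
      · exact Or.inl (rel_comp hr Θ)
      · exact Or.inr (rel_comp hr Θ)
    · have e : pull (c.comp Θ) D₁ = c.comp ((D₂.symm : C(Y₂, Y₂)).comp Θ) := by
        ext p
        show c (Θ (D₁ p)) = c (D₂.symm (Θ p))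
        rw [hΘ, zpow_neg, zpow_one]
        rfl
      have e' : c.comp Θ = (pull c D₂).comp ((D₂.symm : C(Y₂, Y₂)).comp Θ) := by
        ext p
        show c (Θ p) = c (D₂ (D₂.symm (Θ p)))
        rw [Homeomorph.apply_symm_apply]
      rw [e]
      rw [e']
      rcases hr with hr | hr
      · exact Or.inr (rel_comp hr _)
      · exact Or.inl (rel_comp hr _)

/-- Conjugation. -/
theorem pp_conj {Y Y' : Type*} [TopologicalSpace Y] [TopologicalSpace Y'] (e : Y ≃ₜ Y')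
    (T : Y ≃ₜ Y) (T' : Y' ≃ₜ Y') (he : ∀ y, e (T y) = T' (e y)) (hp : PP T') : PP T := by
  refine pp_of_maps T T' (e : C(Y, Y')) (e.symm : C(Y', Y)) 1 0 (Or.inl rfl) (fun p => ?_) ?_ hp
  · show e (T p) = (T' ^ (1 : ℤ)) (e p)
    rw [zpow_one, he]
  · have h1 : (e : C(Y, Y')).comp (e.symm : C(Y', Y)) =
        ((T' ^ (0 : ℤ) : Y' ≃ₜ Y') : C(Y', Y')) := by
      ext y
      show e (e.symm y) = (T' ^ (0 : ℤ)) y
      rw [zpow_zero, Homeomorph.apply_symm_apply]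
      rfl
    rw [h1]

/-- Take `c (x, t) = f x`. -/
theorem pp_step {X : Type*} [TopologicalSpace X] (h : X ≃ₜ X) (f : C(X, S1)) (hf : ¬ Null f)
    (hr : Rel f (pull f h)) : PP (step h) := by
  refine ⟨f.comp ⟨Prod.fst, continuous_fst⟩, fun hN => hf ?_, Or.inl ?_⟩
  · exact null_comp hN (⟨fun x => (x, (0 : ℝ)), by fun_prop⟩ : C(X, X × ℝ))
  · exact rel_comp hr (⟨Prod.fst, continuous_fst⟩ : C(X × ℝ, X))

/-- Let `c` on `X × ℝ` be not null, `f x = c (x, 0)`; then `f` is not null by `null_prod_real`. The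
restriction of `c ∘ step h` to `X × {0}` is `c (h x, 1) = f (h x) + w x` by `real_diff`. Restrict
the relation to `X × {0}` (`rel_comp`) and use `rel_add_right` or `rel_add_left`. -/
theorem not_pp_step {X : Type*} [TopologicalSpace X] (h : X ≃ₜ X)
    (no : ∀ f : C(X, S1), Rel f (pull f h) ∨ Rel (pull f h) f → Null f) : ¬ PP (step h) := by
  rintro ⟨c, hc, hr⟩
  apply hc
  set k : C(X, X × ℝ) := ⟨fun x => (x, (0 : ℝ)), by fun_prop⟩ with hk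
  set f : C(X, S1) := c.comp k with hf
  obtain ⟨w, hw⟩ := real_diff (fun p : X × ℝ => c (h p.1, p.2)) (by fun_prop) 0 1
  have hw' : ∀ x, pull f h x = (pull c (step h)).comp k x + (((-w : C(X, ℝ)) x : ℝ) : S1) := by
    intro x
    have h1 : (pull c (step h)).comp k x = c (h x, 0 + 1) := rfl
    have h2 : pull f h x = c (h x, 0) := rfl
    have h3 := hw x
    simp only at h3
    rw [h1, h2, zero_add, h3]
    simp
  have hN : Null f := by
    apply no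
    rcases hr with hr | hr
    · exact Or.inl (rel_add_right (-w) hw' (rel_comp hr k))
    · exact Or.inr (rel_add_left (-w) hw' (rel_comp hr k))
  obtain ⟨u, hu⟩ := hN
  exact null_prod_real c u hu

end Pool.Agent.H44.SQM
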