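import Pool.Agent.H44.SQM.EQA
import Pool.Agent.H44.SQM.EQB

/-!
# EQV : a criterion for mapping tori not to be homotopy equivalent
-/

namespace Pool.Agent.H44.SQM

open Topology

theorem not_equiv {X : Type*} [TopologicalSpace X] [ConnectedSpace X] (h₁ h₂ : X ≃ₜ X)
    (F₁ : Fix h₁) (F₂ : Fix h₂)
    (no : ∀ f : C(X, S1), Rel f (pull f h₁) ∨ Rel (pull f h₁) f → Null f)
    (yes : ∃ f : C(X, S1), ¬ Null f ∧ Rel f (pull f h₂)) :
    ¬ Nonempty (ContinuousMap.HomotopyEquiv (MT h₁) (MT h₂)) := by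
  rintro ⟨e⟩
  obtain ⟨Θ, Θ', n, m, hn, hΘ, hh⟩ := exists_lift_equiv h₁ h₂ F₁ F₂ e
  obtain ⟨f, hf, hr⟩ := yes
  obtain ⟨e₁, -, he₁⟩ := exists_fib h₁
  obtain ⟨e₂, -, he₂⟩ := exists_fib h₂
  have h2 : PP (deck h₂) := by
    refine pp_conj e₂.symm (deck h₂) (step h₂) (fun y => ?_) (pp_step h₂ f hf hr)
    apply e₂.injective
    rw [he₂, e₂.apply_symm_apply, e₂.apply_symm_apply]
  have h1 : PP (deck h₁) := pp_of_maps (deck h₁) (deck h₂) Θ Θ' n m hn hΘ hh h2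
  exact not_pp_step h₁ no (pp_conj e₁ (step h₁) (deck h₁) he₁ h1)

end Pool.Agent.H44.SQM
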