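import Pool.Agent.H44.SQM.Defs

/-!
# EXD : the ring of six triangles

The ring is the union of the six triangles
`{y_0, c, x_1}`, `{y_0, x_1, b}`, `{y_0, b, x_2}`, `{y_1, x_2, b}`, `{y_1, c, x_2}`, `{y_1, x_1, c}`
(= `tri 0 3`, `tri 0 4`, `tri 0 5`, `tri 1 4`, `tri 1 3`, `tri 1 2`); it is an annulus with the
boundary curves `y_0 c x_2` and `x_1 b y_1`.
-/

namespace Pool.Agent.H44.SQM

open Topology

/-- the six triangles of the ring -/
def ring6 : Finset (ZMod 5 × Fin 6) := {(0, 3), (0, 4), (0, 5), (1, 4), (1, 3), (1, 2)}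

/-- the function `p x_1 + p y_1 + p b` -/
def rho (p : Surf) : ℝ := p.1 (vx 1) + p.1 (vy 1) + p.1 vb

/-- `f` is `rho` modulo one on the triangles of the ring, and `0` on the other triangles. -/
def IsF0 (f : Surf → S1) : Prop :=
  (∀ k i, (k, i) ∈ ring6 → ∀ p ∈ face (tri k i), f p = (rho p : S1)) ∧
    ∀ k i, (k, i) ∉ ring6 → ∀ p ∈ face (tri k i), f p = 0

end Pool.Agent.H44.SQM
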