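import Pool.Agent.H44.SQM.Defs

/-!
# STA : faces and stars of the surface

`vx k` are the vertices `x_k`, `vy k` the vertices `y_k`. All the statements on the list of
triangles (`tri k i`, `k : ZMod 5`, `i : Fin 6`) are decidable.
-/

namespace Pool.Agent.H44.SQM

open Topology

theorem vtx_mem_face {v : Fin 13} {t : Finset (Fin 13)} (h : v ∈ t) : vtx v ∈ face t := by
  intro w hw
  show (if w = v then (1 : ℝ) else 0) = 0
  rw [if_neg]
  rintro rfl
  exact hw h

theorem face_mono {t t' : Finset (Fin 13)} (h : t ⊆ t') : face t ⊆ face t' := by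
  intro p hp v hv
  exact hp v fun h' => hv (h h')

theorem face_subset_St {t : Finset (Fin 13)} {k l : ZMod 5} {i : Fin 6} (hk : vy k ∈ tri l i)
    (h : t ⊆ tri l i) : face t ⊆ St k := by
  intro p hp
  exact ⟨l, i, hk, face_mono h hp⟩

/-- It corresponds to a convex subset of `Fin 13 → ℝ`. -/
theorem isPreconnected_face {t : Finset (Fin 13)} {l : ZMod 5} {i : Fin 6} (h : t ⊆ tri l i) :
    IsPreconnected (face t) := by
  have himg : (Subtype.val '' face t : Set (Fin 13 → ℝ)) =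
      {p | (∀ v, 0 ≤ p v) ∧ ∑ v, p v = 1 ∧ ∀ v, v ∉ t → p v = 0} := by
    ext p
    constructor
    · rintro ⟨q, hq, rfl⟩
      exact ⟨q.2.1, q.2.2.1, hq⟩
    · rintro ⟨h1, h2, h3⟩
      exact ⟨⟨p, h1, h2, tri l i, ⟨l, i, rfl⟩, fun v hv => h3 v fun h' => hv (h h')⟩, h3, rfl⟩
  have hind : IsInducing (Subtype.val : Surf → (Fin 13 → ℝ)) := IsInducing.subtypeVal
  rw [← hind.isPreconnected_image, himg]
  apply Convex.isPreconnected
  intro p hp q hq a b ha hb hab
  refine ⟨fun v => ?_, ?_, fun v hv => ?_⟩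
  · have h1 := hp.1 v
    have h2 := hq.1 v
    simp only [Pi.add_apply, Pi.smul_apply, smul_eq_mul]
    positivity
  · simp only [Pi.add_apply, Pi.smul_apply, smul_eq_mul]
    rw [Finset.sum_add_distrib, ← Finset.mul_sum, ← Finset.mul_sum, hp.2.1, hq.2.1]
    linarith
  · simp only [Pi.add_apply, Pi.smul_apply, smul_eq_mul]
    rw [hp.2.2 v hv, hq.2.2 v hv]
    ring

theorem isClosed_face (t : Finset (Fin 13)) : IsClosed (face t) := by
  have h1 : face t = ⋂ v : Fin 13, ⋂ (_ : v ∉ t), {p : Surf | p.1 v = 0} := by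
    ext p
    simp only [Set.mem_iInter]
    rfl
  rw [h1]
  refine isClosed_iInter fun v => isClosed_iInter fun _ => ?_
  exact isClosed_eq ((continuous_apply v).comp continuous_subtype_val) continuous_const

theorem isClosed_St (k : ZMod 5) : IsClosed (St k) := by
  have h1 : St k = ⋃ l : ZMod 5, ⋃ i : Fin 6, ⋃ (_ : vy k ∈ tri l i), face (tri l i) := by
    ext p
    simp only [Set.mem_iUnion]
    constructor
    · rintro ⟨l, i, h1, h2⟩
      exact ⟨l, i, h1, h2⟩
    · rintro ⟨l, i, h1, h2⟩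
      exact ⟨l, i, h1, h2⟩
  rw [h1]
  exact isClosed_iUnion_of_finite fun l => isClosed_iUnion_of_finite fun i =>
    isClosed_iUnion_of_finite fun _ => isClosed_face _

theorem STA_exists_vy : ∀ (l : ZMod 5) (i : Fin 6), ∃ k : ZMod 5, vy k ∈ tri l i := by decide

theorem cover_St (p : Surf) : ∃ k, p ∈ St k := by
  obtain ⟨_, _, t, ⟨l, i, rfl⟩, h⟩ := p.2
  obtain ⟨k, hk⟩ := STA_exists_vy l i
  exact ⟨k, l, i, hk, h⟩

/-- `vtx v ∈ St k` can be decided -/
theorem vtx_mem_St_iff (v : Fin 13) (k : ZMod 5) :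
    vtx v ∈ St k ↔ ∃ l i, vy k ∈ tri l i ∧ v ∈ tri l i := by
  constructor
  · rintro ⟨l, i, h1, h2⟩
    refine ⟨l, i, h1, ?_⟩
    by_contra hv
    have h3 : (if v = v then (1 : ℝ) else 0) = 0 := h2 v hv
    rw [if_pos rfl] at h3
    exact one_ne_zero h3
  · rintro ⟨l, i, h1, h2⟩
    exact ⟨l, i, h1, vtx_mem_face h2⟩

/-- The support of a point of `St k ∩ St l` spans a face which contains a vertex and lies in both
stars. -/
theorem seg_vertex {k l : ZMod 5} {p : Surf} (hk : p ∈ St k) (hl : p ∈ St l) :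
    ∃ (t : Finset (Fin 13)) (v : Fin 13), v ∈ t ∧ p ∈ face t ∧ face t ⊆ St k ∧ face t ⊆ St l ∧
      IsPreconnected (face t) := by
  classical
  obtain ⟨a, i, h1, h2⟩ := hk
  obtain ⟨b, j, h3, h4⟩ := hl
  have hne : ∃ v, p.1 v ≠ 0 := by
    by_contra hcon
    push Not at hcon
    have h5 := p.2.2.1
    rw [Finset.sum_eq_zero fun v _ => hcon v] at h5
    exact zero_ne_one h5
  obtain ⟨v, hv⟩ := hne
  have ht : ∀ w, w ∈ Finset.univ.filter (fun w => p.1 w ≠ 0) ↔ p.1 w ≠ 0 := by
    intro w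
    simp
  have hs1 : Finset.univ.filter (fun w => p.1 w ≠ 0) ⊆ tri a i := by
    intro w hw
    by_contra hcon
    exact (ht w).1 hw (h2 w hcon)
  have hs2 : Finset.univ.filter (fun w => p.1 w ≠ 0) ⊆ tri b j := by
    intro w hw
    by_contra hcon
    exact (ht w).1 hw (h4 w hcon)
  refine ⟨Finset.univ.filter (fun w => p.1 w ≠ 0), v, (ht v).2 hv, ?_, face_subset_St h1 hs1,
    face_subset_St h3 hs2, isPreconnected_face hs1⟩
  intro w hw
  by_contra hcon
  exact hw ((ht w).2 hcon)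

theorem phi_vtx (v : Fin 13) : phi (vtx v) = vtx (sig v) := by
  apply Subtype.ext
  funext w
  show (if sig.symm w = v then (1 : ℝ) else 0) = if w = sig v then 1 else 0
  by_cases h : w = sig v
  · rw [if_pos h, if_pos ((Equiv.symm_apply_eq sig).2 h)]
  · rw [if_neg h, if_neg fun h' => h ((Equiv.symm_apply_eq sig).1 h')]

theorem phi_mem_St {k : ZMod 5} {p : Surf} (h : p ∈ St k) : phi p ∈ St (k + 1) := by
  obtain ⟨l, i, h1, h2⟩ := h
  refine ⟨l + 1, i, ?_, ?_⟩
  · rw [← sig_vy, ← sig_tri]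
    exact (Finset.mem_map' _).2 h1
  · intro v hv
    show p.1 (sig.symm v) = 0
    apply h2
    intro hv'
    apply hv
    rw [← sig_tri]
    have := (Finset.mem_map' sig.toEmbedding).2 hv'
    simpa using this

end Pool.Agent.H44.SQM
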