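import Pool.Agent.H44.SQM.LIF
import Pool.Agent.H44.SQM.STA
import Pool.Agent.H44.SQM.EXD

/-!
# EXA : the map of the example exists and is continuous

A triangle outside the ring meets a triangle of the ring in a set of vertices which is contained in
`{x_1, y_1, b}` or disjoint from it (decidable: for `(k, i) ∈ ring6`, `(l, j) ∉ ring6`,
`tri k i ∩ tri l j ⊆ {x_1, y_1, b}` or `Disjoint`), so on the intersection of the closed triangles
`rho` is `1` or `0`, and `↑(rho p) = 0`. So `f p = ↑(rho p)` for `p` in the ring, `f p = 0`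
otherwise, is equal to `0` on the other triangles, and continuous: the ring and
the union of the other triangles are closed and cover the surface
(`ContinuousOn.union_of_isClosed` or `IsClosed.continuous_of...`; see `isClosed_face`).
-/

namespace Pool.Agent.H44.SQM

open Topology

theorem EXA_dec : ∀ a ∈ ring6, ∀ b : ZMod 5 × Fin 6, b ∉ ring6 →
    (∀ v ∈ tri a.1 a.2 ∩ tri b.1 b.2, v = vx 1 ∨ v = vy 1 ∨ v = vb) ∨
      (∀ v ∈ tri a.1 a.2 ∩ tri b.1 b.2, v ≠ vx 1 ∧ v ≠ vy 1 ∧ v ≠ vb) := by decide

theorem EXA_cover (p : Surf) : ∃ a : ZMod 5 × Fin 6, p ∈ face (tri a.1 a.2) := by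
  obtain ⟨t, ⟨k, i, rfl⟩, h⟩ := p.2.2.2
  exact ⟨(k, i), h⟩

theorem EXA_zero {p : Surf} {a b : ZMod 5 × Fin 6} (ha : a ∈ ring6) (hb : b ∉ ring6)
    (hp : p ∈ face (tri a.1 a.2)) (hp' : p ∈ face (tri b.1 b.2)) : (rho p : S1) = 0 := by
  have hs : ∀ v, v ∉ tri a.1 a.2 ∩ tri b.1 b.2 → p.1 v = 0 := by
    intro v hv
    rw [Finset.mem_inter, not_and_or] at hv
    rcases hv with h | h
    · exact hp v h
    · exact hp' v h
  rcases EXA_dec a ha b hb with h | h
  · have h1 : rho p = 1 := by
      have e : ∑ v ∈ ({vx 1, vy 1, vb} : Finset (Fin 13)), p.1 v = ∑ v, p.1 v := by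
        apply Finset.sum_subset (Finset.subset_univ _)
        intro v _ hv
        apply hs
        intro hv'
        apply hv
        rcases h v hv' with rfl | rfl | rfl <;> decide
      rw [p.2.2.1] at e
      rw [Finset.sum_insert (by decide), Finset.sum_insert (by decide),
        Finset.sum_singleton] at e
      unfold rho
      linarith
    rw [h1]
    exact AddCircle.coe_period (1 : ℝ)
  · have h1 : rho p = 0 := by
      unfold rho
      rw [hs (vx 1) fun hv => (h _ hv).1 rfl, hs (vy 1) fun hv => (h _ hv).2.1 rfl,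
        hs vb fun hv => (h _ hv).2.2 rfl]
      norm_num
    rw [h1]
    rfl

theorem EXA_rho : Continuous rho := by
  have hc : ∀ v : Fin 13, Continuous fun p : Surf => p.1 v := fun v =>
    (continuous_apply v).comp continuous_subtype_val
  exact ((hc _).add (hc _)).add (hc _)

theorem exists_f0 : ∃ f : C(Surf, S1), IsF0 f := by
  classical
  set F : Surf → S1 := fun p =>
    if ∃ a ∈ ring6, p ∈ face (tri a.1 a.2) then (rho p : S1) else 0 with hF
  have h1 : ∀ k i, (k, i) ∈ ring6 → ∀ p ∈ face (tri k i), F p = (rho p : S1) := by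
    intro k i hki p hp
    exact if_pos ⟨(k, i), hki, hp⟩
  have h2 : ∀ k i, (k, i) ∉ ring6 → ∀ p ∈ face (tri k i), F p = 0 := by
    intro k i hki p hp
    by_cases h : ∃ a ∈ ring6, p ∈ face (tri a.1 a.2)
    · obtain ⟨a, ha, hpa⟩ := h
      have : F p = (rho p : S1) := if_pos ⟨a, ha, hpa⟩
      rw [this]
      exact EXA_zero ha hki hpa hp
    · exact if_neg h
  refine ⟨⟨F, ?_⟩, h1, h2⟩
  refine (locallyFinite_of_finite fun a : ZMod 5 × Fin 6 => face (tri a.1 a.2)).continuous ?_
    (fun a => isClosed_face _) ?_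
  · exact Set.eq_univ_of_forall fun p => Set.mem_iUnion.2 (EXA_cover p)
  · rintro ⟨k, i⟩
    by_cases h : (k, i) ∈ ring6
    · have hc : Continuous fun p : Surf => (rho p : S1) :=
        (AddCircle.continuous_mk' (1 : ℝ)).comp EXA_rho
      exact hc.continuousOn.congr (h1 k i h)
    · exact continuousOn_const.congr (h2 k i h)

end Pool.Agent.H44.SQM
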