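import Pool.Agent.H44.SQM.LIF
import Pool.Agent.H44.SQM.STA
import Pool.Agent.H44.SQM.EXD

/-!
# EXN : the map of the example is not null

Let `f = ↑u`. On the edge `{y_0, x_1}` (in the ring, in `tri 0 3`) `u - rho` is integer valued, so it is
constant and `u(x_1) = u(y_0) + 1`. On the edges `{x_1, y_4}` (in `tri 4 5`), `{y_4, a}` (in
`tri 4 0`) and `{a, y_0}` (in `tri 0 0`), outside the ring, `f = 0`, so `u` is constant:
`u(x_1) = u(y_4) = u(a) = u(y_0)`. Contradiction. (`int_const`, `isPreconnected_face`, `vtx_mem_face`.)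
-/

namespace Pool.Agent.H44.SQM

open Topology

theorem not_null_f0 (f : C(Surf, S1)) (h : IsF0 f) : ¬ Null f := by
  rintro ⟨u, hu⟩
  have key : ∀ (k : ZMod 5) (i : Fin 6), (k, i) ∉ ring6 → ∀ v w, v ∈ tri k i → w ∈ tri k i →
      u (vtx v) = u (vtx w) := by
    intro k i hki v w hv hw
    refine int_const (isPreconnected_face (Finset.Subset.refl (tri k i))) (g := u)
      u.continuous.continuousOn ?_ (vtx_mem_face hv) (vtx_mem_face hw)
    intro x hx
    rw [← hu, h.2 k i hki x hx]
  have e0 : u (vtx (vx 1)) - rho (vtx (vx 1)) = u (vtx (vy 0)) - rho (vtx (vy 0)) := by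
    refine int_const (isPreconnected_face (Finset.Subset.refl (tri 0 3)))
      (g := fun p => u p - rho p) ?_ ?_ (vtx_mem_face (by decide)) (vtx_mem_face (by decide))
    · refine (u.continuous.sub ?_).continuousOn
      unfold rho
      have hc : ∀ v : Fin 13, Continuous fun p : Surf => p.1 v := fun v =>
        (continuous_apply v).comp continuous_subtype_val
      exact ((hc _).add (hc _)).add (hc _)
    · intro x hx
      rw [AddCircle.coe_sub, ← hu, h.1 0 3 (by decide) x hx, sub_self]
  have r1 : rho (vtx (vx 1)) = 1 := by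
    unfold rho vtx
    have a1 : vx 1 = vx 1 := rfl
    have a2 : ¬ vy 1 = vx 1 := by decide
    have a3 : ¬ vb = vx 1 := by decide
    simp [a2, a3]
  have r0 : rho (vtx (vy 0)) = 0 := by
    unfold rho vtx
    have a1 : ¬ vx 1 = vy 0 := by decide
    have a2 : ¬ vy 1 = vy 0 := by decide
    have a3 : ¬ vb = vy 0 := by decide
    simp [a1, a2, a3]
  have e1 := key 4 5 (by decide) (vx 1) (vy 4) (by decide) (by decide)
  have e2 := key 4 0 (by decide) (vy 4) va (by decide) (by decide)
  have e3 := key 0 0 (by decide) va (vy 0) (by decide) (by decide)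
  rw [r1, r0] at e0
  linarith

end Pool.Agent.H44.SQM
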