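import Pool.Agent.H44.SQM.LIF
import Pool.Agent.H44.SQM.STA
import Pool.Agent.H44.SQM.EXD

/-!
# EXR : the relation of the example

`z (p, y) = round y • f p`.

* (i) If `f p ≠ 0` then `p` does not lie in any of the 24 triangles outside the ring, so this is
  also true for all points near `p` (these triangles are finitely many closed sets), so all points
  `p'` near `p` lie in the ring.
* (ii) If `p` lies in the ring then `f (phi ^ 2 p) = 0`: `phi ^ 2` maps the triangle
  `tri k i` to `tri (k + 2) i`, and this lies outside the ring if `(k, i) ∈ ring6`.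
* Continuity of `z` at `(p, y)`, `f (phi ^ 2 p) = ↑y`. If `f p ≠ 0`, then by (i) and (ii), for all
  `(p', y')` near `(p, y)` (in the domain of `z`) `y'` is an integer, so `y' = y` and `round y' = round y`.
  If `f p = 0` and `y + 1/2` is not an integer then `round` is locally constant at `y`. If
  `y + 1/2` is an integer then `f (phi ^ 2 p) ≠ 0`, so `f (phi ^ 2 p') ≠ 0` for all `p'` near `p`, and then
  `f p' = 0` by (i) and (ii); so `z = 0` near `(p, y)`.
* `round (y + 1) = round y + 1` gives `z (p, y + 1) = f p + z (p, y)`.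
-/

namespace Pool.Agent.H44.SQM

open Topology

theorem EXR_dec : ∀ a ∈ ring6, (a.1 + 1 + 1, a.2) ∉ ring6 := by decide

theorem EXR_phi {k : ZMod 5} {i : Fin 6} {p : Surf} (h : p ∈ face (tri k i)) :
    phi p ∈ face (tri (k + 1) i) := by
  intro v hv
  show p.1 (sig.symm v) = 0
  apply h
  intro hv'
  apply hv
  rw [← sig_tri, Finset.mem_map]
  exact ⟨_, hv', sig.apply_symm_apply v⟩

theorem EXR_disj {f : C(Surf, S1)} (h : IsF0 f) {p : Surf} (hp : f ((phi ^ 2) p) ≠ 0) :
    f p = 0 := by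
  obtain ⟨t, ⟨k, i, rfl⟩, hpt⟩ := p.2.2.2
  by_cases hr : (k, i) ∈ ring6
  · exfalso
    apply hp
    rw [pow_two, Homeomorph.mul_apply]
    exact h.2 (k + 1 + 1) i (EXR_dec (k, i) hr) _ (EXR_phi (EXR_phi hpt))
  · exact h.2 k i hr p hpt

theorem EXR_round {y : ℝ} (hy : ∀ n : ℤ, y + 1 / 2 ≠ n) : ∀ᶠ y' in 𝓝 y, round y' = round y := by
  have h1 : ((⌊y + 1 / 2⌋ : ℤ) : ℝ) < y + 1 / 2 := lt_of_le_of_ne (Int.floor_le _) (hy _).symm
  have h2 : y + 1 / 2 < (⌊y + 1 / 2⌋ : ℤ) + 1 := Int.lt_floor_add_one _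
  have h3 : ∀ᶠ y' in 𝓝 y, ((⌊y + 1 / 2⌋ : ℤ) : ℝ) < y' + 1 / 2 ∧
      y' + 1 / 2 < (⌊y + 1 / 2⌋ : ℤ) + 1 := by
    have c : Continuous fun y' : ℝ => y' + 1 / 2 := by fun_prop
    exact (c.continuousAt.eventually_const_lt h1).and (c.continuousAt.eventually_lt_const h2)
  filter_upwards [h3] with y' h'
  rw [round_eq, round_eq]
  exact Int.floor_eq_iff.2 ⟨h'.1.le, h'.2⟩

theorem rel_f0 (f : C(Surf, S1)) (h : IsF0 f) : Rel f (pull f (phi ^ 2)) := by
  have hc : Continuous fun q : {p : Surf × ℝ // (pull f (phi ^ 2)) p.1 = (p.2 : S1)} =>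
      round q.1.2 • f q.1.1 := by
    rw [continuous_iff_continuousAt]
    rintro ⟨⟨p, y⟩, hpy⟩
    have c1 : Continuous fun q : {p : Surf × ℝ // (pull f (phi ^ 2)) p.1 = (p.2 : S1)} => q.1.1 :=
      continuous_fst.comp continuous_subtype_val
    have c2 : Continuous fun q : {p : Surf × ℝ // (pull f (phi ^ 2)) p.1 = (p.2 : S1)} => q.1.2 :=
      continuous_snd.comp continuous_subtype_val
    by_cases hy : ∀ n : ℤ, y + 1 / 2 ≠ n
    · have h1 : ContinuousAt (fun q : {p : Surf × ℝ // (pull f (phi ^ 2)) p.1 = (p.2 : S1)} =>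
          round y • f q.1.1) ⟨(p, y), hpy⟩ :=
        ((f.continuous.comp c1).zsmul (round y)).continuousAt
      refine h1.congr ?_
      have h2 : ∀ᶠ q : {p : Surf × ℝ // (pull f (phi ^ 2)) p.1 = (p.2 : S1)} in
          𝓝 ⟨(p, y), hpy⟩, round q.1.2 = round y :=
        (c2.continuousAt (x := ⟨(p, y), hpy⟩)).eventually (EXR_round hy)
      filter_upwards [h2] with q hq
      rw [hq]
    · push Not at hy
      obtain ⟨n, hn⟩ := hy
      have h0 : f ((phi ^ 2) p) ≠ 0 := by
        have e : f ((phi ^ 2) p) = (y : S1) := hpy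
        rw [e]
        intro h0
        obtain ⟨m, hm⟩ := coe_eq_zero_iff.1 h0
        have e1 : (1 : ℝ) = ((2 * (n - m) : ℤ) : ℝ) := by push_cast; linarith
        have e2 : (1 : ℤ) = 2 * (n - m) := by exact_mod_cast e1
        omega
      have h1 : ContinuousAt (fun _ : {p : Surf × ℝ // (pull f (phi ^ 2)) p.1 = (p.2 : S1)} =>
          (0 : S1)) ⟨(p, y), hpy⟩ := continuousAt_const
      refine h1.congr ?_
      have c3 : Continuous fun q : {p : Surf × ℝ // (pull f (phi ^ 2)) p.1 = (p.2 : S1)} =>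
          f ((phi ^ 2) q.1.1) := f.continuous.comp ((phi ^ 2).continuous.comp c1)
      have h2 := (c3.continuousAt (x := ⟨(p, y), hpy⟩)).eventually_ne h0
      filter_upwards [h2] with q hq
      rw [EXR_disj h hq, smul_zero]
  refine ⟨⟨_, hc⟩, fun x y hy hy' => ?_⟩
  show round (y + 1) • f x = f x + round y • f x
  rw [round_add_one, add_zsmul, one_zsmul, add_comm]

end Pool.Agent.H44.SQM
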