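import Pool.Agent.H44.SQM.EXA
import Pool.Agent.H44.SQM.EXN
import Pool.Agent.H44.SQM.EXR

/-!
# EXB : a class `f`, not null, with `Rel f (f ∘ phi ^ 2)`
-/

namespace Pool.Agent.H44.SQM

open Topology

theorem exB : ∃ f : C(Surf, S1), ¬ Null f ∧ Rel f (pull f (phi ^ 2)) := by
  obtain ⟨f, hf⟩ := exists_f0
  exact ⟨f, not_null_f0 f hf, rel_f0 f hf⟩

end Pool.Agent.H44.SQM
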