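import Pool.Agent.H44.SQM.QIN

/-!
# NLL : if `q = 0` then `f` is null

For `p ∈ St k ∩ St l` we show `u k p = u l p`. By `seg_vertex` and `Dat.diff` (with `int_const`) it suffices
to show this for the vertices `v` with `vtx v ∈ St k ∩ St l`: for `a` it is `base`, for `b`, `c`
it follows from `bb`, `cc` and `q = 0`, for `y_m` it is `yy`, and for `x_m`
(`vtx (vx m) ∈ St k` iff `k = m, m - 1, m - 2`) it follows from `xx`, `qx` and `q = 0`. So the `u k` glue to a
function on the surface, continuous since the `St k` are finitely many closed sets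
(`isClosed_St`, `cover_St`).
-/

namespace Pool.Agent.H44.SQM

open Topology

theorem NLL_five : ∀ k : ZMod 5, k = 0 ∨ k = 1 ∨ k = 2 ∨ k = 3 ∨ k = 4 := by decide

theorem NLL_const (a : ZMod 5 → ℝ) (h : ∀ k, a k = a (k + 1)) (k l : ZMod 5) : a k = a l := by
  have h0 : a 0 = a 1 := h 0
  have h1 : a 1 = a 2 := h 1
  have h2 : a 2 = a 3 := h 2
  have h3 : a 3 = a 4 := h 3
  have key : ∀ k, a k = a 0 := by
    intro k
    rcases NLL_five k with rfl | rfl | rfl | rfl | rfl <;> linarith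
  rw [key k, key l]

theorem NLL_cases : ∀ v : Fin 13, v = va ∨ v = vb ∨ v = vc ∨ (∃ m, v = vx m) ∨
    (∃ m, v = vy m) := by decide

theorem NLL_x : ∀ k m : ZMod 5, (∃ l i, vy k ∈ tri l i ∧ vx m ∈ tri l i) →
    m = k ∨ m = k + 1 ∨ m = k + 2 := by decide

theorem NLL_xk {f : C(Surf, S1)} {u : ZMod 5 → Surf → ℝ} {q : ZMod 5 → ℤ}
    (h : Dat f u q) (hq : ∀ k, q k = 0) {k m : ZMod 5} (hk : vtx (vx m) ∈ St k) :
    u k (vtx (vx m)) = u m (vtx (vx m)) := by
  rcases NLL_x k m ((vtx_mem_St_iff _ _).1 hk) with rfl | rfl | rfl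
  · rfl
  · have := h.qx k
    rw [hq k] at this
    simpa using this
  · exact h.xx k

theorem NLL_vtx {f : C(Surf, S1)} {u : ZMod 5 → Surf → ℝ} {q : ZMod 5 → ℤ}
    (h : Dat f u q) (hq : ∀ k, q k = 0) {k l : ZMod 5} {v : Fin 13} (hk : vtx v ∈ St k)
    (hl : vtx v ∈ St l) : u k (vtx v) = u l (vtx v) := by
  rcases NLL_cases v with rfl | rfl | rfl | ⟨m, rfl⟩ | ⟨m, rfl⟩
  · exact h.base k l
  · refine NLL_const (fun k => u k (vtx vb)) (fun k => ?_) k l
    have := h.bb k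
    rw [hq] at this
    simpa using this
  · refine NLL_const (fun k => u k (vtx vc)) (fun k => ?_) k l
    have := h.cc k
    rw [hq] at this
    simpa using this
  · rw [NLL_xk h hq hk, NLL_xk h hq hl]
  · exact h.yy hk hl

theorem NLL_agree {f : C(Surf, S1)} {u : ZMod 5 → Surf → ℝ} {q : ZMod 5 → ℤ}
    (h : Dat f u q) (hq : ∀ k, q k = 0) {k l : ZMod 5} {p : Surf} (hk : p ∈ St k)
    (hl : p ∈ St l) : u k p = u l p := by
  obtain ⟨t, v, hv, hp, h1, h2, h3⟩ := seg_vertex hk hl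
  have e : u k p - u l p = u k (vtx v) - u l (vtx v) := by
    refine int_const h3 (g := fun p => u k p - u l p)
      (((h.cont k).mono h1).sub ((h.cont l).mono h2)) ?_ hp (vtx_mem_face hv)
    intro x hx
    rw [AddCircle.coe_sub, ← h.lift k x (h1 hx), ← h.lift l x (h2 hx), sub_self]
  have e2 := NLL_vtx h hq (h1 (vtx_mem_face hv)) (h2 (vtx_mem_face hv))
  linarith

theorem null_of_dat {f : C(Surf, S1)} {u : ZMod 5 → Surf → ℝ} {q : ZMod 5 → ℤ}
    (h : Dat f u q) (hq : ∀ k, q k = 0) : Null f := by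
  choose κ hκ using cover_St
  have hU : ∀ k, ∀ p ∈ St k, u (κ p) p = u k p := fun k p hp => NLL_agree h hq (hκ p) hp
  refine ⟨⟨fun p => u (κ p) p, ?_⟩, fun p => h.lift _ _ (hκ p)⟩
  refine (locallyFinite_of_finite St).continuous ?_ isClosed_St fun k => ?_
  · exact Set.eq_univ_of_forall fun p => Set.mem_iUnion.2 ⟨κ p, hκ p⟩
  · exact (h.cont k).congr (hU k)

end Pool.Agent.H44.SQM
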