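import Pool.Agent.H44.SQM.LIF
import Pool.Agent.H44.SQM.STA

/-!
# QIN : relations between the local lifts

`Dat.diff`: on a face `t` contained in both stars, `u k - u l` is integer valued, so it is constant.
The other relations follow, with these faces (`k` arbitrary):
* `xx` : the edge `{a, y_k}` lies in `St k` and `St (k + 2)` (triangle `{a, y_k, y_{k+2}}`), and so does
  the edge `{y_k, x_{k+2}}` (triangle `{y_k, y_{k+2}, x_{k+2}}`); `base` gives the value `0` at `a`;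
* `yy` : `vtx (vy m) ∈ St k` only if `m = k - 2, k, k + 2`, and then the edge `{a, y_m}` lies in `St k`;
* `cc` : the edge `{c, x_{k+1}}` (triangles `{y_k, c, x_{k+1}}` and `{y_{k+1}, x_{k+1}, c}`);
* `bb` : the edge `{b, x_{k+2}}` (triangles `{y_k, b, x_{k+2}}` and `{y_{k+1}, x_{k+2}, b}`), `qx (k + 1)` and `xx k`;
* `sum` : sum `cc` over `k`; `ee` : from `bb` and `cc`.
-/

namespace Pool.Agent.H44.SQM

open Topology

variable {f : C(Surf, S1)} {u : ZMod 5 → Surf → ℝ} {q : ZMod 5 → ℤ}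

theorem QIN_y : ∀ k m : ZMod 5, (∃ l i, vy k ∈ tri l i ∧ vy m ∈ tri l i) →
    ∃ l i, vy k ∈ tri l i ∧ ({va, vy m} : Finset (Fin 13)) ⊆ tri l i := by decide

theorem QIN_c1 : ∀ k, ({vc, vx (k + 1)} : Finset (Fin 13)) ⊆ tri k 3 := by decide
theorem QIN_c2 : ∀ k, ({vc, vx (k + 1)} : Finset (Fin 13)) ⊆ tri (k + 1) 2 := by decide
theorem QIN_c3 : ∀ k, vy k ∈ tri k 3 := by decide
theorem QIN_c4 : ∀ k, vy k ∈ tri k 2 := by decide
theorem QIN_b1 : ∀ k, ({vb, vx (k + 2)} : Finset (Fin 13)) ⊆ tri k 5 := by decide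
theorem QIN_b2 : ∀ k, ({vb, vx (k + 2)} : Finset (Fin 13)) ⊆ tri (k + 1) 4 := by decide
theorem QIN_b3 : ∀ k, vy k ∈ tri k 5 := by decide
theorem QIN_b4 : ∀ k, vy k ∈ tri k 4 := by decide
theorem QIN_x1 : ∀ k, ({va, vy k} : Finset (Fin 13)) ⊆ tri k 0 := by decide
theorem QIN_x2 : ∀ k, vy k ∈ tri k 0 := by decide
theorem QIN_x3 : ∀ k, vy (k + 2) ∈ tri k 0 := by decide
theorem QIN_x4 : ∀ k, ({vy k, vx (k + 2)} : Finset (Fin 13)) ⊆ tri k 1 := by decide
theorem QIN_x5 : ∀ k, vy k ∈ tri k 1 := by decide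
theorem QIN_x6 : ∀ k, vy (k + 2) ∈ tri k 1 := by decide
theorem QIN_k : ∀ k : ZMod 5, k + 1 + 1 = k + 2 := by decide

theorem Dat.diff (h : Dat f u q) {k l m : ZMod 5} {i : Fin 6} {t : Finset (Fin 13)}
    (ht : t ⊆ tri m i) (hk : face t ⊆ St k) (hl : face t ⊆ St l) {p p' : Surf}
    (hp : p ∈ face t) (hp' : p' ∈ face t) : u k p - u l p = u k p' - u l p' := by
  refine int_const (isPreconnected_face ht) (g := fun p => u k p - u l p)
    (((h.cont k).mono hk).sub ((h.cont l).mono hl)) ?_ hp hp'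
  intro x hx
  rw [AddCircle.coe_sub, ← h.lift k x (hk hx), ← h.lift l x (hl hx), sub_self]

theorem Dat.xx (h : Dat f u q) (k : ZMod 5) :
    u k (vtx (vx (k + 2))) = u (k + 2) (vtx (vx (k + 2))) := by
  have t1 : face {va, vy k} ⊆ St k := face_subset_St (QIN_x2 k) (QIN_x1 k)
  have t2 : face {va, vy k} ⊆ St (k + 2) := face_subset_St (QIN_x3 k) (QIN_x1 k)
  have t3 : face {vy k, vx (k + 2)} ⊆ St k := face_subset_St (QIN_x5 k) (QIN_x4 k)
  have t4 : face {vy k, vx (k + 2)} ⊆ St (k + 2) := face_subset_St (QIN_x6 k) (QIN_x4 k)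
  have h1 := h.diff (QIN_x1 k) t1 t2 (p := vtx va) (p' := vtx (vy k))
    (vtx_mem_face (by simp)) (vtx_mem_face (by simp))
  have h2 := h.diff (QIN_x4 k) t3 t4 (p := vtx (vy k)) (p' := vtx (vx (k + 2)))
    (vtx_mem_face (by simp)) (vtx_mem_face (by simp))
  have h3 := h.base k (k + 2)
  linarith

theorem Dat.yy (h : Dat f u q) {k l m : ZMod 5} (hk : vtx (vy m) ∈ St k)
    (hl : vtx (vy m) ∈ St l) : u k (vtx (vy m)) = u l (vtx (vy m)) := by
  rw [vtx_mem_St_iff] at hk hl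
  obtain ⟨a, i, ha, hai⟩ := QIN_y k m hk
  obtain ⟨b, j, hb, hbj⟩ := QIN_y l m hl
  have h1 := h.diff hai (face_subset_St ha hai) (face_subset_St hb hbj) (p := vtx va)
    (p' := vtx (vy m)) (vtx_mem_face (by simp)) (vtx_mem_face (by simp))
  have h3 := h.base k l
  linarith

theorem Dat.cc (h : Dat f u q) (k : ZMod 5) : u k (vtx vc) = u (k + 1) (vtx vc) + q k := by
  have h1 := h.diff (QIN_c1 k) (face_subset_St (QIN_c3 k) (QIN_c1 k))
    (face_subset_St (QIN_c4 (k + 1)) (QIN_c2 k)) (p := vtx vc)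
    (p' := vtx (vx (k + 1))) (vtx_mem_face (by simp)) (vtx_mem_face (by simp))
  have h2 := h.qx k
  linarith

theorem Dat.bb (h : Dat f u q) (k : ZMod 5) :
    u k (vtx vb) = u (k + 1) (vtx vb) - q (k + 1) := by
  have h1 := h.diff (QIN_b1 k) (face_subset_St (QIN_b3 k) (QIN_b1 k))
    (face_subset_St (QIN_b4 (k + 1)) (QIN_b2 k)) (p := vtx vb)
    (p' := vtx (vx (k + 2))) (vtx_mem_face (by simp)) (vtx_mem_face (by simp))
  have h2 := h.qx (k + 1)
  rw [QIN_k k] at h2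
  have h3 := h.xx k
  linarith

theorem Dat.sum (h : Dat f u q) : ∑ k, q k = 0 := by
  have sh : ∑ k, u (k + 1) (vtx vc) = ∑ k, u k (vtx vc) :=
    Equiv.sum_comp (Equiv.addRight (1 : ZMod 5)) (fun k => u k (vtx vc))
  have h1 : ∑ k, u k (vtx vc) = ∑ k, u (k + 1) (vtx vc) + ∑ k, (q k : ℝ) := by
    rw [← Finset.sum_add_distrib]
    exact Finset.sum_congr rfl fun k _ => h.cc k
  rw [sh] at h1
  have h2 : ∑ k, (q k : ℝ) = 0 := by linarith
  exact_mod_cast h2

theorem Dat.ee (h : Dat f u q) (k : ZMod 5) :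
    (u (k + 1) (vtx vb) - u (k + 1) (vtx vc)) - (u k (vtx vb) - u k (vtx vc)) =
      q (k + 1) + q k := by
  have h1 := h.bb k
  have h2 := h.cc k
  linarith

end Pool.Agent.H44.SQM
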