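import Pool.Agent.H44.SQM.STA

/-!
# STC : the closed stars are contractible

The homotopy `(p, r) ↦ (1 - r) p + r y_k` (barycentric coordinates; it stays in the
triangle that contains `p` and `y_k`).
-/

namespace Pool.Agent.H44.SQM

open Topology

/-- The straight line homotopy, in barycentric coordinates. -/
noncomputable def STC_fun (k : ZMod 5) (r : unitInterval) (p : Fin 13 → ℝ) : Fin 13 → ℝ :=
  fun v => (1 - (r : ℝ)) * p v + (r : ℝ) * (vtx (vy k)).1 v

theorem STC_vtx (v w : Fin 13) : (vtx v).1 w = if w = v then (1 : ℝ) else 0 := rfl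

theorem STC_mem (k : ZMod 5) (r : unitInterval) {p : Surf} {l : ZMod 5} {i : Fin 6}
    (hk : vy k ∈ tri l i) (hp : p ∈ face (tri l i)) :
    (∀ v, 0 ≤ STC_fun k r p.1 v) ∧ ∑ v, STC_fun k r p.1 v = 1 ∧
      ∀ v, v ∉ tri l i → STC_fun k r p.1 v = 0 := by
  have h0 : (0 : ℝ) ≤ r := r.2.1
  have h1 : (0 : ℝ) ≤ 1 - (r : ℝ) := by linarith [r.2.2]
  refine ⟨fun v => ?_, ?_, fun v hv => ?_⟩
  · have ha := p.2.1 v
    have hb := (vtx (vy k)).2.1 v
    exact add_nonneg (mul_nonneg h1 ha) (mul_nonneg h0 hb)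
  · have ha := p.2.2.1
    have hb := (vtx (vy k)).2.2.1
    simp only [STC_fun, Finset.sum_add_distrib, ← Finset.mul_sum]
    rw [ha, hb]
    ring
  · have ha : p.1 v = 0 := hp v hv
    have hne : v ≠ vy k := by
      rintro rfl
      exact hv hk
    simp only [STC_fun, STC_vtx]
    rw [ha, if_neg hne]
    ring

theorem STC_geo (k : ZMod 5) (r : unitInterval) {p : Surf} (hp : p ∈ St k) :
    STC_fun k r p.1 ∈ geo tris := by
  obtain ⟨l, i, hk, hpf⟩ := hp
  obtain ⟨h1, h2, h3⟩ := STC_mem k r hk hpf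
  exact ⟨h1, h2, tri l i, ⟨l, i, rfl⟩, h3⟩

theorem STC_St (k : ZMod 5) (r : unitInterval) {p : Surf} (hp : p ∈ St k) :
    (⟨STC_fun k r p.1, STC_geo k r hp⟩ : Surf) ∈ St k := by
  obtain ⟨l, i, hk, hpf⟩ := hp
  obtain ⟨h1, h2, h3⟩ := STC_mem k r hk hpf
  exact ⟨l, i, hk, h3⟩

theorem STC_tri (k : ZMod 5) : vy k ∈ tri k 0 := by
  revert k
  decide

theorem STC_vtx_mem (k : ZMod 5) : vtx (vy k) ∈ St k := by
  refine ⟨k, 0, STC_tri k, fun v hv => ?_⟩
  rw [STC_vtx, if_neg]
  rintro rfl
  exact hv (STC_tri k)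

/-- The homotopy on the closed star. -/
noncomputable def STC_map (k : ZMod 5) (q : unitInterval × St k) : St k :=
  ⟨⟨STC_fun k q.1 q.2.1.1, STC_geo k q.1 q.2.2⟩, STC_St k q.1 q.2.2⟩

theorem STC_continuous (k : ZMod 5) : Continuous (STC_map k) := by
  refine Continuous.subtype_mk (Continuous.subtype_mk (continuous_pi fun v => ?_) _) _
  have h1 : Continuous fun q : unitInterval × St k => (q.1 : ℝ) :=
    continuous_subtype_val.comp continuous_fst
  have h2 : Continuous fun q : unitInterval × St k => q.2.1.1 v :=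
    (continuous_apply v).comp
      (continuous_subtype_val.comp (continuous_subtype_val.comp continuous_snd))
  exact ((continuous_const.sub h1).mul h2).add (h1.mul continuous_const)

/-- Contraction to the vertex `y_k` along straight lines in the triangles. -/
theorem contractible_St (k : ZMod 5) : ContractibleSpace (St k) := by
  rw [contractible_iff_id_nullhomotopic]
  refine ⟨⟨vtx (vy k), STC_vtx_mem k⟩, ⟨⟨⟨STC_map k, STC_continuous k⟩, ?_, ?_⟩⟩⟩
  · intro p
    apply Subtype.ext
    apply Subtype.ext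
    funext v
    show (1 - ((0 : unitInterval) : ℝ)) * p.1.1 v + ((0 : unitInterval) : ℝ) * _ = p.1.1 v
    rw [Set.Icc.coe_zero]
    ring
  · intro p
    apply Subtype.ext
    apply Subtype.ext
    funext v
    show (1 - ((1 : unitInterval) : ℝ)) * p.1.1 v
      + ((1 : unitInterval) : ℝ) * (vtx (vy k)).1 v = (vtx (vy k)).1 v
    rw [Set.Icc.coe_one]
    ring

theorem isPreconnected_St (k : ZMod 5) : IsPreconnected (St k) := by
  have h := contractible_St k
  rw [isPreconnected_iff_preconnectedSpace]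
  infer_instance

end Pool.Agent.H44.SQM
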