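import Pool.Agent.H44.SQM.LIC
import Pool.Agent.H44.SQM.STC
import Pool.Agent.H44.SQM.QIN

/-!
# QOM : the obstruction given by a relation

Let `Rel f g` with `z`, `Dat f u q`, `Dat g w r`. By induction `z (p, y + m) = m • f p + z (p, y)` for `m : ℤ`.
On `St k` the function `p ↦ z (p, w k p)` is continuous, so it has a continuous lift `ζ k`
(`exists_lift_on`), and since the `w k` agree at the vertex `a` we may choose the `ζ k` with equal values
at `a` (subtract integers).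

* The edge `{c, x_{k+1}}` lies in `St k` and in `St (k + 1)`, and on it `w k - w (k + 1) = r k` (`Dat.cc` for `g`
  and `Dat.diff`), so `↑(ζ k) = r k • ↑(u (k + 1)) + ↑(ζ (k + 1))`, and `ζ k - ζ (k + 1) - r k * u (k + 1)` is constant
  on this edge:
  `ζ_k(c) - ζ_{k+1}(c) - r_k u_{k+1}(c) = ζ_k(x_{k+1}) - ζ_{k+1}(x_{k+1}) - r_k u_{k+1}(x_{k+1})`. (1)
* The edge `{b, x_{k+2}}` lies in both, and on it `w k - w (k + 1) = - r (k + 1)` (`Dat.bb`), so
  `ζ_k(b) - ζ_{k+1}(b) + r_{k+1} u_{k+1}(b) = ζ_k(x_{k+2}) - ζ_{k+1}(x_{k+2}) + r_{k+1} u_{k+1}(x_{k+2})`. (2)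
* The edges `{a, y_k}` and `{y_k, x_{k+2}}` lie in `St k` and in `St (k + 2)`, and on them
  `w k = w (k + 2)`, so `ζ k - ζ (k + 2)` is constant on them: `ζ_k(x_{k+2}) = ζ_{k+2}(x_{k+2})`. (3)

Sum (1) over all `k`:
`- ∑ r_k u_{k+1}(c) = ∑ [ζ_k(x_{k+1}) - ζ_{k+1}(x_{k+1})] - ∑ r_k u_{k+1}(x_{k+1})`.
Sum (2) over all `k`, use (3) and shift the index:
`∑ r_{k+1} u_{k+1}(b) = - ∑ [ζ_k(x_{k+1}) - ζ_{k+1}(x_{k+1})] + ∑ r_k u_k(x_{k+1})`.
Add and use `Dat.cc` (`u_{k+1}(c) = u_k(c) - q_k`) and `qx` (`u_k(x_{k+1}) - u_{k+1}(x_{k+1}) = q_k`):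
`∑ r_k u_k(b) - ∑ r_k u_k(c) + ∑ r_k q_k = ∑ r_k q_k`.
-/

namespace Pool.Agent.H44.SQM

open Topology

/-- extension of `z` to a total function -/
noncomputable def QOMext (g : C(Surf, S1)) (z : C({p : Surf × ℝ // g p.1 = (p.2 : S1)}, S1)) (x : Surf)
    (y : ℝ) : S1 :=
  haveI := Classical.propDecidable (g x = (y : S1))
  if h : g x = (y : S1) then z ⟨(x, y), h⟩ else 0

theorem QOM_ext {g : C(Surf, S1)} {z : C({p : Surf × ℝ // g p.1 = (p.2 : S1)}, S1)} {x : Surf}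
    {y : ℝ} (h : g x = (y : S1)) : QOMext g z x y = z ⟨(x, y), h⟩ := by
  unfold QOMext
  rw [dif_pos h]

theorem QOM_int {f g : C(Surf, S1)} {z : C({p : Surf × ℝ // g p.1 = (p.2 : S1)}, S1)}
    (hz : ∀ (x : Surf) (y : ℝ) (hy : g x = (y : S1)) (hy' : g x = ((y + 1 : ℝ) : S1)),
      z ⟨(x, y + 1), hy'⟩ = f x + z ⟨(x, y), hy⟩) (x : Surf) (y : ℝ) (h : g x = (y : S1)) (m : ℤ) :
    QOMext g z x (y + m) = m • f x + QOMext g z x y := by
  have e1 : ∀ y : ℝ, g x = (y : S1) → QOMext g z x (y + 1) = f x + QOMext g z x y := by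
    intro y hy
    have hy' : g x = ((y + 1 : ℝ) : S1) := by rw [coe_add_one]; exact hy
    rw [QOM_ext hy', QOM_ext hy]
    exact hz x y hy hy'
  have e2 : ∀ m : ℤ, g x = ((y + m : ℝ) : S1) := by
    intro m
    rw [AddCircle.coe_add, coe_int, add_zero]
    exact h
  induction m with
  | zero => simp
  | succ n ih =>
    have := e1 (y + n) (e2 n)
    have e3 : y + (((n : ℤ) + 1 : ℤ) : ℝ) = y + ((n : ℤ) : ℝ) + 1 := by push_cast; ring
    rw [e3, e1 _ (e2 n), ih, add_zsmul, one_zsmul]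
    abel
  | pred n ih =>
    have e3 : y + ((-(n : ℤ) : ℤ) : ℝ) = y + ((-(n : ℤ) - 1 : ℤ) : ℝ) + 1 := by push_cast; ring
    rw [e3, e1 _ (e2 _)] at ih
    have e4 : (-(n : ℤ) - 1) • f x = (-(n : ℤ)) • f x - f x := by
      rw [sub_zsmul, one_zsmul, sub_eq_add_neg]
    rw [e4, sub_add_eq_add_sub, ← ih]
    abel

theorem QOM_d1 : ∀ k, ({vc, vx (k + 1)} : Finset (Fin 13)) ⊆ tri k 3 := by decide
theorem QOM_d2 : ∀ k, ({vc, vx (k + 1)} : Finset (Fin 13)) ⊆ tri (k + 1) 2 := by decide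
theorem QOM_d3 : ∀ k, vy k ∈ tri k 3 := by decide
theorem QOM_d4 : ∀ k, vy k ∈ tri k 2 := by decide
theorem QOM_d5 : ∀ k, ({vb, vx (k + 2)} : Finset (Fin 13)) ⊆ tri k 5 := by decide
theorem QOM_d6 : ∀ k, ({vb, vx (k + 2)} : Finset (Fin 13)) ⊆ tri (k + 1) 4 := by decide
theorem QOM_d7 : ∀ k, vy k ∈ tri k 5 := by decide
theorem QOM_d8 : ∀ k, vy k ∈ tri k 4 := by decide
theorem QOM_d9 : ∀ k, ({va, vy k} : Finset (Fin 13)) ⊆ tri k 0 := by decide
theorem QOM_d10 : ∀ k, vy k ∈ tri k 0 := by decide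
theorem QOM_d11 : ∀ k, vy (k + 2) ∈ tri k 0 := by decide
theorem QOM_d12 : ∀ k, ({vy k, vx (k + 2)} : Finset (Fin 13)) ⊆ tri k 1 := by decide
theorem QOM_d13 : ∀ k, vy k ∈ tri k 1 := by decide
theorem QOM_d14 : ∀ k, vy (k + 2) ∈ tri k 1 := by decide
theorem QOM_d15 : ∀ k : ZMod 5, k + 1 + 1 = k + 2 := by decide

theorem QOM_alg (r q : ZMod 5 → ℤ) (B C X0 X1 X2 ub uc ux0 ux1 : ZMod 5 → ℝ)
    (h1 : ∀ k, C k - C (k + 1) - r k * uc (k + 1) = X1 k - X0 (k + 1) - r k * ux0 (k + 1))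
    (h2 : ∀ k, B k - B (k + 1) + r (k + 1) * ub (k + 1) =
      X2 k - X1 (k + 1) + r (k + 1) * ux1 (k + 1))
    (h3 : ∀ k, X2 k = X0 (k + 2)) (hq : ∀ k, ux1 k = ux0 (k + 1) + q k)
    (hc : ∀ k, uc k = uc (k + 1) + q k) :
    ∑ k, (r k : ℝ) * (ub k - uc k) = 0 := by
  have s1 := Finset.sum_congr (rfl : (Finset.univ : Finset (ZMod 5)) = Finset.univ)
    (fun k _ => h1 k)
  have s2 := Finset.sum_congr (rfl : (Finset.univ : Finset (ZMod 5)) = Finset.univ)
    (fun k _ => h2 k)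
  simp only [Finset.sum_add_distrib, Finset.sum_sub_distrib] at s1 s2
  have sh : ∀ a : ZMod 5 → ℝ, ∑ k, a (k + 1) = ∑ k, a k := fun a =>
    Equiv.sum_comp (Equiv.addRight (1 : ZMod 5)) a
  have sh2 : ∀ a : ZMod 5 → ℝ, ∑ k, a (k + 2) = ∑ k, a k := fun a =>
    Equiv.sum_comp (Equiv.addRight (2 : ZMod 5)) a
  have s3 : ∑ k, X2 k = ∑ k, X0 k := by
    rw [← sh2 X0]
    exact Finset.sum_congr rfl fun k _ => h3 k
  rw [sh C, sh X0] at s1
  rw [sh B, sh X1, sh (fun k => (r k : ℝ) * ub k), sh (fun k => (r k : ℝ) * ux1 k)] at s2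
  have s4 : ∑ k, (r k : ℝ) * ux1 k = ∑ k, (r k : ℝ) * ux0 (k + 1) + ∑ k, (r k : ℝ) * q k := by
    rw [← Finset.sum_add_distrib]
    exact Finset.sum_congr rfl fun k _ => by rw [hq k]; ring
  have s5 : ∑ k, (r k : ℝ) * uc k = ∑ k, (r k : ℝ) * uc (k + 1) + ∑ k, (r k : ℝ) * q k := by
    rw [← Finset.sum_add_distrib]
    exact Finset.sum_congr rfl fun k _ => by rw [hc k]; ring
  have s6 : ∑ k, (r k : ℝ) * (ub k - uc k) = ∑ k, (r k : ℝ) * ub k - ∑ k, (r k : ℝ) * uc k := by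
    rw [← Finset.sum_sub_distrib]
    exact Finset.sum_congr rfl fun k _ => by ring
  rw [s6]
  linarith

theorem rel_omega {f g : C(Surf, S1)} {u w : ZMod 5 → Surf → ℝ} {q r : ZMod 5 → ℤ}
    (hf : Dat f u q) (hg : Dat g w r) (hr : Rel f g) :
    ∑ k, (r k : ℝ) * (u k (vtx vb) - u k (vtx vc)) = 0 := by
  obtain ⟨z, hz⟩ := hr
  have hcont : ∀ k, ContinuousOn (fun p => QOMext g z p (w k p)) (St k) := by
    intro k
    rw [continuousOn_iff_continuous_domRestrict]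
    have : (St k).domRestrict (fun p => QOMext g z p (w k p)) =
        fun p : St k => z ⟨(p.1, w k p.1), hg.lift k p.1 p.2⟩ := by
      ext p
      exact QOM_ext (hg.lift k p.1 p.2)
    rw [this]
    refine z.continuous.comp (Continuous.subtype_mk ?_ _)
    exact continuous_subtype_val.prodMk (continuousOn_iff_continuous_domRestrict.1 (hg.cont k))
  have hex : ∀ k, ∃ ζ : Surf → ℝ, ContinuousOn ζ (St k) ∧
      ∀ p ∈ St k, QOMext g z p (w k p) = (ζ p : S1) := by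
    intro k
    have := contractible_St k
    exact exists_lift_on (hcont k)
  choose ζ' hζ'c hζ'l using hex
  have hva : ∀ k, vtx va ∈ St k := by
    intro k
    rw [vtx_mem_St_iff]
    revert k
    decide
  have hn : ∀ k, ∃ n : ℤ, ζ' k (vtx va) = ζ' 0 (vtx va) + n := by
    intro k
    rw [← coe_eq_coe_iff, ← hζ'l k _ (hva k), ← hζ'l 0 _ (hva 0), hg.base k 0]
  choose n hn using hn
  set ζ : ZMod 5 → Surf → ℝ := fun k p => ζ' k p - n k with hζ
  have hζc : ∀ k, ContinuousOn (ζ k) (St k) := fun k => (hζ'c k).sub continuousOn_const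
  have hζl : ∀ k, ∀ p ∈ St k, QOMext g z p (w k p) = (ζ k p : S1) := by
    intro k p hp
    rw [hζ'l k p hp]
    show _ = ((ζ' k p - n k : ℝ) : S1)
    rw [AddCircle.coe_sub, coe_int, sub_zero]
  have hζa : ∀ k l, ζ k (vtx va) = ζ l (vtx va) := by
    intro k l
    show ζ' k _ - n k = ζ' l _ - n l
    rw [hn k, hn l]
    ring
  -- the edge lemma
  have edge : ∀ (k l m : ZMod 5) (i : Fin 6) (t : Finset (Fin 13)) (N : ℤ), t ⊆ tri m i →
      face t ⊆ St k → face t ⊆ St l → (∃ p ∈ face t, w k p - w l p = N) →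
      ∀ p ∈ face t, ∀ p' ∈ face t,
      ζ k p - ζ l p - N * u l p = ζ k p' - ζ l p' - N * u l p' := by
    intro k l m i t N ht hk hl hN p hp p' hp'
    obtain ⟨p₀, hp₀, hN⟩ := hN
    refine int_const (isPreconnected_face ht) (g := fun p => ζ k p - ζ l p - N * u l p) ?_ ?_ hp hp'
    · exact (((hζc k).mono hk).sub ((hζc l).mono hl)).sub
        (continuousOn_const.mul ((hf.cont l).mono hl))
    · intro x hx
      have e1 : w k x = w l x + N := by
        have := hg.diff ht hk hl hx hp₀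
        linarith
      have e2 := hζl k x (hk hx)
      rw [e1, QOM_int hz x (w l x) (hg.lift l x (hl hx)) N, hζl l x (hl hx), hf.lift l x (hl hx)]
        at e2
      rw [AddCircle.coe_sub, AddCircle.coe_sub, ← e2, coe_zmul]
      abel
  refine QOM_alg r q (fun k => ζ k (vtx vb)) (fun k => ζ k (vtx vc)) (fun k => ζ k (vtx (vx k)))
    (fun k => ζ k (vtx (vx (k + 1)))) (fun k => ζ k (vtx (vx (k + 2)))) (fun k => u k (vtx vb))
    (fun k => u k (vtx vc)) (fun k => u k (vtx (vx k))) (fun k => u k (vtx (vx (k + 1))))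
    ?_ ?_ ?_ hf.qx hf.cc
  · intro k
    refine edge k (k + 1) k 3 {vc, vx (k + 1)} (r k) (QOM_d1 k)
      (face_subset_St (QOM_d3 k) (QOM_d1 k)) (face_subset_St (QOM_d4 (k + 1)) (QOM_d2 k))
      ⟨vtx vc, vtx_mem_face (by simp), ?_⟩ _ (vtx_mem_face (by simp)) _ (vtx_mem_face (by simp))
    have := hg.cc k
    linarith
  · intro k
    have h := edge k (k + 1) k 5 {vb, vx (k + 2)} (-r (k + 1)) (QOM_d5 k)
      (face_subset_St (QOM_d7 k) (QOM_d5 k)) (face_subset_St (QOM_d8 (k + 1)) (QOM_d6 k))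
      ⟨vtx vb, vtx_mem_face (by simp), by have := hg.bb k; push_cast; linarith⟩
      (vtx vb) (vtx_mem_face (by simp)) (vtx (vx (k + 2))) (vtx_mem_face (by simp))
    have e := QOM_d15 k
    rw [Int.cast_neg] at h
    show ζ k (vtx vb) - ζ (k + 1) (vtx vb) + r (k + 1) * u (k + 1) (vtx vb) =
      ζ k (vtx (vx (k + 2))) - ζ (k + 1) (vtx (vx (k + 1 + 1))) +
      r (k + 1) * u (k + 1) (vtx (vx (k + 1 + 1)))
    rw [e]
    linarith
  · intro k
    have t1 : face {va, vy k} ⊆ St k := face_subset_St (QOM_d10 k) (QOM_d9 k)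
    have t2 : face {va, vy k} ⊆ St (k + 2) := face_subset_St (QOM_d11 k) (QOM_d9 k)
    have t3 : face {vy k, vx (k + 2)} ⊆ St k := face_subset_St (QOM_d13 k) (QOM_d12 k)
    have t4 : face {vy k, vx (k + 2)} ⊆ St (k + 2) := face_subset_St (QOM_d14 k) (QOM_d12 k)
    have w1 : w k (vtx (vy k)) - w (k + 2) (vtx (vy k)) = 0 := by
      have := hg.diff (QOM_d9 k) t1 t2
        (p := vtx (vy k)) (p' := vtx va) (vtx_mem_face (by simp)) (vtx_mem_face (by simp))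
      rw [this, hg.base k (k + 2), sub_self]
    have h1 := edge k (k + 2) k 0 {va, vy k} 0 (QOM_d9 k) t1 t2
      ⟨vtx (vy k), vtx_mem_face (by simp), by rw [w1]; simp⟩
      (vtx va) (vtx_mem_face (by simp)) (vtx (vy k)) (vtx_mem_face (by simp))
    have h2 := edge k (k + 2) k 1 {vy k, vx (k + 2)} 0 (QOM_d12 k) t3 t4
      ⟨vtx (vy k), vtx_mem_face (by simp), by rw [w1]; simp⟩
      (vtx (vy k)) (vtx_mem_face (by simp)) (vtx (vx (k + 2))) (vtx_mem_face (by simp))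
    have h3 := hζa k (k + 2)
    simp only [Int.cast_zero, zero_mul, sub_zero] at h1 h2
    show ζ k (vtx (vx (k + 2))) = ζ (k + 2) (vtx (vx (k + 2)))
    linarith

end Pool.Agent.H44.SQM
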