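import Pool.Agent.H44.SQM.LFT
import Pool.Agent.H44.SQM.NLL
import Pool.Agent.H44.SQM.QOM
import Pool.Agent.H44.SQM.ALG

/-!
# FXP : the symmetry `phi` and its square on the circle valued maps
-/

namespace Pool.Agent.H44.SQM

open Topology

/-- `pull f (phi ^ 2) = pull (pull f phi) phi` -/
theorem pull_phi2 (f : C(Surf, S1)) : pull f (phi ^ 2) = pull (pull f phi) phi := by
  ext p
  show f ((phi ^ 2) p) = f (phi (phi p))
  rw [pow_two, Homeomorph.mul_apply]

/-- `Dat.shift`, `Dat.unique`, `alg_fix`, `null_of_dat`. -/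
theorem fix_phi : Fix phi := by
  rintro f ⟨w, hw⟩
  obtain ⟨u, q, h⟩ := exists_dat f
  have e := h.unique h.shift w hw
  refine null_of_dat h (alg_fix q h.sum fun k => ?_)
  exact (congrFun e k).symm

theorem FXP_k : ∀ k : ZMod 5, k + 1 + 1 = k + 2 := by decide

/-- `Dat.shift` twice, `Dat.unique`, `alg_fix2`, `null_of_dat`. -/
theorem fix_phi2 : Fix (phi ^ 2) := by
  rintro f ⟨w, hw⟩
  obtain ⟨u, q, h⟩ := exists_dat f
  have h2 := h.shift.shift
  rw [← pull_phi2] at h2
  have e := h.unique h2 w hw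
  refine null_of_dat h (alg_fix2 q h.sum fun k => ?_)
  have := (congrFun e k).symm
  rw [← FXP_k k]
  exact this

/-- `rel_omega` (with `Dat.shift`), `Dat.ee`, `phi_vtx`, `alg_one`, `alg_two`, `null_of_dat`. -/
theorem no_phi (f : C(Surf, S1)) (h : Rel f (pull f phi) ∨ Rel (pull f phi) f) : Null f := by
  obtain ⟨u, q, hd⟩ := exists_dat f
  refine null_of_dat hd ?_
  rcases h with h | h
  · exact alg_one q (fun k => u k (vtx vb) - u k (vtx vc)) hd.ee (rel_omega hd hd.shift h)
  · have h1 := rel_omega hd.shift hd h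
    refine alg_two q (fun k => u k (vtx vb) - u k (vtx vc)) hd.ee ?_
    rw [← h1]
    refine Finset.sum_congr rfl fun k _ => ?_
    rw [phi_vtx, phi_vtx, sig_vb, sig_vc]

end Pool.Agent.H44.SQM
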