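import Pool.Agent.H44.SQM.MTC

/-!
# MAN : the mapping torus of a homeomorphism of a closed surface is a closed 3-manifold

Chart at `mk (x, t)`: let `e : U ≃ₜ W` be a chart of `X` at `x`. The set
`V = mk '' (U ×ˢ (t - 1/2, t + 1/2))` is open (`isOpenQuotientMap_mk`), `mk` restricted to
`U ×ˢ (t - 1/2, t + 1/2)` is injective (`mk_inj`), continuous and open, so
`V ≃ₜ U × (t - 1/2, t + 1/2) ≃ₜ W × (t - 1/2, t + 1/2)`, which is homeomorphic to an open subset
of `Fin 3 → ℝ` (`Homeomorph.piFinSuccAbove` or a direct definition).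
-/

namespace Pool.Agent.H44.SQM

open Topology

/-- The product of a set of the plane and a set of the line as a set of three-space. -/
def man_box (W : Set (Fin 2 → ℝ)) (I : Set ℝ) : Set (Fin 3 → ℝ) :=
  {g | (fun i : Fin 2 => g i.succ) ∈ W ∧ g 0 ∈ I}

theorem man_box_open {W : Set (Fin 2 → ℝ)} {I : Set ℝ} (hW : IsOpen W) (hI : IsOpen I) :
    IsOpen (man_box W I) := by
  have h1 : Continuous (fun g : Fin 3 → ℝ => fun i : Fin 2 => g i.succ) :=
    continuous_pi fun i => continuous_apply _
  exact (hW.preimage h1).inter (hI.preimage (continuous_apply (0 : Fin 3)))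

/-- The product of a set of the plane and a set of the line is homeomorphic to a set of
three-space. -/
def man_prod (W : Set (Fin 2 → ℝ)) (I : Set ℝ) : (W × I) ≃ₜ man_box W I where
  toFun p := ⟨Fin.cons p.2.1 p.1.1, by
    refine ⟨?_, ?_⟩
    · simp
    · simp⟩
  invFun g := (⟨fun i => g.1 i.succ, g.2.1⟩, ⟨g.1 0, g.2.2⟩)
  left_inv p := by
    rcases p with ⟨⟨w, hw⟩, ⟨s, hs⟩⟩
    simp
  right_inv g := by
    rcases g with ⟨g, hg⟩
    apply Subtype.ext
    funext i
    refine Fin.cases ?_ (fun j => ?_) i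
    · simp
    · simp
  continuous_toFun := by
    refine Continuous.subtype_mk (continuous_pi fun i => ?_) _
    refine Fin.cases ?_ (fun j => ?_) i
    · simp only [Fin.cons_zero]
      exact continuous_subtype_val.comp continuous_snd
    · simp only [Fin.cons_succ]
      exact (continuous_apply j).comp (continuous_subtype_val.comp continuous_fst)
  continuous_invFun := by
    refine Continuous.prodMk ?_ ?_
    · exact Continuous.subtype_mk (continuous_pi fun i : Fin 2 =>
        (continuous_apply (A := fun _ : Fin 3 => ℝ) (Fin.succ i)).comp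
          continuous_subtype_val) _
    · exact Continuous.subtype_mk
        ((continuous_apply (A := fun _ : Fin 3 => ℝ) 0).comp continuous_subtype_val) _

theorem mt_manifold {X : Type*} [TopologicalSpace X] (h : X ≃ₜ X) (hX : IsClosedManifold 2 X) :
    IsClosedManifold 3 (MT h) := by
  obtain ⟨hc, ht2, hch⟩ := hX
  refine ⟨mt_compact h, mt_t2 h, fun a => ?_⟩
  obtain ⟨⟨x, t⟩, rfl⟩ : ∃ p, mk h p = a := Quotient.exists_rep a
  obtain ⟨U, hU, hxU, W, hW, ⟨e⟩⟩ := hch x
  set I : Set ℝ := Set.Ioo (t - 1 / 2) (t + 1 / 2) with hI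
  have hIo : IsOpen I := isOpen_Ioo
  set S : Set (X × ℝ) := U ×ˢ I with hS
  have hSo : IsOpen S := hU.prod hIo
  have hq := isOpenQuotientMap_mk h
  let f : S → MT h := fun p => mk h p.1
  have hfc : Continuous f := hq.continuous.comp continuous_subtype_val
  have hfo : IsOpenMap f := hq.isOpenMap.comp hSo.isOpenEmbedding_subtypeVal.isOpenMap
  have hfi : Function.Injective f := by
    rintro ⟨⟨y, s⟩, hy, hs⟩ ⟨⟨y', s'⟩, hy', hs'⟩ he
    have he' : mk h (y, s) = mk h (y', s') := he
    have hlt : |s - s'| < 1 := by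
      simp only [hI, Set.mem_Ioo] at hs hs'
      rw [abs_lt]
      constructor <;> linarith [hs.1, hs.2, hs'.1, hs'.2]
    obtain ⟨rfl, rfl⟩ := mk_inj h hlt he'
    rfl
  have hemb : IsOpenEmbedding f := IsOpenEmbedding.of_continuous_injective_isOpenMap hfc hfi hfo
  refine ⟨Set.range f, hemb.isOpen_range, ⟨⟨(x, t), hxU, ?_⟩, rfl⟩, man_box W I,
    man_box_open hW hIo, ⟨?_⟩⟩
  · simp only [hI, Set.mem_Ioo]
    constructor <;> linarith
  · exact (hemb.toIsEmbedding.toHomeomorph.symm.trans
      ((Homeomorph.Set.prod U I).trans (e.prodCongr (Homeomorph.refl _)))).trans (man_prod W I)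

end Pool.Agent.H44.SQM
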