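import Pool.Agent.H44.SQM.MTB

/-!
# MTC : mapping tori are Hausdorff, compact, connected
-/

namespace Pool.Agent.H44.SQM

open Topology

/-- Two points with different images under `tau` are separated by `tau`. Otherwise both
have representatives `(x, s)`, `(y, s)` with the same `s` (`exists_rep`), `x ≠ y`; if `U`, `V` separate
`x` and `y`, then the images of `U × (s - 1/4, s + 1/4)` and `V × (s - 1/4, s + 1/4)`
are open (`isOpenQuotientMap_mk`) and disjoint (`mk_inj`). -/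
theorem mt_t2 {X : Type*} [TopologicalSpace X] [T2Space X] (h : X ≃ₜ X) : T2Space (MT h) := by
  refine ⟨fun a b hab => ?_⟩
  by_cases ht : tau h a = tau h b
  · obtain ⟨⟨y, s⟩, hys⟩ := Quotient.exists_rep b
    have hys' : mk h (y, s) = b := hys
    subst hys'
    obtain ⟨x, rfl⟩ := exists_rep h a s (ht.trans (tau_mk h y s))
    have hxy : x ≠ y := by
      rintro rfl
      exact hab rfl
    obtain ⟨U, V, hU, hV, hxU, hyV, hUV⟩ := t2_separation hxy
    have hop := (isOpenQuotientMap_mk h).isOpenMap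
    refine ⟨mk h '' (U ×ˢ Set.Ioo (s - 1 / 4) (s + 1 / 4)),
      mk h '' (V ×ˢ Set.Ioo (s - 1 / 4) (s + 1 / 4)), hop _ (hU.prod isOpen_Ioo),
      hop _ (hV.prod isOpen_Ioo), ⟨(x, s), ⟨hxU, ?_⟩, rfl⟩, ⟨(y, s), ⟨hyV, ?_⟩, rfl⟩, ?_⟩
    · simp only [Set.mem_Ioo]; constructor <;> linarith
    · simp only [Set.mem_Ioo]; constructor <;> linarith
    · rw [Set.disjoint_left]
      rintro _ ⟨⟨x', s'⟩, ⟨hx', hs'⟩, rfl⟩ ⟨⟨y', t'⟩, ⟨hy', ht'⟩, he⟩
      simp only [Set.mem_Ioo] at hs' ht' hx' hy'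
      have h1 : |t' - s'| < 1 := by
        rw [abs_lt]; constructor <;> linarith [hs'.1, hs'.2, ht'.1, ht'.2]
      obtain ⟨h2, -⟩ := mk_inj h h1 he
      exact Set.disjoint_left.1 hUV hx' (h2 ▸ hy')
  · obtain ⟨U, V, hU, hV, haU, hbV, hUV⟩ := t2_separation ht
    exact ⟨tau h ⁻¹' U, tau h ⁻¹' V, hU.preimage (tau h).continuous,
      hV.preimage (tau h).continuous, haU, hbV, hUV.preimage _⟩

/-- The image of `X × [0, 1]`. -/
theorem mt_compact {X : Type*} [TopologicalSpace X] [CompactSpace X] (h : X ≃ₜ X) :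
    CompactSpace (MT h) := by
  have h1 : IsCompact (mk h '' (Set.univ ×ˢ Set.Icc (0 : ℝ) 1)) :=
    (isCompact_univ.prod isCompact_Icc).image (isOpenQuotientMap_mk h).continuous
  refine ⟨?_⟩
  convert h1
  symm
  rw [Set.eq_univ_iff_forall]
  intro a
  obtain ⟨⟨x, t⟩, hxt⟩ := Quotient.exists_rep a
  have hxt' : mk h (x, t) = a := hxt
  subst hxt'
  refine ⟨((h ^ (-⌊t⌋)) x, t + ((-⌊t⌋ : ℤ) : ℝ)), ⟨Set.mem_univ _, ?_⟩, mk_shift h _ x t⟩
  push_cast
  simp only [Set.mem_Icc]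
  constructor
  · linarith [Int.floor_le t]
  · linarith [Int.lt_floor_add_one t]

theorem mt_connected {X : Type*} [TopologicalSpace X] [ConnectedSpace X] (h : X ≃ₜ X) :
    ConnectedSpace (MT h) :=
  (isOpenQuotientMap_mk h).surjective.connectedSpace (isOpenQuotientMap_mk h).continuous

end Pool.Agent.H44.SQM
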