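import Pool.Agent.H44.SQM.Defs

/-!
# POL : geometric realisations are polyhedra

`Geometry.SimplicialComplex.ofAffineIndependent` (Mathlib,
`Mathlib/Analysis/Convex/SimplicialComplex/AffineIndependentUnion.lean`), applied to the images
under `v ↦ Pi.single v 1` (composed with an equivalence `ι ≃ Fin N`) of all nonempty subsets of the
members of `T`. The space of this complex is `geo T`.
-/

namespace Pool.Agent.H44.SQM

open Topology

/-- the point of `ℝ ^ N` given by the vertex `v` -/
noncomputable def POL_b {ι : Type*} [Fintype ι] (v : ι) : Fin (Fintype.card ι) → ℝ :=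
  Pi.single (Fintype.equivFin ι v) 1

theorem POL_b_apply {ι : Type*} [Fintype ι] [DecidableEq ι] (v u : ι) :
    POL_b v (Fintype.equivFin ι u) = if u = v then 1 else 0 := by
  unfold POL_b
  rw [Pi.single_apply]
  by_cases h : u = v
  · subst h
    simp
  · rw [if_neg h, if_neg]
    exact fun h' => h ((Fintype.equivFin ι).injective h')

theorem POL_b_inj {ι : Type*} [Fintype ι] [DecidableEq ι] :
    Function.Injective (POL_b : ι → Fin (Fintype.card ι) → ℝ) := by
  intro v w h
  by_contra hne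
  have h1 := congrFun h (Fintype.equivFin ι v)
  rw [POL_b_apply, POL_b_apply, if_pos rfl, if_neg hne] at h1
  exact one_ne_zero h1

theorem POL_mem_hull {ι : Type*} [Fintype ι] [DecidableEq ι] (r : Finset ι)
    (x : Fin (Fintype.card ι) → ℝ) :
    x ∈ convexHull ℝ ((r.image POL_b : Finset (Fin (Fintype.card ι) → ℝ)) :
      Set (Fin (Fintype.card ι) → ℝ)) ↔
      (∀ v, 0 ≤ x (Fintype.equivFin ι v)) ∧ ∑ v, x (Fintype.equivFin ι v) = 1 ∧
        ∀ v, v ∉ r → x (Fintype.equivFin ι v) = 0 := by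
  rw [Finset.mem_convexHull']
  constructor
  · rintro ⟨w, hw0, hw1, hwx⟩
    rw [Finset.sum_image POL_b_inj.injOn] at hw1 hwx
    have hx : ∀ u, x (Fintype.equivFin ι u) = if u ∈ r then w (POL_b u) else 0 := by
      intro u
      rw [← hwx, Finset.sum_apply]
      simp only [Pi.smul_apply, smul_eq_mul, POL_b_apply, mul_ite, mul_one, mul_zero,
        Finset.sum_ite_eq]
    refine ⟨fun v => ?_, ?_, fun v hv => ?_⟩
    · rw [hx]
      split_ifs with h
      · exact hw0 _ (Finset.mem_image_of_mem _ h)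
      · exact le_rfl
    · simp only [hx]
      rw [Finset.sum_ite_mem, Finset.univ_inter]
      exact hw1
    · rw [hx, if_neg hv]
  · rintro ⟨h0, h1, h2⟩
    have key : ∀ v : ι, ∑ u, x (Fintype.equivFin ι u) * POL_b v (Fintype.equivFin ι u) =
        x (Fintype.equivFin ι v) := by
      intro v
      simp only [POL_b_apply, mul_ite, mul_one, mul_zero, Finset.sum_ite_eq', Finset.mem_univ,
        if_true]
    refine ⟨fun y => ∑ u, x (Fintype.equivFin ι u) * y (Fintype.equivFin ι u), ?_, ?_, ?_⟩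
    · intro y hy
      obtain ⟨v, -, rfl⟩ := Finset.mem_image.1 hy
      simp only [key]
      exact h0 v
    · rw [Finset.sum_image POL_b_inj.injOn]
      simp only [key]
      rw [← h1]
      exact Finset.sum_subset (Finset.subset_univ r) fun v _ hv => h2 v hv
    · rw [Finset.sum_image POL_b_inj.injOn]
      simp only [key]
      funext j
      obtain ⟨u, rfl⟩ := (Fintype.equivFin ι).surjective j
      rw [Finset.sum_apply]
      simp only [Pi.smul_apply, smul_eq_mul, POL_b_apply, mul_ite, mul_one, mul_zero,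
        Finset.sum_ite_eq]
      split_ifs with h
      · rfl
      · exact (h2 u h).symm

/-- the abstract complex -/
noncomputable def POL_abs {ι : Type*} [Fintype ι] [DecidableEq ι] (T : Set (Finset ι)) :
    PreAbstractSimplicialComplex (Fin (Fintype.card ι) → ℝ) where
  faces := {s | ∃ r : Finset ι, r.Nonempty ∧ (∃ t ∈ T, r ⊆ t) ∧ s = r.image POL_b}
  isRelLowerSet_faces := by
    rintro s ⟨r, hr, ⟨t, ht, hrt⟩, rfl⟩
    refine ⟨hr.image _, fun b hb hbn => ?_⟩
    obtain ⟨r', hr', rfl⟩ := Finset.subset_image_iff.1 hb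
    refine ⟨r', ?_, ⟨t, ht, ?_⟩, rfl⟩
    · exact Finset.image_nonempty.1 hbn
    · exact fun v hv => hrt (hr' hv)

theorem POL_indep {ι : Type*} [Fintype ι] [DecidableEq ι] (T : Set (Finset ι)) :
    AffineIndependent ℝ (Subtype.val : (⋃ s ∈ (POL_abs T).faces,
      (s : Set (Fin (Fintype.card ι) → ℝ))) → (Fin (Fintype.card ι) → ℝ)) := by
  have h1 : LinearIndependent ℝ (POL_b : ι → Fin (Fintype.card ι) → ℝ) := by
    have h2 := (Pi.basisFun ℝ (Fin (Fintype.card ι))).linearIndependent
    have h3 := h2.comp (Fintype.equivFin ι) (Fintype.equivFin ι).injective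
    convert h3 using 1
    funext v
    simp [POL_b]
  refine h1.affineIndependent.range.mono fun x hx => ?_
  simp only [Set.mem_iUnion] at hx
  obtain ⟨_, ⟨r, _, _, rfl⟩, hx⟩ := hx
  obtain ⟨v, -, rfl⟩ := Finset.mem_image.1 (Finset.mem_coe.1 hx)
  exact ⟨v, rfl⟩

/-- the homeomorphism -/
noncomputable def POL_homeo {ι : Type*} [Fintype ι] :
    (ι → ℝ) ≃ₜ (Fin (Fintype.card ι) → ℝ) where
  toFun p := fun j => p ((Fintype.equivFin ι).symm j)
  invFun q := fun v => q (Fintype.equivFin ι v)
  left_inv p := by ext v; simp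
  right_inv q := by ext j; simp
  continuous_toFun := by fun_prop
  continuous_invFun := by fun_prop

theorem geo_poly {ι : Type*} [Fintype ι] [DecidableEq ι] (T : Set (Finset ι))
    (h4 : ∀ t ∈ T, t.card = 4) (hT : T.Nonempty) : IsPolyhedron3 (geo T) := by
  classical
  refine ⟨Fintype.card ι, Geometry.SimplicialComplex.ofAffineIndependent (POL_abs T)
    (POL_indep T), ?_, ?_, ?_, ?_⟩
  · refine (Set.finite_range fun r : Finset ι => r.image
      (POL_b : ι → Fin (Fintype.card ι) → ℝ)).subset ?_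
    rintro _ ⟨r, -, -, rfl⟩
    exact ⟨r, rfl⟩
  · rintro _ ⟨r, -, ⟨t, ht, hrt⟩, rfl⟩
    exact Finset.card_image_le.trans ((Finset.card_le_card hrt).trans (h4 t ht).le)
  · obtain ⟨t, ht⟩ := hT
    refine ⟨t.image POL_b, ⟨t, ?_, ⟨t, ht, subset_rfl⟩, rfl⟩, ?_⟩
    · rw [← Finset.card_pos, h4 t ht]
      norm_num
    · rw [Finset.card_image_of_injective _ POL_b_inj, h4 t ht]
  · refine ⟨POL_homeo.subtype fun p => ?_⟩
    show p ∈ geo T ↔ POL_homeo p ∈ Geometry.SimplicialComplex.space _
    rw [Geometry.SimplicialComplex.mem_space_iff]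
    have hp : ∀ v, POL_homeo p (Fintype.equivFin ι v) = p v := by
      intro v
      show p ((Fintype.equivFin ι).symm (Fintype.equivFin ι v)) = p v
      rw [Equiv.symm_apply_apply]
    constructor
    · rintro ⟨h0, h1, t, ht, h2⟩
      refine ⟨t.image POL_b, ⟨t, ?_, ⟨t, ht, subset_rfl⟩, rfl⟩, ?_⟩
      · rw [← Finset.card_pos, h4 t ht]
        norm_num
      · rw [POL_mem_hull]
        simp only [hp]
        exact ⟨h0, h1, h2⟩
    · rintro ⟨_, ⟨r, -, ⟨t, ht, hrt⟩, rfl⟩, hx⟩
      rw [POL_mem_hull] at hx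
      simp only [hp] at hx
      exact ⟨hx.1, hx.2.1, t, ht, fun v hv => hx.2.2 v fun h => hv (hrt h)⟩

theorem poly_congr {X Y : Type*} [TopologicalSpace X] [TopologicalSpace Y] (e : X ≃ₜ Y)
    (hY : IsPolyhedron3 Y) : IsPolyhedron3 X := by
  obtain ⟨N, K, h1, h2, h3, ⟨f⟩⟩ := hY
  exact ⟨N, K, h1, h2, h3, ⟨e.trans f⟩⟩

end Pool.Agent.H44.SQM
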