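import Pool.Agent.H44.SQM.STC

/-!
# SRC : `Surf` is compact and connected

* compact: `geo T` is the finite union over `t ∈ T` of the compact sets
  `{p | 0 ≤ p, ∑ p = 1, p = 0 outside t}`.
* connected: the stars `St k` are preconnected, cover, and contain `vtx va` (`vtx_mem_St_iff`).
-/

namespace Pool.Agent.H44.SQM

open Topology

private theorem SRC_cell {ι : Type*} [Fintype ι] (t : Finset ι) :
    IsCompact {p : ι → ℝ | (∀ v, 0 ≤ p v) ∧ ∑ v, p v = 1 ∧ ∀ v, v ∉ t → p v = 0} := by
  have hcl : IsClosed {p : ι → ℝ | (∀ v, 0 ≤ p v) ∧ ∑ v, p v = 1 ∧ ∀ v, v ∉ t → p v = 0} := by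
    have h1 : IsClosed {p : ι → ℝ | ∀ v, 0 ≤ p v} := by
      simp only [Set.setOf_forall]
      exact isClosed_iInter fun v => isClosed_le continuous_const (continuous_apply v)
    have h2 : IsClosed {p : ι → ℝ | ∑ v, p v = 1} :=
      isClosed_eq (continuous_finsetSum _ fun v _ => continuous_apply v) continuous_const
    have h3 : IsClosed {p : ι → ℝ | ∀ v, v ∉ t → p v = 0} := by
      simp only [Set.setOf_forall]
      exact isClosed_iInter fun v => isClosed_iInter fun _ =>
        isClosed_eq (continuous_apply v) continuous_const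
    exact h1.inter (h2.inter h3)
  refine IsCompact.of_isClosed_subset (isCompact_Icc (a := (0 : ι → ℝ)) (b := 1)) hcl ?_
  rintro p ⟨h0, h1, -⟩
  refine ⟨fun v => h0 v, fun v => ?_⟩
  show p v ≤ 1
  rw [← h1]
  exact Finset.single_le_sum (fun w _ => h0 w) (Finset.mem_univ v)

theorem isCompact_geo {ι : Type*} [Fintype ι] [DecidableEq ι] (T : Set (Finset ι)) :
    IsCompact (geo T) := by
  have hT : T.Finite := Set.toFinite T
  have h : geo T = ⋃ t ∈ T,
      {p : ι → ℝ | (∀ v, 0 ≤ p v) ∧ ∑ v, p v = 1 ∧ ∀ v, v ∉ t → p v = 0} := by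
    ext p
    simp only [geo, Set.mem_setOf_eq, Set.mem_iUnion, exists_prop]
    constructor
    · rintro ⟨h0, h1, t, ht, h2⟩
      exact ⟨t, ht, h0, h1, h2⟩
    · rintro ⟨t, ht, h0, h1, h2⟩
      exact ⟨h0, h1, t, ht, h2⟩
  rw [h]
  exact hT.isCompact_biUnion fun t _ => SRC_cell t

private theorem SRC_va : ∀ k : ZMod 5, ∃ l i, vy k ∈ tri l i ∧ va ∈ tri l i := by decide

theorem surf_connected : ConnectedSpace Surf := by
  have hva : ∀ k, vtx va ∈ St k := fun k => (vtx_mem_St_iff va k).2 (SRC_va k)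
  have hpre : IsPreconnected (Set.univ : Set Surf) := by
    have : (Set.univ : Set Surf) = ⋃ k, St k := by
      ext p
      simp only [Set.mem_univ, Set.mem_iUnion, true_iff]
      exact cover_St p
    rw [this]
    exact isPreconnected_iUnion (s := fun k => St k)
      ⟨vtx va, Set.mem_iInter.2 hva⟩ fun k => isPreconnected_St k
  haveI : PreconnectedSpace Surf := ⟨hpre⟩
  exact { toNonempty := ⟨vtx va⟩ }

end Pool.Agent.H44.SQM
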