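import Pool.Agent.H44.SQM.PRC
import Pool.Agent.H44.SQM.MTC
import Pool.Agent.H44.SQM.SRC
import Pool.Agent.H44.SQM.POL

/-!
# PRI : the mapping torus of a simplicial symmetry of a triangulated surface is a polyhedron

`quo`: two continuous surjections from a compact space to Hausdorff spaces with the same fibres
have homeomorphic targets (both are quotient maps). Apply it to
`K = geo T × [0, 3] → MT (permHomeo T s hs hs')`, `(x, l) ↦ mk (x, l / 3)`, and
`K → geo (prisms T s)`, `(x, l) ↦ gam s x l`. The fibres agree by `gam_glue`, `gam_inj` and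
`mk_eq_iff` (`0 ≤ l / 3, l' / 3 ≤ 1`, so the integer is `0`, `1` or `-1`). Each `prism s t m i`
(`t.card = 3`, `m ∈ t`) has four elements; use `geo_poly`.
-/

namespace Pool.Agent.H44.SQM

open Topology

theorem quo {K A B : Type*} [TopologicalSpace K] [TopologicalSpace A] [TopologicalSpace B]
    [CompactSpace K] [T2Space A] [T2Space B] (α : K → A) (β : K → B) (hα : Continuous α)
    (hβ : Continuous β) (sα : Function.Surjective α) (sβ : Function.Surjective β)
    (h : ∀ p q, α p = α q ↔ β p = β q) : Nonempty (A ≃ₜ B) := by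
  have qα : IsQuotientMap α := hα.isClosedMap.isQuotientMap hα sα
  have qβ : IsQuotientMap β := hβ.isClosedMap.isQuotientMap hβ sβ
  choose f hf using sα
  choose g hg using sβ
  have e1 : ∀ p, β (f (α p)) = β p := fun p => (h _ _).1 (hf (α p))
  have e2 : ∀ p, α (g (β p)) = α p := fun p => (h _ _).2 (hg (β p))
  refine ⟨{ toFun := fun a => β (f a), invFun := fun b => α (g b), left_inv := ?_,
            right_inv := ?_, continuous_toFun := ?_, continuous_invFun := ?_ }⟩
  · intro a
    show α (g (β (f a))) = a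
    rw [e2, hf]
  · intro b
    show β (f (α (g b))) = b
    rw [e1, hg]
  · rw [qα.continuous_iff]
    exact hβ.congr fun p => (e1 p).symm
  · rw [qβ.continuous_iff]
    exact hα.congr fun p => (e2 p).symm

theorem PRI_nxt_inj {n : ℕ} (s : Equiv.Perm (Fin n)) (i : Fin 3) :
    Function.Injective (fun v => nxt s v i) := by
  intro v w hvw
  fin_cases i <;> simpa [nxt] using hvw

theorem PRI_nxt_ne {n : ℕ} (s : Equiv.Perm (Fin n)) (v w : Fin n) (i : Fin 3) :
    (v, i) ≠ nxt s w i := by
  fin_cases i <;> simp [nxt]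

theorem prism_card {n : ℕ} (s : Equiv.Perm (Fin n)) {t : Finset (Fin n)} (ht : t.card = 3)
    {m : Fin n} (hm : m ∈ t) (i : Fin 3) : (prism s t m i).card = 4 := by
  unfold prism
  have hd : Disjoint ((t.filter (· ≤ m)).image (fun v => (v, i)))
      ((t.filter (m ≤ ·)).image (fun v => nxt s v i)) := by
    rw [Finset.disjoint_left]
    intro p hp hq
    obtain ⟨v, -, rfl⟩ := Finset.mem_image.1 hp
    obtain ⟨w, -, hw⟩ := Finset.mem_image.1 hq
    exact PRI_nxt_ne s v w i hw.symm
  rw [Finset.card_union_of_disjoint hd,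
    Finset.card_image_of_injective _ (fun v w hvw => (Prod.mk.inj hvw).1),
    Finset.card_image_of_injective _ (PRI_nxt_inj s i)]
  have h1 := Finset.card_union_add_card_inter (t.filter (· ≤ m)) (t.filter (m ≤ ·))
  have h2 : t.filter (· ≤ m) ∪ t.filter (m ≤ ·) = t := by
    ext v
    simp only [Finset.mem_union, Finset.mem_filter]
    constructor
    · rintro (h | h) <;> exact h.1
    · intro h
      rcases le_total v m with h' | h'
      · exact Or.inl ⟨h, h'⟩
      · exact Or.inr ⟨h, h'⟩
  have h3 : t.filter (· ≤ m) ∩ t.filter (m ≤ ·) = {m} := by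
    ext v
    simp only [Finset.mem_inter, Finset.mem_filter, Finset.mem_singleton]
    constructor
    · rintro ⟨⟨-, h⟩, -, h'⟩
      exact le_antisymm h h'
    · rintro rfl
      exact ⟨⟨hm, le_rfl⟩, hm, le_rfl⟩
  rw [h2, h3, ht, Finset.card_singleton] at h1
  omega

theorem mt_poly {n : ℕ} (T : Set (Finset (Fin n))) (h3 : ∀ t ∈ T, t.card = 3)
    (hT : T.Nonempty) (s : Equiv.Perm (Fin n)) (hs : ∀ t ∈ T, t.map s.toEmbedding ∈ T)
    (hs' : ∀ t ∈ T, t.map s.symm.toEmbedding ∈ T) :
    IsPolyhedron3 (MT (permHomeo T s hs hs')) := by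
  set h := permHomeo T s hs hs' with hh
  have hval : ∀ (x : geo T) v, (h x).1 v = x.1 (s.symm v) := fun x v => rfl
  have : CompactSpace (geo T) := isCompact_iff_compactSpace.1 (isCompact_geo T)
  have : T2Space (MT h) := mt_t2 h
  let K := (geo T) × (Set.Icc (0 : ℝ) 3)
  let α : K → MT h := fun p => mk h (p.1, p.2.1 / 3)
  let β : K → geo (prisms T s) := fun p =>
    ⟨gam s p.1.1 p.2.1, gam_mem T s p.1.2 p.2.2.1 p.2.2.2⟩
  have hα : Continuous α := by
    have h1 : Continuous (mk h) := continuous_quotient_mk'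
    have h2 : Continuous (fun p : K => ((p.1, p.2.1 / 3) : geo T × ℝ)) :=
      continuous_fst.prodMk ((continuous_subtype_val.comp continuous_snd).div_const 3)
    exact h1.comp h2
  have hβ : Continuous β := by
    refine Continuous.subtype_mk ?_ _
    have h2 : Continuous (fun p : K => ((p.1.1, p.2.1) : (Fin n → ℝ) × ℝ)) :=
      (continuous_subtype_val.comp continuous_fst).prodMk
        (continuous_subtype_val.comp continuous_snd)
    exact (continuous_gam s).comp h2
  have sα : Function.Surjective α := by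
    intro a
    obtain ⟨⟨y, u⟩, rfl⟩ := Quotient.exists_rep a
    refine ⟨⟨(h ^ (-⌊u⌋)) y, ⟨3 * Int.fract u, ?_, ?_⟩⟩, ?_⟩
    · have := Int.fract_nonneg u
      linarith
    · have := Int.fract_lt_one u
      linarith
    · show mk h ((h ^ (-⌊u⌋)) y, 3 * Int.fract u / 3) = mk h (y, u)
      have h1 := mk_shift h (-⌊u⌋) y u
      rw [← h1]
      congr 2
      have h2 := Int.floor_add_fract u
      push_cast
      linarith
  have sβ : Function.Surjective β := by
    rintro ⟨y, hy⟩
    obtain ⟨x, hx, l, h0, h3, he⟩ := gam_surj T s hy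
    exact ⟨⟨⟨x, hx⟩, ⟨l, h0, h3⟩⟩, Subtype.ext he⟩
  have key : ∀ p q, α p = α q ↔ β p = β q := by
    rintro ⟨x, ⟨l, hl0, hl3⟩⟩ ⟨x', ⟨l', hl0', hl3'⟩⟩
    show mk h (x, l / 3) = mk h (x', l' / 3) ↔ _
    rw [mk_eq_iff]
    constructor
    · rintro ⟨k, hk⟩
      obtain ⟨e1, e2⟩ := Prod.mk.inj hk
      simp only at e1 e2
      have k1 : (k : ℝ) < 2 := by linarith
      have k2 : (-2 : ℝ) < k := by linarith
      have k1' : k < 2 := by exact_mod_cast k1
      have k2' : -2 < k := by exact_mod_cast k2
      apply Subtype.ext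
      show gam s x.1 l = gam s x'.1 l'
      obtain rfl | rfl | rfl : k = -1 ∨ k = 0 ∨ k = 1 := by omega
      · push_cast at e2
        have e3 : l = 3 := by linarith
        have e4 : l' = 0 := by linarith
        have e5 : x = h x' := by
          rw [e1, zpow_neg, zpow_one]
          exact (Homeomorph.apply_symm_apply h x).symm
        have e6 : x.1 = fun v => x'.1 (s.symm v) := by
          funext v
          rw [e5]
          exact hval x' v
        rw [e3, e4, e6]
        exact gam_glue s x'.2.1 x'.2.2.1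
      · simp only [Int.cast_zero, add_zero] at e2
        have e3 : l' = l := by linarith
        have e4 : x' = x := by rw [e1, zpow_zero]; rfl
        rw [e3, e4]
      · push_cast at e2
        have e3 : l = 0 := by linarith
        have e4 : l' = 3 := by linarith
        have e6 : x'.1 = fun v => x.1 (s.symm v) := by
          funext v
          rw [e1, zpow_one]
          exact hval x v
        rw [e3, e4, e6]
        exact (gam_glue s x.2.1 x.2.2.1).symm
    · intro he
      have he' : gam s x.1 l = gam s x'.1 l' := congrArg Subtype.val he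
      rcases gam_inj s x.2.1 x.2.2.1 x'.2.1 x'.2.2.1 hl0 hl3 hl0' hl3' he' with
        ⟨e1, e2⟩ | ⟨e1, e2, e3⟩ | ⟨e1, e2, e3⟩
      · refine ⟨0, ?_⟩
        have e3 : x' = x := Subtype.ext e2.symm
        simp [e1, e3]
      · refine ⟨1, ?_⟩
        have e4 : x' = h x := Subtype.ext (funext fun v => (e3 v).trans (hval x v).symm)
        rw [e1, e2, e4, zpow_one]
        norm_num
      · refine ⟨-1, ?_⟩
        have e4 : x = h x' := Subtype.ext (funext fun v => (e3 v).trans (hval x' v).symm)
        have e5 : x' = (h ^ (-1 : ℤ)) x := by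
          rw [e4, zpow_neg, zpow_one]
          exact (Homeomorph.symm_apply_apply h x').symm
        rw [e1, e2, ← e5]
        norm_num
  obtain ⟨e⟩ := quo α β hα hβ sα sβ key
  refine poly_congr e (geo_poly _ ?_ ?_)
  · rintro r ⟨t, ht, m, hm, i, rfl⟩
    exact prism_card s (h3 t ht) hm i
  · obtain ⟨t, ht⟩ := hT
    have ht3 := h3 t ht
    obtain ⟨m, hm⟩ : t.Nonempty := by
      rw [← Finset.card_pos, ht3]
      norm_num
    exact ⟨_, t, ht, m, hm, 0, rfl⟩

end Pool.Agent.H44.SQM
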