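import Pool.Agent.H44.SQM.FNB
import Pool.Agent.H44.SQM.SRC

/-!
# SRF : `Surf` is a closed surface

The open stars `{p | 0 < p v}` cover, and they are discs by `fan`. The links are the cycles
* `a` : `y_{2j}`, `j : ZMod 5`;
* `x_j` : `y_{j-2}, y_j, c, y_{j-1}, b` (length 5);
* `c` : `x_0, y_0, x_1, y_1, …, x_4, y_4` (length 10);
* `b` : `x_1, y_0, x_2, y_1, x_3, y_2, x_4, y_3, x_0, y_4` (length 10);
* `y_k` : `a, y_{k+2}, x_{k+2}, b, x_{k+1}, c, x_k, y_{k-2}` (length 8);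
all hypotheses of `fan` can be checked by `decide`.
-/

namespace Pool.Agent.H44.SQM

open Topology

/-- the link of the vertex `v` is the cycle `c` -/
def SRF_Link (v : Fin 13) (L : ℕ) [NeZero L] (c : ZMod L → Fin 13) : Prop :=
  (∀ j, c j ≠ v) ∧ (∀ j j', c j = c j' → j = j') ∧
    (∀ j, ∃ k i, ({v, c j, c (j + 1)} : Finset (Fin 13)) = tri k i) ∧
    ∀ k i, v ∈ tri k i → ∃ j, tri k i = {v, c j, c (j + 1)}

def SRF_c0 : ZMod 5 → Fin 13 := ![8, 10, 12, 9, 11]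

theorem SRF_l0 : SRF_Link 0 5 SRF_c0 := by
  refine ⟨?_, ?_, ?_, ?_⟩ <;> decide +kernel

def SRF_c1 : ZMod 10 → Fin 13 := ![4, 8, 5, 9, 6, 10, 7, 11, 3, 12]

theorem SRF_l1 : SRF_Link 1 10 SRF_c1 := by
  refine ⟨?_, ?_, ?_, ?_⟩ <;> decide +kernel

def SRF_c2 : ZMod 10 → Fin 13 := ![3, 8, 4, 9, 5, 10, 6, 11, 7, 12]

theorem SRF_l2 : SRF_Link 2 10 SRF_c2 := by
  refine ⟨?_, ?_, ?_, ?_⟩ <;> decide +kernel

def SRF_c3 : ZMod 5 → Fin 13 := ![11, 8, 2, 12, 1]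

theorem SRF_l3 : SRF_Link 3 5 SRF_c3 := by
  refine ⟨?_, ?_, ?_, ?_⟩ <;> decide +kernel

def SRF_c4 : ZMod 5 → Fin 13 := ![12, 9, 2, 8, 1]

theorem SRF_l4 : SRF_Link 4 5 SRF_c4 := by
  refine ⟨?_, ?_, ?_, ?_⟩ <;> decide +kernel

def SRF_c5 : ZMod 5 → Fin 13 := ![8, 10, 2, 9, 1]

theorem SRF_l5 : SRF_Link 5 5 SRF_c5 := by
  refine ⟨?_, ?_, ?_, ?_⟩ <;> decide +kernel

def SRF_c6 : ZMod 5 → Fin 13 := ![9, 11, 2, 10, 1]

theorem SRF_l6 : SRF_Link 6 5 SRF_c6 := by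
  refine ⟨?_, ?_, ?_, ?_⟩ <;> decide +kernel

def SRF_c7 : ZMod 5 → Fin 13 := ![10, 12, 2, 11, 1]

theorem SRF_l7 : SRF_Link 7 5 SRF_c7 := by
  refine ⟨?_, ?_, ?_, ?_⟩ <;> decide +kernel

def SRF_c8 : ZMod 8 → Fin 13 := ![0, 10, 5, 1, 4, 2, 3, 11]

theorem SRF_l8 : SRF_Link 8 8 SRF_c8 := by
  refine ⟨?_, ?_, ?_, ?_⟩ <;> decide +kernel

def SRF_c9 : ZMod 8 → Fin 13 := ![0, 11, 6, 1, 5, 2, 4, 12]

theorem SRF_l9 : SRF_Link 9 8 SRF_c9 := by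
  refine ⟨?_, ?_, ?_, ?_⟩ <;> decide +kernel

def SRF_c10 : ZMod 8 → Fin 13 := ![0, 12, 7, 1, 6, 2, 5, 8]

theorem SRF_l10 : SRF_Link 10 8 SRF_c10 := by
  refine ⟨?_, ?_, ?_, ?_⟩ <;> decide +kernel

def SRF_c11 : ZMod 8 → Fin 13 := ![0, 8, 3, 1, 7, 2, 6, 9]

theorem SRF_l11 : SRF_Link 11 8 SRF_c11 := by
  refine ⟨?_, ?_, ?_, ?_⟩ <;> decide +kernel

def SRF_c12 : ZMod 8 → Fin 13 := ![0, 9, 4, 1, 3, 2, 7, 10]

theorem SRF_l12 : SRF_Link 12 8 SRF_c12 := by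
  refine ⟨?_, ?_, ?_, ?_⟩ <;> decide +kernel

theorem SRF_star {v : Fin 13} {L : ℕ} [NeZero L] (hL : 4 ≤ L) {c : ZMod L → Fin 13}
    (h : SRF_Link v L c) : ∃ W : Set (Fin 2 → ℝ), IsOpen W ∧
      Nonempty (({p : Surf | 0 < p.1 v} : Set Surf) ≃ₜ W) := by
  obtain ⟨h1, h2, h3, h4⟩ := h
  refine fan tris v L hL c (fun j j' => h2 j j') h1 (fun j => ?_) ?_
  · obtain ⟨k, i, hki⟩ := h3 j
    exact ⟨k, i, hki⟩
  · rintro t ⟨k, i, rfl⟩ hv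
    exact h4 k i hv

theorem SRF_stars (v : Fin 13) : ∃ W : Set (Fin 2 → ℝ), IsOpen W ∧
      Nonempty (({p : Surf | 0 < p.1 v} : Set Surf) ≃ₜ W) := by
  fin_cases v
  · exact SRF_star (by norm_num) SRF_l0
  · exact SRF_star (by norm_num) SRF_l1
  · exact SRF_star (by norm_num) SRF_l2
  · exact SRF_star (by norm_num) SRF_l3
  · exact SRF_star (by norm_num) SRF_l4
  · exact SRF_star (by norm_num) SRF_l5
  · exact SRF_star (by norm_num) SRF_l6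
  · exact SRF_star (by norm_num) SRF_l7
  · exact SRF_star (by norm_num) SRF_l8
  · exact SRF_star (by norm_num) SRF_l9
  · exact SRF_star (by norm_num) SRF_l10
  · exact SRF_star (by norm_num) SRF_l11
  · exact SRF_star (by norm_num) SRF_l12

theorem surf_manifold : IsClosedManifold 2 Surf := by
  refine ⟨isCompact_iff_compactSpace.mp (isCompact_geo tris), inferInstance, fun x => ?_⟩
  have hx : ∃ v, 0 < x.1 v := by
    by_contra hcon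
    push Not at hcon
    have h1 : ∑ v, x.1 v ≤ 0 := Finset.sum_nonpos fun v _ => hcon v
    rw [x.2.2.1] at h1
    linarith
  obtain ⟨v, hv⟩ := hx
  refine ⟨{p : Surf | 0 < p.1 v}, ?_, hv, SRF_stars v⟩
  exact isOpen_lt continuous_const ((continuous_apply v).comp continuous_subtype_val)

end Pool.Agent.H44.SQM
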