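import Pool.Agent.H44.SQM.SQR
import Pool.Agent.H44.SQM.MAN
import Pool.Agent.H44.SQM.MTC
import Pool.Agent.H44.SQM.SRF
import Pool.Agent.H44.SQM.PRI
import Pool.Agent.H44.SQM.EQV
import Pool.Agent.H44.SQM.FXP
import Pool.Agent.H44.SQM.EXB
import Pool.Agent.H44.SQM.LIC

/-!
# FIN : the theorem
-/

namespace Pool.Agent.H44.SQM

open Topology

theorem phi_val (p : Surf) (v : Fin 13) : (phi p).1 v = p.1 (sig.symm v) := rfl

theorem phi_pow_val (n : ℕ) (p : Surf) (v : Fin 13) :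
    ((phi ^ n) p).1 v = p.1 ((sig ^ n).symm v) := by
  induction n generalizing p v with
  | zero => rfl
  | succ n ih =>
    rw [pow_succ, Homeomorph.mul_apply, ih, phi_val, pow_succ]
    rfl

theorem phi_pow : phi ^ 5 = 1 := by
  ext p v
  rw [phi_pow_val, sig_pow]
  rfl

theorem phi2_eq : phi ^ 2 = permHomeo tris (sig * sig)
    (by rintro _ ⟨k, i, rfl⟩; exact ⟨k + 1 + 1, i, by revert k i; decide⟩)
    (by rintro _ ⟨k, i, rfl⟩; exact ⟨k - 1 - 1, i, by revert k i; decide⟩) := by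
  ext p v
  rw [phi_pow_val, pow_two]
  rfl

theorem tris_card : ∀ t ∈ tris, t.card = 3 := by
  rintro _ ⟨k, i, rfl⟩
  revert k i
  decide

theorem main :
    (∀ (X : Type) [TopologicalSpace X] (h : X ≃ₜ X) (n k : ℤ), h ^ n = 1 →
      (n ∣ k ^ 2 - 1 ∨ n ∣ k ^ 2 + 1) →
      Nonempty (MT h × MT h ≃ₜ MT (h ^ k) × MT (h ^ k))) ∧
    ∃ (F : Type) (_ : TopologicalSpace F) (h : F ≃ₜ F),
      IsClosedManifold 2 F ∧ ConnectedSpace F ∧ h ^ 5 = 1 ∧
      IsClosedManifold 3 (MT h) ∧ ConnectedSpace (MT h) ∧ IsPolyhedron3 (MT h) ∧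
      IsClosedManifold 3 (MT (h ^ 2)) ∧ ConnectedSpace (MT (h ^ 2)) ∧ IsPolyhedron3 (MT (h ^ 2)) ∧
      (∃ f : C(MT h, S1), ¬ f.Nullhomotopic) ∧ (∃ f : C(MT (h ^ 2), S1), ¬ f.Nullhomotopic) ∧
      Nonempty (MT h × MT h ≃ₜ MT (h ^ 2) × MT (h ^ 2)) ∧
      ¬ Nonempty (ContinuousMap.HomotopyEquiv (MT h) (MT (h ^ 2))) := by
  have : ConnectedSpace Surf := surf_connected
  have hn : (tris : Set (Finset (Fin 13))).Nonempty := ⟨tri 0 0, 0, 0, rfl⟩
  have nn : ∀ (g : Surf ≃ₜ Surf), ∃ f : C(MT g, S1), ¬ f.Nullhomotopic := by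
    intro g
    refine ⟨tau g, ?_⟩
    rw [← null_iff_nullhomotopic]
    rintro ⟨u, hu⟩
    have := tau_zsmul g 1 u (fun a => by rw [one_zsmul]; exact hu a)
    omega
  refine ⟨fun X _ h n k hn hk => square_homeo h n k hn hk, Surf, inferInstance, phi,
    surf_manifold, surf_connected, phi_pow, mt_manifold phi surf_manifold, mt_connected phi,
    mt_poly tris tris_card hn sig _ _, mt_manifold _ surf_manifold, mt_connected _, ?_, nn _, nn _,
    ?_, not_equiv phi (phi ^ 2) fix_phi fix_phi2 no_phi exB⟩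
  · rw [phi2_eq]
    exact mt_poly tris tris_card hn _ _ _
  · have := square_homeo phi 5 2 (by rw [← phi_pow]; norm_cast) (Or.inr (by norm_num))
    exact this

end Pool.Agent.H44.SQM
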