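import Mathlib

/-!
# FNA : the fan of the vectors of a regular `L`-gon

Let `L ≥ 4`, `δ = 2 π / L`, `ω j = (cos (j δ), sin (j δ))` (`j : ZMod L`, via `j.val`). For
`z = r (cos θ, sin θ)` put `α j z = det (z, ω (j + 1)) / sin δ = r sin ((j + 1) δ - θ) / sin δ`,
`β j z = det (ω (j - 1), z) / sin δ = r sin (θ - (j - 1) δ) / sin δ` (both are linear in `z`) and
`lam j z = max 0 (min (α j z) (β j z))`.

If `θ = j δ + φ` with `0 ≤ φ ≤ δ`, then `z = a ω j + b ω (j + 1)` with
`a = α j z = r sin (δ - φ) / sin δ` and `b = β (j + 1) z = r sin φ / sin δ`. Since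
`sin (δ + φ) - sin (δ - φ) = 2 cos δ sin φ ≥ 0` (here `L ≥ 4` is used) we get `lam j z = a`, and
by symmetry `lam (j + 1) z = b`. For `i ≠ j, j + 1` we have `lam i z = 0`: if
`ψ = θ - i δ ∈ (-π, π]` then `sin (δ - ψ) > 0` and `sin (δ + ψ) > 0` only if `|ψ| < δ`.

Any other choice of vectors and of functions with these properties is fine as well.

Implementation: we do not use the regular polygon. The fan with `3` vectors `e₁, e₂, -e₁ - e₂` is
explicit, and a fan with `L` vectors is refined to one with `L + 1` vectors by the new vector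
`ω L = ω (L - 1) + ω 0`, with `lam' L = min (lam (L - 1)) (lam 0)`.
-/

namespace Pool.Agent.H44.SQM

open Topology

/-- the cyclic successor of `j < L` -/
def FNA_nx (L j : ℕ) : ℕ := if j + 1 = L then 0 else j + 1

/-- a fan with `L` vectors, indexed by `0, …, L - 1` -/
def FNA_Fan (L : ℕ) (om : ℕ → (Fin 2 → ℝ)) (lam : ℕ → (Fin 2 → ℝ) → ℝ) : Prop :=
  (∀ j, Continuous (lam j)) ∧ (∀ j z, 0 ≤ lam j z) ∧
  (∀ z, ∑ j ∈ Finset.range L, lam j z • om j = z) ∧
  (∀ z, ∃ j, j < L ∧ ∀ i, i < L → i ≠ j → i ≠ FNA_nx L j → lam i z = 0) ∧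
  (∀ j, j < L → ∀ a b : ℝ, 0 ≤ a → 0 ≤ b →
    lam j (a • om j + b • om (FNA_nx L j)) = a ∧
    lam (FNA_nx L j) (a • om j + b • om (FNA_nx L j)) = b ∧
    ∀ i, i < L → i ≠ j → i ≠ FNA_nx L j → lam i (a • om j + b • om (FNA_nx L j)) = 0)

theorem FNA_base : ∃ om lam, FNA_Fan 3 om lam := by
  refine ⟨fun j => if j = 0 then ![1, 0] else if j = 1 then ![0, 1] else ![-1, -1],
    fun j z => if j = 0 then z 0 - min (min (z 0) (z 1)) 0 else
      if j = 1 then z 1 - min (min (z 0) (z 1)) 0 else - min (min (z 0) (z 1)) 0, ?_, ?_, ?_, ?_, ?_⟩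
  · intro j
    by_cases h0 : j = 0
    · subst h0; simp only [if_true]; fun_prop
    · by_cases h1 : j = 1
      · subst h1; simp only [if_true, one_ne_zero, if_false]; fun_prop
      · simp only [h0, h1, if_false]; fun_prop
  · intro j z
    have h1 : min (min (z 0) (z 1)) 0 ≤ z 0 := le_trans (min_le_left _ _) (min_le_left _ _)
    have h2 : min (min (z 0) (z 1)) 0 ≤ z 1 := le_trans (min_le_left _ _) (min_le_right _ _)
    have h3 : min (min (z 0) (z 1)) 0 ≤ 0 := min_le_right _ _
    by_cases h0 : j = 0
    · simp only [h0, if_true]; linarith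
    · by_cases h1 : j = 1
      · simp only [h1, one_ne_zero, if_true, if_false]; linarith
      · simp only [h0, h1, if_false]; linarith
  · intro z
    funext k
    fin_cases k <;> simp [Finset.sum_range_succ]
  · intro z
    rcases le_total (z 0) (z 1) with h | h
    · rcases le_total (z 0) 0 with h' | h'
      · refine ⟨1, by norm_num, ?_⟩
        intro i hi h1 h2
        have : i = 0 := by
          simp only [FNA_nx] at h2; norm_num at h2; omega
        subst this
        simp [min_eq_left h, min_eq_left h']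
      · refine ⟨0, by norm_num, ?_⟩
        intro i hi h1 h2
        have : i = 2 := by
          simp only [FNA_nx] at h2; norm_num at h2; omega
        subst this
        simp [min_eq_left h, h']
    · rcases le_total (z 1) 0 with h' | h'
      · refine ⟨2, by norm_num, ?_⟩
        intro i hi h1 h2
        have : i = 1 := by
          simp only [FNA_nx] at h2; norm_num at h2; omega
        subst this
        simp [min_eq_right h, min_eq_left h']
      · refine ⟨0, by norm_num, ?_⟩
        intro i hi h1 h2
        have : i = 2 := by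
          simp only [FNA_nx] at h2; norm_num at h2; omega
        subst this
        simp [min_eq_right h, h']
  · intro j hj a b ha hb
    have hj' : j = 0 ∨ j = 1 ∨ j = 2 := by omega
    rcases hj' with rfl | rfl | rfl
    · have hn : FNA_nx 3 0 = 1 := by simp [FNA_nx]
      rw [hn]
      have hm : min (min a b) 0 = 0 := min_eq_right (le_min ha hb)
      refine ⟨by simp [hm], by simp [hm], ?_⟩
      intro i hi h1 h2
      have : i = 2 := by omega
      subst this
      simp [ha, hb]
    · have hn : FNA_nx 3 1 = 2 := by simp [FNA_nx]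
      rw [hn]
      have hm : min (min (-b) (a - b)) 0 = -b := by
        rw [min_eq_left (by linarith : -b ≤ a - b), min_eq_left (by linarith)]
      have hm' : min (min (-b) (a + -b)) 0 = -b := by
        rw [← sub_eq_add_neg]; exact hm
      refine ⟨by simp [hm'], by simp [hm'], ?_⟩
      intro i hi h1 h2
      have : i = 0 := by omega
      subst this
      simp [hm']
    · have hn : FNA_nx 3 2 = 0 := by simp [FNA_nx]
      rw [hn]
      have hm : min (min (-a + b) (-a)) 0 = -a := by
        rw [min_eq_right (by linarith : -a ≤ -a + b), min_eq_left (by linarith)]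
      refine ⟨by simp [hm], by simp [hm], ?_⟩
      intro i hi h1 h2
      have : i = 1 := by omega
      subst this
      simp [hm]

theorem FNA_step (L : ℕ) (hL : 3 ≤ L) (om : ℕ → (Fin 2 → ℝ)) (lam : ℕ → (Fin 2 → ℝ) → ℝ)
    (h : FNA_Fan L om lam) : ∃ om' lam', FNA_Fan (L + 1) om' lam' := by
  obtain ⟨hc, h0, hs, hsupp, hcone⟩ := h
  obtain ⟨M, rfl⟩ : ∃ M, L = M + 1 := ⟨L - 1, by omega⟩
  have hM : 2 ≤ M := by omega
  set mn : (Fin 2 → ℝ) → ℝ := fun z => min (lam M z) (lam 0 z) with hmn
  have hmn0 : ∀ z, 0 ≤ mn z := fun z => le_min (h0 _ _) (h0 _ _)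
  -- if the support is contained in `{j, j + 1}` with `j < M`, then `mn = 0`
  have hz : ∀ z j, j < M → (∀ i, i < M + 1 → i ≠ j → i ≠ j + 1 → lam i z = 0) → mn z = 0 := by
    intro z j hj hh
    apply le_antisymm _ (hmn0 z)
    by_cases hj0 : j = 0
    · have : lam M z = 0 := hh M (by omega) (by omega) (by omega)
      exact le_trans (min_le_left _ _) this.le
    · have : lam 0 z = 0 := hh 0 (by omega) (by omega) (by omega)
      exact le_trans (min_le_right _ _) this.le
  have nx1 : ∀ j, j < M → FNA_nx (M + 1) j = j + 1 := by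
    intro j hj; unfold FNA_nx; rw [if_neg (by omega)]
  have nx2 : FNA_nx (M + 1) M = 0 := by unfold FNA_nx; rw [if_pos rfl]
  have nx3 : ∀ j, j < M + 1 → FNA_nx (M + 1 + 1) j = j + 1 := by
    intro j hj; unfold FNA_nx; rw [if_neg (by omega)]
  have nx4 : FNA_nx (M + 1 + 1) (M + 1) = 0 := by unfold FNA_nx; rw [if_pos rfl]
  set om' : ℕ → (Fin 2 → ℝ) := fun j => if j = M + 1 then om M + om 0 else om j with hom'
  set lam' : ℕ → (Fin 2 → ℝ) → ℝ := fun j z =>
    if j = M + 1 then mn z else if j = M ∨ j = 0 then lam j z - mn z else lam j z with hlam'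
  have lL : ∀ z, lam' (M + 1) z = mn z := fun z => by simp [hlam']
  have lM : ∀ z, lam' M z = lam M z - mn z := fun z => by simp [hlam']
  have l0 : ∀ z, lam' 0 z = lam 0 z - mn z := fun z => by
    simp [hlam']
  have lo : ∀ i z, i ≠ M + 1 → i ≠ M → i ≠ 0 → lam' i z = lam i z := fun i z h1 h2 h3 => by
    simp [hlam', h1, h2, h3]
  have lz : ∀ i z, mn z = 0 → i ≠ M + 1 → lam' i z = lam i z := fun i z h1 h2 => by
    simp [hlam', h1, h2]
  have oL : om' (M + 1) = om M + om 0 := by simp [hom']
  have oo : ∀ i, i ≠ M + 1 → om' i = om i := fun i hi => by simp [hom', hi]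
  refine ⟨om', lam', ?_, ?_, ?_, ?_, ?_⟩
  · intro j
    have hcm : Continuous mn := (hc M).min (hc 0)
    by_cases h1 : j = M + 1
    · subst h1; exact (funext lL : lam' (M + 1) = mn) ▸ hcm
    · by_cases h2 : j = M ∨ j = 0
      · have : lam' j = fun z => lam j z - mn z := by
          funext z; simp [hlam', h1, h2]
        rw [this]; exact (hc j).sub hcm
      · have : lam' j = lam j := by
          funext z; simp only [hlam', h1, h2, if_false]
        rw [this]; exact hc j
  · intro j z
    by_cases h1 : j = M + 1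
    · subst h1; rw [lL]; exact hmn0 z
    · by_cases h2 : j = M
      · subst h2; rw [lM]; exact sub_nonneg.2 (min_le_left _ _)
      · by_cases h3 : j = 0
        · subst h3; rw [l0]; exact sub_nonneg.2 (min_le_right _ _)
        · rw [lo j z h1 h2 h3]; exact h0 j z
  · intro z
    rw [Finset.sum_range_succ, lL, oL]
    have e1 : ∑ j ∈ Finset.range (M + 1), lam' j z • om' j
        = ∑ j ∈ Finset.range (M + 1), (lam j z • om j
          - ((if j = M then mn z else 0) + (if j = 0 then mn z else 0)) • om j) := by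
      refine Finset.sum_congr rfl fun j hj => ?_
      have hj' : j < M + 1 := Finset.mem_range.1 hj
      rw [oo j (by omega), ← sub_smul]
      congr 1
      by_cases h2 : j = M
      · subst h2; rw [lM, if_pos rfl, if_neg (by omega)]; ring
      · by_cases h3 : j = 0
        · subst h3; rw [l0, if_neg (by omega), if_pos rfl]; ring
        · rw [lo j z (by omega) h2 h3, if_neg h2, if_neg h3]; ring
    rw [e1, Finset.sum_sub_distrib, hs z]
    have e2 : ∑ j ∈ Finset.range (M + 1),
        ((if j = M then mn z else 0) + (if j = 0 then mn z else 0)) • om j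
        = mn z • om M + mn z • om 0 := by
      simp only [add_smul, Finset.sum_add_distrib, ite_smul, zero_smul]
      rw [Finset.sum_ite_eq' , Finset.sum_ite_eq', if_pos (Finset.mem_range.2 (by omega)),
        if_pos (Finset.mem_range.2 (by omega))]
    rw [e2, smul_add]
    abel
  · intro z
    obtain ⟨j, hj, hh⟩ := hsupp z
    by_cases hjM : j = M
    · subst hjM
      rw [nx2] at hh
      rcases le_total (lam j z) (lam 0 z) with hle | hle
      · refine ⟨j + 1, by omega, ?_⟩
        rw [nx4]
        intro i hi h1 h2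
        by_cases h3 : i = j
        · subst h3; rw [lM]
          have : mn z = lam i z := min_eq_left hle
          rw [this, sub_self]
        · rw [lo i z h1 h3 h2]; exact hh i (by omega) h3 h2
      · refine ⟨j, by omega, ?_⟩
        rw [nx3 j (by omega)]
        intro i hi h1 h2
        by_cases h3 : i = 0
        · subst h3; rw [l0]
          have : mn z = lam 0 z := min_eq_right hle
          rw [this, sub_self]
        · rw [lo i z h2 h1 h3]; exact hh i (by omega) h1 h3
    · have hj2 : j < M := by omega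
      rw [nx1 j hj2] at hh
      have hm0 := hz z j hj2 hh
      refine ⟨j, by omega, ?_⟩
      rw [nx3 j (by omega)]
      intro i hi h1 h2
      by_cases h3 : i = M + 1
      · subst h3; rw [lL]; exact hm0
      · rw [lz i z hm0 h3]; exact hh i (by omega) h1 h2
  · intro j hj a b ha hb
    by_cases hjL : j = M + 1
    · subst hjL
      rw [nx4, oL, oo 0 (by omega)]
      have hp : a • (om M + om 0) + b • om 0 = a • om M + (a + b) • om 0 := by
        rw [smul_add, add_smul]; abel
      rw [hp]
      have hcc := hcone M (by omega) a (a + b) ha (by linarith)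
      rw [nx2] at hcc
      obtain ⟨c1, c2, c3⟩ := hcc
      have hm : mn (a • om M + (a + b) • om 0) = a := by
        simp only [hmn]; rw [c1, c2]; exact min_eq_left (by linarith)
      refine ⟨by rw [lL, hm], by rw [l0, hm, c2]; ring, ?_⟩
      intro i hi h1 h2
      by_cases h3 : i = M
      · subst h3; rw [lM, hm, c1, sub_self]
      · rw [lo i _ h1 h3 h2]; exact c3 i (by omega) h3 h2
    · by_cases hjM : j = M
      · subst hjM
        rw [nx3 j (by omega), oL, oo j (by omega)]
        have hp : a • om j + b • (om j + om 0) = (a + b) • om j + b • om 0 := by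
          rw [smul_add, add_smul]; abel
        rw [hp]
        have hcc := hcone j (by omega) (a + b) b (by linarith) hb
        rw [nx2] at hcc
        obtain ⟨c1, c2, c3⟩ := hcc
        have hm : mn ((a + b) • om j + b • om 0) = b := by
          simp only [hmn]; rw [c1, c2]; exact min_eq_right (by linarith)
        refine ⟨by rw [lM, hm, c1]; ring, by rw [lL, hm], ?_⟩
        intro i hi h1 h2
        by_cases h3 : i = 0
        · subst h3; rw [l0, hm, c2, sub_self]
        · rw [lo i _ h2 h1 h3]; exact c3 i (by omega) h1 h3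
      · have hj2 : j < M := by omega
        rw [nx3 j (by omega), oo j (by omega), oo (j + 1) (by omega)]
        have hcc := hcone j (by omega) a b ha hb
        rw [nx1 j hj2] at hcc
        obtain ⟨c1, c2, c3⟩ := hcc
        have hm := hz _ j hj2 c3
        refine ⟨by rw [lz _ _ hm (by omega)]; exact c1, by rw [lz _ _ hm (by omega)]; exact c2, ?_⟩
        intro i hi h1 h2
        by_cases h3 : i = M + 1
        · subst h3; rw [lL]; exact hm
        · rw [lz i _ hm h3]; exact c3 i (by omega) h1 h2

theorem FNA_all (L : ℕ) (hL : 3 ≤ L) : ∃ om lam, FNA_Fan L om lam := by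
  induction L, hL using Nat.le_induction with
  | base => exact FNA_base
  | succ n hn ih =>
    obtain ⟨om, lam, h⟩ := ih
    exact FNA_step n hn om lam h

theorem FNA_val (L : ℕ) [NeZero L] (j : ZMod L) : (j + 1).val = FNA_nx L j.val := by
  have hj := ZMod.val_lt j
  unfold FNA_nx
  split_ifs with h
  · have h1 : ((j + 1 : ZMod L)) = 0 := by
      have h2 : ((j.val + 1 : ℕ) : ZMod L) = 0 := by rw [h]; exact ZMod.natCast_self L
      rw [Nat.cast_add, ZMod.natCast_zmod_val, Nat.cast_one] at h2
      exact h2
    rw [h1, ZMod.val_zero]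
  · have h2 : (j + 1 : ZMod L) = ((j.val + 1 : ℕ) : ZMod L) := by
      rw [Nat.cast_add, ZMod.natCast_zmod_val, Nat.cast_one]
    rw [h2, ZMod.val_natCast, Nat.mod_eq_of_lt (by omega)]

theorem exists_hat (L : ℕ) [NeZero L] (hL : 4 ≤ L) :
    ∃ (om : ZMod L → (Fin 2 → ℝ)) (lam : ZMod L → (Fin 2 → ℝ) → ℝ),
      (∀ j, Continuous (lam j)) ∧ (∀ j z, 0 ≤ lam j z) ∧
      (∀ z, ∑ j, lam j z • om j = z) ∧
      (∀ z, ∃ j, ∀ i, i ≠ j → i ≠ j + 1 → lam i z = 0) ∧
      (∀ (j : ZMod L) (a b : ℝ), 0 ≤ a → 0 ≤ b →
        lam j (a • om j + b • om (j + 1)) = a ∧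
        lam (j + 1) (a • om j + b • om (j + 1)) = b ∧
        ∀ i, i ≠ j → i ≠ j + 1 → lam i (a • om j + b • om (j + 1)) = 0) := by
  obtain ⟨om, lam, hc, h0, hs, hsupp, hcone⟩ := FNA_all L (by omega)
  have hinj : ∀ i k : ZMod L, i ≠ k → i.val ≠ k.val := fun i k h h' =>
    h (ZMod.val_injective L h')
  refine ⟨fun j => om j.val, fun j => lam j.val, fun j => hc _, fun j z => h0 _ z, ?_, ?_, ?_⟩
  · intro z
    rw [← Finset.sum_nbij' (s := Finset.range L) (t := (Finset.univ : Finset (ZMod L)))
      (f := fun j => lam j z • om j)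
      (fun j => (j : ZMod L)) (fun j => j.val) (fun _ _ => Finset.mem_univ _)
      (fun j _ => Finset.mem_range.2 (ZMod.val_lt j))
      (fun j hj => by
        simp only [ZMod.val_natCast]; exact Nat.mod_eq_of_lt (Finset.mem_range.1 hj))
      (fun j _ => ZMod.natCast_zmod_val j)
      (fun j hj => by
        simp only [ZMod.val_natCast, Nat.mod_eq_of_lt (Finset.mem_range.1 hj)])]
    exact hs z
  · intro z
    obtain ⟨j, hj, hh⟩ := hsupp z
    refine ⟨(j : ZMod L), fun i h1 h2 => ?_⟩
    have hv : ((j : ℕ) : ZMod L).val = j := by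
      rw [ZMod.val_natCast]; exact Nat.mod_eq_of_lt hj
    refine hh i.val (ZMod.val_lt i) ?_ ?_
    · have := hinj _ _ h1; rwa [hv] at this
    · have := hinj _ _ h2; rwa [FNA_val, hv] at this
  · intro j a b ha hb
    have hcc := hcone j.val (ZMod.val_lt j) a b ha hb
    simp only [FNA_val]
    refine ⟨hcc.1, hcc.2.1, fun i h1 h2 => hcc.2.2 i.val (ZMod.val_lt i) (hinj _ _ h1) ?_⟩
    have := hinj _ _ h2
    rwa [FNA_val] at this

end Pool.Agent.H44.SQM
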