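import Pool.Agent.H44.SQM.Defs
import Pool.Agent.H44.SQM.FNA

/-!
# FNB : the open star of a vertex whose link is a cycle is an open disc

With the vectors `om j` and the functions `lam j` of `exists_hat`: the map
`p ↦ ∑ j, p (c j) • om j` from `{p | 0 < p v}` to `W = {z | ∑ j, lam j z < 1}` is a homeomorphism
with inverse `z ↦ (c j ↦ lam j z, v ↦ 1 - ∑ j, lam j z, other vertices ↦ 0)`.
(A point `p` with `0 < p v` is supported on a triangle `{v, c j, c (j + 1)}`.)
-/

namespace Pool.Agent.H44.SQM

open Topology

/-- a sum over `ZMod L` with at most two nonzero terms -/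
theorem FNB_sum_two {L : ℕ} [NeZero L] {M : Type*} [AddCommMonoid M] (j : ZMod L)
    (hj : j ≠ j + 1) (F : ZMod L → M) (h : ∀ i, i ≠ j → i ≠ j + 1 → F i = 0) :
    ∑ i, F i = F j + F (j + 1) := by
  rw [← Finset.sum_subset (Finset.subset_univ ({j, j + 1} : Finset (ZMod L)))
    (fun i _ hi => by
      simp only [Finset.mem_insert, Finset.mem_singleton, not_or] at hi
      exact h i hi.1 hi.2)]
  rw [Finset.sum_pair hj]

theorem fan {ι : Type*} [Fintype ι] [DecidableEq ι] (T : Set (Finset ι)) (v : ι) (L : ℕ)
    [NeZero L] (hL : 4 ≤ L) (c : ZMod L → ι) (hc : Function.Injective c) (hv : ∀ j, c j ≠ v)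
    (h1 : ∀ j, ({v, c j, c (j + 1)} : Finset ι) ∈ T)
    (h2 : ∀ t ∈ T, v ∈ t → ∃ j, t = {v, c j, c (j + 1)}) :
    ∃ W : Set (Fin 2 → ℝ), IsOpen W ∧
      Nonempty (({p : geo T | 0 < p.1 v} : Set (geo T)) ≃ₜ W) := by
  obtain ⟨om, lam, hcont, h0, hsum, hsupp, hcone⟩ := exists_hat L hL
  have hne : ∀ j : ZMod L, j ≠ j + 1 := by
    intro j h
    have h' : (1 : ZMod L) = 0 := by
      have := h.symm
      rwa [add_eq_left] at this
    have : Fact (1 < L) := ⟨by omega⟩
    exact one_ne_zero h'
  -- the key facts on a point of the open star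
  have key : ∀ p : ι → ℝ, p ∈ geo T → 0 < p v →
      (∀ i, lam i (∑ j, p (c j) • om j) = p (c i)) ∧ (∑ i, p (c i) = 1 - p v) ∧
      (∀ w, w ≠ v → (∀ i, c i ≠ w) → p w = 0) := by
    rintro p ⟨hp0, hp1, t, ht, hpt⟩ hpv
    have hvt : v ∈ t := by
      by_contra hvt
      exact hpv.ne' (hpt v hvt)
    obtain ⟨j, rfl⟩ := h2 t ht hvt
    have hz : ∀ i, i ≠ j → i ≠ j + 1 → p (c i) = 0 := by
      intro i hi hi'
      apply hpt
      simp only [Finset.mem_insert, Finset.mem_singleton, not_or]
      exact ⟨hv i, fun h => hi (hc h), fun h => hi' (hc h)⟩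
    have e1 : ∑ i, p (c i) • om i = p (c j) • om j + p (c (j + 1)) • om (j + 1) :=
      FNB_sum_two j (hne j) _ (fun i hi hi' => by rw [hz i hi hi', zero_smul])
    have e2 : ∑ i, p (c i) = p (c j) + p (c (j + 1)) := FNB_sum_two j (hne j) _ hz
    obtain ⟨k1, k2, k3⟩ := hcone j (p (c j)) (p (c (j + 1))) (hp0 _) (hp0 _)
    refine ⟨fun i => ?_, ?_, ?_⟩
    · rw [e1]
      by_cases hi : i = j
      · rw [hi, k1]
      by_cases hi' : i = j + 1
      · rw [hi', k2]
      rw [k3 i hi hi', hz i hi hi']
    · rw [e2]
      have e3 : ∑ w ∈ ({v, c j, c (j + 1)} : Finset ι), p w = 1 := by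
        rw [← hp1]
        exact Finset.sum_subset (Finset.subset_univ _) (fun w _ hw => hpt w hw)
      rw [Finset.sum_insert (by
        simp only [Finset.mem_insert, Finset.mem_singleton, not_or]
        exact ⟨(hv _).symm, (hv _).symm⟩),
        Finset.sum_pair (fun h => hne j (hc h))] at e3
      linarith
    · intro w hw hw'
      apply hpt
      simp only [Finset.mem_insert, Finset.mem_singleton, not_or]
      exact ⟨hw, fun h => hw' _ h.symm, fun h => hw' _ h.symm⟩
  -- the inverse
  set q : (Fin 2 → ℝ) → ι → ℝ := fun z w =>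
    (if w = v then 1 - ∑ j, lam j z else 0) + ∑ j, (if c j = w then lam j z else 0) with hq
  have qv : ∀ z, q z v = 1 - ∑ j, lam j z := by
    intro z
    simp only [hq, if_true]
    rw [Finset.sum_eq_zero (fun j _ => if_neg (hv j)), add_zero]
  have qc : ∀ z i, q z (c i) = lam i z := by
    intro z i
    simp only [hq]
    rw [if_neg (hv i), zero_add, Finset.sum_eq_single i
      (fun j _ hj => if_neg (fun h => hj (hc h))) (fun h => absurd (Finset.mem_univ i) h),
      if_pos rfl]
  have qo : ∀ z w, w ≠ v → (∀ i, c i ≠ w) → q z w = 0 := by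
    intro z w hw hw'
    simp only [hq]
    rw [if_neg hw, zero_add]
    exact Finset.sum_eq_zero (fun j _ => if_neg (hw' j))
  have qgeo : ∀ z, ∑ j, lam j z < 1 → q z ∈ geo T := by
    intro z hz
    refine ⟨fun w => ?_, ?_, ?_⟩
    · refine add_nonneg ?_ (Finset.sum_nonneg fun j _ => ?_)
      · split_ifs
        · linarith
        · exact le_rfl
      · split_ifs
        · exact h0 j z
        · exact le_rfl
    · simp only [hq]
      rw [Finset.sum_add_distrib, Finset.sum_ite_eq' Finset.univ v, if_pos (Finset.mem_univ _),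
        Finset.sum_comm]
      have : ∀ j : ZMod L, ∑ w, (if c j = w then lam j z else 0) = lam j z := by
        intro j
        rw [Finset.sum_ite_eq Finset.univ (c j), if_pos (Finset.mem_univ _)]
      rw [Finset.sum_congr rfl (fun j _ => this j)]
      ring
    · obtain ⟨j, hj⟩ := hsupp z
      refine ⟨_, h1 j, fun w hw => ?_⟩
      simp only [Finset.mem_insert, Finset.mem_singleton, not_or] at hw
      simp only [hq]
      rw [if_neg hw.1, zero_add]
      refine Finset.sum_eq_zero fun i _ => ?_
      split_ifs with h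
      · refine hj i ?_ ?_
        · rintro rfl; exact hw.2.1 h.symm
        · rintro rfl; exact hw.2.2 h.symm
      · rfl
  have qcont : Continuous q := by
    refine continuous_pi fun w => ?_
    simp only [hq]
    refine Continuous.add ?_ (continuous_finsetSum _ fun j _ => ?_)
    · split_ifs
      · exact continuous_const.sub (continuous_finsetSum _ fun j _ => hcont j)
      · exact continuous_const
    · split_ifs
      · exact hcont j
      · exact continuous_const
  refine ⟨{z | ∑ j, lam j z < 1},
    isOpen_lt (continuous_finsetSum _ fun j _ => hcont j) continuous_const, ⟨?_⟩⟩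
  exact
    { toFun := fun p => ⟨∑ j, p.1.1 (c j) • om j, by
        obtain ⟨k1, k2, -⟩ := key p.1.1 p.1.2 p.2
        show ∑ i, lam i (∑ j, p.1.1 (c j) • om j) < 1
        rw [Finset.sum_congr rfl (fun i _ => k1 i), k2]
        have : 0 < p.1.1 v := p.2
        linarith⟩
      invFun := fun z => ⟨⟨q z.1, qgeo z.1 z.2⟩, by
        show 0 < q z.1 v
        rw [qv]
        have : ∑ j, lam j z.1 < 1 := z.2
        linarith⟩
      left_inv := by
        intro p
        obtain ⟨k1, k2, k3⟩ := key p.1.1 p.1.2 p.2
        apply Subtype.ext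
        apply Subtype.ext
        funext w
        show q (∑ j, p.1.1 (c j) • om j) w = p.1.1 w
        by_cases hw : w = v
        · rw [hw, qv, Finset.sum_congr rfl (fun i _ => k1 i), k2]
          ring
        by_cases hw' : ∃ i, c i = w
        · obtain ⟨i, rfl⟩ := hw'
          rw [qc, k1]
        · push Not at hw'
          rw [qo _ w hw hw', k3 w hw hw']
      right_inv := by
        intro z
        apply Subtype.ext
        show ∑ j, q z.1 (c j) • om j = z.1
        rw [Finset.sum_congr rfl (fun j _ => by rw [qc])]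
        exact hsum z.1
      continuous_toFun := by
        refine Continuous.subtype_mk ?_ _
        refine continuous_finsetSum _ fun j _ => ?_
        have hcj : Continuous fun p : ({p : geo T | 0 < p.1 v} : Set (geo T)) => p.1.1 (c j) :=
          (continuous_apply _).comp (continuous_subtype_val.comp continuous_subtype_val)
        exact hcj.smul continuous_const
      continuous_invFun := by
        refine Continuous.subtype_mk (Continuous.subtype_mk ?_ _) _
        exact qcont.comp continuous_subtype_val }

end Pool.Agent.H44.SQM
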