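import Pool.Agent.H44.SQM.LIF
import Pool.Agent.H44.SQM.LIC
import Pool.Agent.H44.SQM.STC

/-!
# LFT : the data `Dat f u q` exist, shift under `phi` and are unique
-/

namespace Pool.Agent.H44.SQM

open Topology

theorem LFT_a : ∀ k, ∃ l i, vy k ∈ tri l i ∧ va ∈ tri l i := by decide
theorem LFT_x0 : ∀ k, ∃ l i, vy k ∈ tri l i ∧ vx k ∈ tri l i := by decide
theorem LFT_x1 : ∀ k, ∃ l i, vy k ∈ tri l i ∧ vx (k + 1) ∈ tri l i := by decide

theorem LFT_va (k : ZMod 5) : vtx va ∈ St k := (vtx_mem_St_iff _ _).2 (LFT_a k)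

/-- `exists_lift_on` on the contractible sets `St k`; subtract integers to have equal values at
`vtx va` (`vtx va ∈ St k` for all `k`); `vtx (vx (k + 1))` lies in `St k` and in `St (k + 1)`. -/
theorem exists_dat (f : C(Surf, S1)) :
    ∃ (u : ZMod 5 → Surf → ℝ) (q : ZMod 5 → ℤ), Dat f u q := by
  have hex : ∀ k, ∃ v : Surf → ℝ, ContinuousOn v (St k) ∧ ∀ p ∈ St k, f p = (v p : S1) := by
    intro k
    have := contractible_St k
    exact exists_lift_on f.continuous.continuousOn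
  choose v hvc hvl using hex
  have hn : ∀ k, ∃ n : ℤ, v k (vtx va) = v 0 (vtx va) + n := by
    intro k
    rw [← coe_eq_coe_iff, ← hvl k _ (LFT_va k), ← hvl 0 _ (LFT_va 0)]
  choose n hn using hn
  have hl : ∀ k, ∀ p ∈ St k, f p = ((v k p - n k : ℝ) : S1) := by
    intro k p hp
    rw [AddCircle.coe_sub, coe_int, sub_zero]
    exact hvl k p hp
  have hq : ∀ k, ∃ m : ℤ, v k (vtx (vx (k + 1))) - n k =
      v (k + 1) (vtx (vx (k + 1))) - n (k + 1) + m := by
    intro k
    rw [← coe_eq_coe_iff, ← hl k _ ((vtx_mem_St_iff _ _).2 (LFT_x1 k)),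
      ← hl (k + 1) _ ((vtx_mem_St_iff _ _).2 (LFT_x0 (k + 1)))]
  choose q hq using hq
  refine ⟨fun k p => v k p - n k, q, ?_, hl, ?_, hq⟩
  · exact fun k => (hvc k).sub continuousOn_const
  · intro k l
    show v k _ - n k = v l _ - n l
    rw [hn k, hn l]
    ring

/-- Use `phi_mem_St`, `phi_vtx`, `sig_va`, `sig_vx`. -/
theorem Dat.shift {f : C(Surf, S1)} {u : ZMod 5 → Surf → ℝ} {q : ZMod 5 → ℤ} (h : Dat f u q) :
    Dat (pull f phi) (fun k p => u (k + 1) (phi p)) (fun k => q (k + 1)) := by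
  refine ⟨fun k => ?_, fun k p hp => ?_, fun k l => ?_, fun k => ?_⟩
  · exact (h.cont (k + 1)).comp phi.continuous.continuousOn fun p hp => phi_mem_St hp
  · exact h.lift (k + 1) _ (phi_mem_St hp)
  · show u (k + 1) (phi (vtx va)) = u (l + 1) (phi (vtx va))
    rw [phi_vtx, sig_va]
    exact h.base _ _
  · show u (k + 1) (phi (vtx (vx (k + 1)))) = u (k + 1 + 1) (phi (vtx (vx (k + 1)))) + q (k + 1)
    rw [phi_vtx, sig_vx]
    exact h.qx (k + 1)

/-- `u' k - u k - w` is integer valued on `St k`, so it is constant there (`int_const`), and its value at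
`vtx va` does not depend on `k`. -/
theorem Dat.unique {f g : C(Surf, S1)} {u u' : ZMod 5 → Surf → ℝ} {q q' : ZMod 5 → ℤ}
    (h : Dat f u q) (h' : Dat g u' q') (w : C(Surf, ℝ)) (hw : ∀ x, g x = f x + (w x : S1)) :
    q = q' := by
  have hc : ∀ k, ∀ p ∈ St k, u' k p - u k p - w p = u' k (vtx va) - u k (vtx va) - w (vtx va) := by
    intro k p hp
    refine int_const (isPreconnected_St k) (g := fun p => u' k p - u k p - w p)
      (((h'.cont k).sub (h.cont k)).sub w.continuous.continuousOn) ?_ hp (LFT_va k)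
    intro x hx
    rw [AddCircle.coe_sub, AddCircle.coe_sub, ← h'.lift k x hx, ← h.lift k x hx, hw x]
    abel
  funext k
  have e1 := hc k _ ((vtx_mem_St_iff _ _).2 (LFT_x1 k))
  have e2 := hc (k + 1) _ ((vtx_mem_St_iff _ _).2 (LFT_x0 (k + 1)))
  have e3 := h.base k (k + 1)
  have e4 := h'.base k (k + 1)
  have e5 := h.qx k
  have e6 := h'.qx k
  have e7 : (q k : ℝ) = q' k := by linarith
  exact_mod_cast e7

end Pool.Agent.H44.SQM
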