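import Pool.Agent.H44.SQM.Defs

/-!
# LIF : integers and the circle

Elementary facts on the map `ℝ → S1 = ℝ / ℤ`, and: a continuous function which is integer valued
on a preconnected set is constant there.
-/

namespace Pool.Agent.H44.SQM

open Topology

theorem coe_int (n : ℤ) : ((n : ℝ) : S1) = 0 := by
  have h : ((n • (1 : ℝ) : ℝ) : S1) = 0 := by
    rw [AddCircle.coe_zsmul, AddCircle.coe_period, smul_zero]
  simpa using h

theorem coe_eq_zero_iff {s : ℝ} : (s : S1) = 0 ↔ ∃ n : ℤ, s = n := by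
  constructor
  · intro h
    obtain ⟨n, hn⟩ := (AddCircle.coe_eq_zero_iff (1 : ℝ)).1 h
    exact ⟨n, by simpa using hn.symm⟩
  · rintro ⟨n, rfl⟩
    exact coe_int n

theorem coe_eq_coe_iff {s t : ℝ} : (s : S1) = (t : S1) ↔ ∃ n : ℤ, s = t + n := by
  rw [← sub_eq_zero, ← AddCircle.coe_sub, coe_eq_zero_iff]
  constructor
  · rintro ⟨n, hn⟩
    exact ⟨n, by linarith⟩
  · rintro ⟨n, hn⟩
    exact ⟨n, by linarith⟩

theorem coe_zmul (n : ℤ) (s : ℝ) : ((n * s : ℝ) : S1) = n • (s : S1) := by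
  rw [← AddCircle.coe_zsmul, zsmul_eq_mul]

theorem int_const {X : Type*} [TopologicalSpace X] {S : Set X} (hS : IsPreconnected S)
    {g : X → ℝ} (hg : ContinuousOn g S) (hz : ∀ x ∈ S, (g x : S1) = 0) {x y : X}
    (hx : x ∈ S) (hy : y ∈ S) : g x = g y := by
  by_contra hne
  have hord : ((g '' S)).OrdConnected := (hS.image g hg).ordConnected
  have hint : ∀ r ∈ g '' S, ∃ n : ℤ, r = n := by
    rintro r ⟨z, hz', rfl⟩
    exact coe_eq_zero_iff.1 (hz z hz')
  have key : ∀ a b : ℝ, a ∈ g '' S → b ∈ g '' S → a < b → False := by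
    intro a b ha hb hab
    obtain ⟨m, hm⟩ := hint a ha
    obtain ⟨n, hn⟩ := hint b hb
    have hmn : (m : ℝ) < n := by rw [← hm, ← hn]; exact hab
    have hmn' : m + 1 ≤ n := by exact_mod_cast hmn
    have hmn'' : (m : ℝ) + 1 ≤ n := by exact_mod_cast hmn'
    have hmem : (m : ℝ) + 1 / 2 ∈ g '' S :=
      hord.out ha hb ⟨by rw [hm]; linarith, by rw [hn]; linarith⟩
    obtain ⟨q, hq⟩ := hint _ hmem
    have h1 : (m : ℝ) < q := by linarith
    have h2 : (q : ℝ) < m + 1 := by linarith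
    have h1' : m < q := by exact_mod_cast h1
    have h2' : q < m + 1 := by exact_mod_cast h2
    omega
  rcases lt_or_gt_of_ne hne with h | h
  · exact key _ _ ⟨x, hx, rfl⟩ ⟨y, hy, rfl⟩ h
  · exact key _ _ ⟨y, hy, rfl⟩ ⟨x, hx, rfl⟩ h

theorem int_const' {X : Type*} [TopologicalSpace X] [PreconnectedSpace X]
    {g : X → ℝ} (hg : Continuous g) (hz : ∀ x, (g x : S1) = 0) : ∃ n : ℤ, ∀ x, g x = n := by
  by_cases hne : Nonempty X
  · obtain ⟨x0⟩ := hne
    obtain ⟨n, hn⟩ := coe_eq_zero_iff.1 (hz x0)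
    refine ⟨n, fun x => ?_⟩
    rw [← hn]
    exact int_const (S := Set.univ) isPreconnected_univ hg.continuousOn (fun x _ => hz x)
      (Set.mem_univ x) (Set.mem_univ x0)
  · exact ⟨0, fun x => (hne ⟨x⟩).elim⟩

end Pool.Agent.H44.SQM
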