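import Pool.Agent.H44.SQM.Defs

/-!
# LIH : lifting homotopies of circle valued maps

`IsCoveringMap.liftHomotopy` (Mathlib.Topology.Homotopy.Lifting) for the covering
`AddCircle.isCoveringMap_coe` (Mathlib.Topology.Covering.AddCircle).
-/

namespace Pool.Agent.H44.SQM

open Topology

/-- Homotopy lifting for the covering `ℝ → S1`. -/
theorem lift_homotopy {X : Type*} [TopologicalSpace X] (H : C(X × unitInterval, S1))
    (u₀ : C(X, ℝ)) (h0 : ∀ x, H (x, 0) = (u₀ x : S1)) :
    ∃ u : C(X × unitInterval, ℝ), (∀ p, H p = (u p : S1)) ∧ ∀ x, u (x, 0) = u₀ x := by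
  have cov : IsCoveringMap ((↑) : ℝ → AddCircle (1 : ℝ)) := AddCircle.isCoveringMap_coe 1
  let sw : C(unitInterval × X, X × unitInterval) := ⟨Prod.swap, continuous_swap⟩
  let sw' : C(X × unitInterval, unitInterval × X) := ⟨Prod.swap, continuous_swap⟩
  have h0' : ∀ a, (H.comp sw) (0, a) = ((u₀ a : ℝ) : S1) := fun a => h0 a
  let L := cov.liftHomotopy (H.comp sw) u₀ h0'
  have hl := cov.liftHomotopy_lifts (H.comp sw) u₀ h0'
  refine ⟨L.comp sw', fun p => ?_, fun x => cov.liftHomotopy_zero (H.comp sw) u₀ h0' x⟩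
  have := congr_fun hl (p.2, p.1)
  exact this.symm

/-- The two ends of a homotopy of circle valued maps differ by a real function
(apply `lift_homotopy` to `(x, r) ↦ H (x, r) - H (x, 0)` and `u₀ = 0`). -/
theorem homotopy_diff {X : Type*} [TopologicalSpace X] (H : C(X × unitInterval, S1)) :
    ∃ w : C(X, ℝ), ∀ x, H (x, 1) = H (x, 0) + (w x : S1) := by
  let G : C(X × unitInterval, S1) :=
    ⟨fun p => H p - H (p.1, 0), by fun_prop⟩
  obtain ⟨u, hu, -⟩ := lift_homotopy G ⟨fun _ => 0, continuous_const⟩ (fun x => by simp [G])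
  refine ⟨⟨fun x => u (x, 1), by fun_prop⟩, fun x => ?_⟩
  have h1 : H (x, 1) - H (x, 0) = (u (x, 1) : S1) := hu (x, 1)
  change H (x, 1) = H (x, 0) + (u (x, 1) : S1)
  rw [← h1]
  abel

/-- The same with a real parameter
(apply `homotopy_diff` to `(x, r) ↦ G (x, a + r (b - a))`). -/
theorem real_diff {X : Type*} [TopologicalSpace X] (G : X × ℝ → S1) (hG : Continuous G)
    (a b : ℝ) : ∃ w : C(X, ℝ), ∀ x, G (x, b) = G (x, a) + (w x : S1) := by
  obtain ⟨w, hw⟩ := homotopy_diff (X := X)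
    ⟨fun p => G (p.1, a + (p.2 : ℝ) * (b - a)), by fun_prop⟩
  refine ⟨w, fun x => ?_⟩
  have := hw x
  simpa using this

theorem homotopic_diff {X : Type*} [TopologicalSpace X] {f g : C(X, S1)} (h : f.Homotopic g) :
    ∃ w : C(X, ℝ), ∀ x, g x = f x + (w x : S1) := by
  obtain ⟨F⟩ := h
  obtain ⟨w, hw⟩ := homotopy_diff (X := X) ⟨fun p => F (p.2, p.1), by fun_prop⟩
  refine ⟨w, fun x => ?_⟩
  have := hw x
  simpa using this

theorem null_add {X : Type*} [TopologicalSpace X] {f g : C(X, S1)} (w : C(X, ℝ))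
    (h : ∀ x, g x = f x + (w x : S1)) (hf : Null f) : Null g := by
  obtain ⟨u, hu⟩ := hf
  refine ⟨u + w, fun x => ?_⟩
  rw [h x, hu x]
  simp

theorem null_of_homotopic {X : Type*} [TopologicalSpace X] {f g : C(X, S1)} (h : f.Homotopic g)
    (hf : Null f) : Null g := by
  obtain ⟨w, hw⟩ := homotopic_diff h
  exact null_add w hw hf

theorem null_comp {X Y : Type*} [TopologicalSpace X] [TopologicalSpace Y] {f : C(Y, S1)}
    (hf : Null f) (k : C(X, Y)) : Null (f.comp k) := by
  obtain ⟨u, hu⟩ := hf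
  exact ⟨u.comp k, fun x => hu (k x)⟩

end Pool.Agent.H44.SQM
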