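import Mathlib

/-!
# PRA : the subdivision of a prism

`x` is a point of a simplex (`x v ≥ 0`, `∑ x v = 1`), `τ` is a height. The mass `τ` is filled from
the large vertices: the vertex `v` has the mass `tp x τ v` on the top of the prism and the
mass `x v - tp x τ v` on the bottom.
-/

namespace Pool.Agent.H44.SQM

/-- the mass of the vertex `v` on the top -/
def tp {n : ℕ} (x : Fin n → ℝ) (τ : ℝ) (v : Fin n) : ℝ :=
  max 0 (min (x v) (τ - ∑ w ∈ Finset.univ.filter (v < ·), x w))

theorem tp_nonneg {n : ℕ} (x : Fin n → ℝ) (τ : ℝ) (v : Fin n) : 0 ≤ tp x τ v := le_max_left _ _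

theorem tp_le {n : ℕ} {x : Fin n → ℝ} (hx : ∀ v, 0 ≤ x v) (τ : ℝ) (v : Fin n) :
    tp x τ v ≤ x v := max_le (hx v) (min_le_left _ _)

theorem PRA_sum_nonneg {n : ℕ} {x : Fin n → ℝ} (hx : ∀ v, 0 ≤ x v) (v : Fin n) :
    0 ≤ ∑ w ∈ Finset.univ.filter (v < ·), x w := Finset.sum_nonneg fun w _ => hx w

theorem tp_of_nonpos {n : ℕ} {x : Fin n → ℝ} (hx : ∀ v, 0 ≤ x v) {τ : ℝ} (hτ : τ ≤ 0)
    (v : Fin n) : tp x τ v = 0 := by
  unfold tp
  apply max_eq_left
  have := PRA_sum_nonneg hx v
  exact (min_le_right _ _).trans (by linarith)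

theorem PRA_step {n : ℕ} {x : Fin n → ℝ} (hx : ∀ v, 0 ≤ x v) {v w : Fin n} (h : v < w) :
    x w + ∑ u ∈ Finset.univ.filter (w < ·), x u ≤ ∑ u ∈ Finset.univ.filter (v < ·), x u := by
  have hw : w ∉ Finset.univ.filter (w < ·) := by simp
  rw [← Finset.sum_insert hw]
  apply Finset.sum_le_sum_of_subset_of_nonneg
  · intro u hu
    rw [Finset.mem_insert, Finset.mem_filter] at hu
    rw [Finset.mem_filter]
    rcases hu with rfl | hu
    · exact ⟨Finset.mem_univ _, h⟩
    · exact ⟨Finset.mem_univ _, h.trans hu.2⟩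
  · intro u _ _
    exact hx u

theorem PRA_step_univ {n : ℕ} {x : Fin n → ℝ} (hx : ∀ v, 0 ≤ x v) (w : Fin n) :
    x w + ∑ u ∈ Finset.univ.filter (w < ·), x u ≤ ∑ u, x u := by
  have hw : w ∉ Finset.univ.filter (w < ·) := by simp
  rw [← Finset.sum_insert hw]
  apply Finset.sum_le_sum_of_subset_of_nonneg
  · intro u _
    exact Finset.mem_univ u
  · intro u _ _
    exact hx u

theorem PRA_full {n : ℕ} {x : Fin n → ℝ} (hx : ∀ v, 0 ≤ x v) {τ : ℝ} {w : Fin n}
    (h : x w + ∑ u ∈ Finset.univ.filter (w < ·), x u ≤ τ) : tp x τ w = x w := by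
  unfold tp
  rw [min_eq_left (by linarith), max_eq_right (hx w)]

theorem tp_of_one_le {n : ℕ} {x : Fin n → ℝ} (hx : ∀ v, 0 ≤ x v) (h1 : ∑ v, x v = 1) {τ : ℝ}
    (hτ : 1 ≤ τ) (v : Fin n) : tp x τ v = x v := by
  apply PRA_full hx
  have := PRA_step_univ hx v
  linarith

theorem PRA_minmax {y s τ : ℝ} (hy : 0 ≤ y) :
    max 0 (min y (τ - s)) = min τ (y + s) - min τ s := by
  rcases le_total τ s with h | h
  · rw [min_eq_left h, min_eq_left (show τ ≤ y + s by linarith), sub_self]
    exact max_eq_left ((min_le_right _ _).trans (by linarith))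
  · rw [min_eq_right h]
    rcases le_total y (τ - s) with h2 | h2
    · rw [min_eq_left h2, min_eq_right (by linarith), max_eq_right hy]
      ring
    · rw [min_eq_right h2, min_eq_left (by linarith), max_eq_right (by linarith)]

/-- The total mass on the top is `τ`. Induction on the vertices: for the final segment `{w ≥ v}`
the sum of `tp x τ w` is `min τ (∑_{w ≥ v} x w)`. -/
theorem tp_sum {n : ℕ} {x : Fin n → ℝ} (hx : ∀ v, 0 ≤ x v) (h1 : ∑ v, x v = 1) {τ : ℝ}
    (h0 : 0 ≤ τ) (hτ : τ ≤ 1) : ∑ v, tp x τ v = τ := by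
  set T : ℕ → ℝ := fun k => ∑ w ∈ Finset.univ.filter (fun w : Fin n => k ≤ w.val), x w with hT
  have key : ∀ v : Fin n, tp x τ v = min τ (T v.val) - min τ (T (v.val + 1)) := by
    intro v
    unfold tp
    rw [PRA_minmax (hx v)]
    have e1 : ∑ w ∈ Finset.univ.filter (v < ·), x w = T (v.val + 1) := by
      rw [hT]
      apply Finset.sum_congr _ (fun _ _ => rfl)
      ext w
      simp only [Finset.mem_filter, Finset.mem_univ, true_and]
      exact Fin.lt_def
    have e2 : x v + T (v.val + 1) = T v.val := by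
      rw [← e1]
      have hw : v ∉ Finset.univ.filter (v < ·) := by simp
      rw [← Finset.sum_insert hw, hT]
      apply Finset.sum_congr _ (fun _ _ => rfl)
      ext w
      simp only [Finset.mem_insert, Finset.mem_filter, Finset.mem_univ, true_and]
      constructor
      · rintro (rfl | h)
        · exact le_rfl
        · exact le_of_lt h
      · intro h
        rcases h.eq_or_lt with h | h
        · exact Or.inl (Fin.ext h.symm)
        · exact Or.inr h
    rw [e1, e2]
  rw [Finset.sum_congr rfl fun v _ => key v,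
    Fin.sum_univ_eq_sum_range (fun k => min τ (T k) - min τ (T (k + 1))) n,
    Finset.sum_range_sub']
  have t0 : T 0 = 1 := by
    rw [hT, ← h1]
    apply Finset.sum_congr _ (fun _ _ => rfl)
    ext w
    simp
  have tn : T n = 0 := by
    rw [hT]
    apply Finset.sum_eq_zero
    intro w hw
    rw [Finset.mem_filter] at hw
    exact absurd w.isLt (not_lt.2 hw.2)
  rw [t0, tn, min_eq_left hτ, min_eq_right h0, sub_zero]

/-- If `v` has some mass on the top then all of the mass of every `w > v` is on the top. -/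
theorem tp_full {n : ℕ} {x : Fin n → ℝ} (hx : ∀ v, 0 ≤ x v) {τ : ℝ} {v w : Fin n}
    (hv : 0 < tp x τ v) (hvw : v < w) : tp x τ w = x w := by
  apply PRA_full hx
  have h1 := PRA_step hx hvw
  unfold tp at hv
  rw [lt_max_iff] at hv
  rcases hv with hv | hv
  · exact absurd hv (lt_irrefl _)
  · have := (lt_min_iff.1 hv).2
    linarith

/-- Uniqueness of the decomposition `x = b + t`. Put `x = b + t`, `τ = ∑ t`. If `t v > 0`, then
`b w = 0` for `w > v` and `τ - ∑_{w > v} x w = ∑_{w ≤ v} t w ≥ t v`; if moreover `b v > 0` then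
`t w = 0` for all `w < v`, so this is `t v ≤ x v`, and if `b v = 0` then `x v = t v`. If `t v = 0` and
`b v > 0` then `t w = 0` for `w < v`, so `τ ≤ ∑_{w > v} x w`. If `t v = b v = 0` then `x v = 0`. -/
theorem tp_unique {n : ℕ} {b t : Fin n → ℝ} (hb : ∀ v, 0 ≤ b v) (ht : ∀ v, 0 ≤ t v)
    (hbt : ∀ v w, 0 < t v → v < w → b w = 0) (v : Fin n) :
    tp (fun w => b w + t w) (∑ w, t w) v = t v := by
  have hsplit : ∑ w, t w = ∑ w ∈ Finset.univ.filter (v < ·), t w +
      (t v + ∑ w ∈ Finset.univ.filter (· < v), t w) := by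
    have hw : v ∉ Finset.univ.filter (· < v) := by simp
    rw [← Finset.sum_insert hw, ← Finset.sum_union]
    · apply Finset.sum_congr _ (fun _ _ => rfl)
      ext w
      simp only [Finset.mem_univ, Finset.mem_union, Finset.mem_filter, Finset.mem_insert,
        true_and, true_iff]
      rcases lt_trichotomy v w with h | h | h
      · exact Or.inl h
      · exact Or.inr (Or.inl h.symm)
      · exact Or.inr (Or.inr h)
    · rw [Finset.disjoint_left]
      intro w h1 h2
      rw [Finset.mem_filter] at h1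
      rw [Finset.mem_insert, Finset.mem_filter] at h2
      rcases h2 with h2 | h2
      · exact absurd h1.2 (by rw [h2]; exact lt_irrefl _)
      · exact absurd (h1.2.trans h2.2) (lt_irrefl _)
  have hadd : ∑ w ∈ Finset.univ.filter (v < ·), (b w + t w) =
      ∑ w ∈ Finset.univ.filter (v < ·), b w + ∑ w ∈ Finset.univ.filter (v < ·), t w :=
    Finset.sum_add_distrib
  have hlow : 0 ≤ ∑ w ∈ Finset.univ.filter (· < v), t w := Finset.sum_nonneg fun w _ => ht w
  have hbup : 0 ≤ ∑ w ∈ Finset.univ.filter (v < ·), b w := Finset.sum_nonneg fun w _ => hb w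
  have hlow0 : 0 < b v → ∑ w ∈ Finset.univ.filter (· < v), t w = 0 := by
    intro hbv
    apply Finset.sum_eq_zero
    intro w hw
    rw [Finset.mem_filter] at hw
    by_contra hne
    exact hbv.ne' (hbt w v (lt_of_le_of_ne (ht w) (Ne.symm hne)) hw.2)
  unfold tp
  simp only
  rw [hsplit, hadd]
  rcases (ht v).eq_or_lt with h0 | h0
  · rw [← h0]
    apply max_eq_left
    rcases (hb v).eq_or_lt with h2 | h2
    · exact (min_le_left _ _).trans (by rw [← h2, add_zero])
    · refine (min_le_right _ _).trans ?_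
      rw [hlow0 h2]
      linarith
  · have hb0 : ∑ w ∈ Finset.univ.filter (v < ·), b w = 0 := by
      apply Finset.sum_eq_zero
      intro w hw
      rw [Finset.mem_filter] at hw
      exact hbt v w h0 hw.2
    rw [hb0]
    rcases (hb v).eq_or_lt with h2 | h2
    · rw [← h2, min_eq_left (by linarith), zero_add]
      exact max_eq_right h0.le
    · rw [hlow0 h2, min_eq_right (by linarith), max_eq_right (by linarith)]
      ring

theorem continuous_tp {n : ℕ} (v : Fin n) :
    Continuous fun p : (Fin n → ℝ) × ℝ => tp p.1 p.2 v := by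
  unfold tp
  apply Continuous.max continuous_const
  apply Continuous.min
  · exact (continuous_apply v).comp continuous_fst
  · apply continuous_snd.sub
    apply continuous_finsetSum
    intro w _
    exact (continuous_apply w).comp continuous_fst

end Pool.Agent.H44.SQM
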