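import Pool.Agent.H44.SQM.PRD

/-!
# PRB : the barycentric coordinates are well defined

For `l = i + τ`, `i : Fin 3`, `0 ≤ τ ≤ 1`, and a point `x` of the simplex, `lev x l i v = x v - tp x τ v`,
`lev x l (i + 1) v = tp x τ v` and `lev x l j v = 0` for the other `j` in `{0, 1, 2, 3}`
(by `tp_of_nonpos` and `tp_of_one_le`), so `gam s x l` is given on the layer `i` by
`gam s x l (v, i) = x v - tp x τ v`, `gam s x l (nxt s v i) = tp x τ v` and `0` on the third level.
-/

namespace Pool.Agent.H44.SQM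

open Topology

/-- the layer itself -/
theorem PRB_lev_bot {n : ℕ} {x : Fin n → ℝ} (hx : ∀ v, 0 ≤ x v)
    (h1 : ∑ v, x v = 1) {l j τ : ℝ} (h0 : 0 ≤ τ) (hl : l = j + τ) (v : Fin n) :
    lev x l j v = x v - tp x τ v := by
  unfold lev
  rw [tp_of_one_le hx h1 (by linarith : (1 : ℝ) ≤ l - j + 1), show l - j = τ by linarith]

/-- the next layer -/
theorem PRB_lev_top {n : ℕ} {x : Fin n → ℝ} (hx : ∀ v, 0 ≤ x v)
    {l j τ : ℝ} (hτ : τ ≤ 1) (hl : l + 1 = j + τ) (v : Fin n) :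
    lev x l j v = tp x τ v := by
  unfold lev
  rw [tp_of_nonpos hx (by linarith : l - j ≤ 0), show l - j + 1 = τ by linarith, sub_zero]

/-- layers above -/
theorem PRB_lev_above {n : ℕ} {x : Fin n → ℝ} (hx : ∀ v, 0 ≤ x v)
    {l j : ℝ} (hl : l + 1 ≤ j) (v : Fin n) :
    lev x l j v = 0 := by
  unfold lev
  rw [tp_of_nonpos hx (by linarith : l - j ≤ 0), tp_of_nonpos hx (by linarith : l - j + 1 ≤ 0),
    sub_zero]

/-- layers below -/
theorem PRB_lev_below {n : ℕ} {x : Fin n → ℝ} (hx : ∀ v, 0 ≤ x v)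
    (h1 : ∑ v, x v = 1) {l j : ℝ} (hl : j + 1 ≤ l) (v : Fin n) :
    lev x l j v = 0 := by
  unfold lev
  rw [tp_of_one_le hx h1 (by linarith : (1 : ℝ) ≤ l - j + 1),
    tp_of_one_le hx h1 (by linarith : (1 : ℝ) ≤ l - j), sub_self]

/-- the coordinates on the bottom -/
theorem gam_bot {n : ℕ} (s : Equiv.Perm (Fin n)) {x : Fin n → ℝ} (hx : ∀ v, 0 ≤ x v)
    (h1 : ∑ v, x v = 1) (i : Fin 3) {τ : ℝ} (h0 : 0 ≤ τ) (hτ : τ ≤ 1) (v : Fin n) :
    gam s x (((i.val : ℕ) : ℝ) + τ) (v, i) = x v - tp x τ v := by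
  unfold gam
  fin_cases i
  · simp only [Fin.zero_eta, Nat.cast_zero, if_true, Fin.val_zero]
    rw [PRB_lev_bot hx h1 h0 rfl, PRB_lev_above hx (by linarith), add_zero]
  · simp only [Fin.mk_one, Fin.isValue, one_ne_zero, if_false, if_true, Fin.val_one, Nat.cast_one]
    rw [PRB_lev_bot hx h1 h0 rfl]
  · simp only [Fin.reduceFinMk, Fin.isValue, Fin.reduceEq, if_false, Fin.val_two, Nat.cast_ofNat]
    rw [PRB_lev_bot hx h1 h0 rfl]

/-- the coordinates on the top -/
theorem gam_top {n : ℕ} (s : Equiv.Perm (Fin n)) {x : Fin n → ℝ} (hx : ∀ v, 0 ≤ x v)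
    (h1 : ∑ v, x v = 1) (i : Fin 3) {τ : ℝ} (h0 : 0 ≤ τ) (hτ : τ ≤ 1) (v : Fin n) :
    gam s x (((i.val : ℕ) : ℝ) + τ) (nxt s v i) = tp x τ v := by
  unfold gam nxt
  fin_cases i
  · simp only [Fin.zero_eta, Nat.cast_zero, Fin.isValue, one_ne_zero, if_false, if_true,
      Fin.val_zero]
    rw [PRB_lev_top hx hτ (by ring)]
  · simp only [Fin.mk_one, Fin.isValue, Fin.reduceEq, if_false, Fin.val_one, Nat.cast_one]
    rw [PRB_lev_top hx hτ (by ring)]
  · simp only [Fin.reduceFinMk, Fin.isValue, if_true, Fin.val_two, Nat.cast_ofNat,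
      Equiv.apply_symm_apply]
    rw [PRB_lev_top hx hτ (by ring : (2 : ℝ) + τ + 1 = 3 + τ),
      PRB_lev_below hx h1 (by linarith), zero_add]

/-- the coordinates on the third level -/
theorem gam_off {n : ℕ} (s : Equiv.Perm (Fin n)) {x : Fin n → ℝ} (hx : ∀ v, 0 ≤ x v)
    (h1 : ∑ v, x v = 1) (i : Fin 3) {τ : ℝ} (h0 : 0 ≤ τ) (hτ : τ ≤ 1) (v : Fin n) :
    gam s x (((i.val : ℕ) : ℝ) + τ) (v, i + 2) = 0 := by
  unfold gam
  fin_cases i
  · simp only [Fin.zero_eta, Nat.cast_zero, Fin.isValue, zero_add, Fin.reduceEq, if_false,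
      Fin.val_zero]
    rw [PRB_lev_above hx (by linarith)]
  · simp only [Fin.mk_one, Fin.isValue, Fin.reduceAdd, if_true, Fin.val_one, Nat.cast_one]
    rw [PRB_lev_below hx h1 (by linarith), PRB_lev_above hx (by linarith), add_zero]
  · simp only [Fin.reduceFinMk, Fin.isValue, Fin.reduceAdd, one_ne_zero, if_false, if_true,
      Fin.val_two, Nat.cast_ofNat]
    rw [PRB_lev_below hx h1 (by linarith)]

/-- every `l` in `[0, 3]` is of the form `i + τ` -/
theorem exists_layer {l : ℝ} (h0 : 0 ≤ l) (h3 : l ≤ 3) :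
    ∃ (i : Fin 3) (τ : ℝ), 0 ≤ τ ∧ τ ≤ 1 ∧ l = ((i.val : ℕ) : ℝ) + τ := by
  rcases le_total l 1 with h | h
  · exact ⟨0, l, h0, h, by simp⟩
  · rcases le_total l 2 with h' | h'
    · exact ⟨1, l - 1, by linarith, by linarith, by simp⟩
    · exact ⟨2, l - 2, by linarith, by linarith, by simp⟩

theorem continuous_gam {n : ℕ} (s : Equiv.Perm (Fin n)) :
    Continuous fun p : (Fin n → ℝ) × ℝ => gam s p.1 p.2 := by
  have hlev : ∀ (j : ℝ) (v : Fin n), Continuous fun p : (Fin n → ℝ) × ℝ => lev p.1 p.2 j v := by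
    intro j v
    unfold lev
    have h1 : Continuous fun p : (Fin n → ℝ) × ℝ => tp p.1 (p.2 - j + 1) v :=
      (continuous_tp v).comp (f := fun p : (Fin n → ℝ) × ℝ => (p.1, p.2 - j + 1)) (by fun_prop)
    have h2 : Continuous fun p : (Fin n → ℝ) × ℝ => tp p.1 (p.2 - j) v :=
      (continuous_tp v).comp (f := fun p : (Fin n → ℝ) × ℝ => (p.1, p.2 - j)) (by fun_prop)
    exact h1.sub h2
  refine continuous_pi fun q => ?_
  unfold gam
  by_cases h : q.2 = 0
  · simp only [h, if_true]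
    exact (hlev _ _).add (hlev _ _)
  · by_cases h' : q.2 = 1
    · simp only [h', one_ne_zero, if_false, if_true]
      exact hlev _ _
    · simp only [h, h', if_false]
      exact hlev _ _

/-- every vertex is on the bottom, on the top or on the third level -/
theorem PRB_cases {n : ℕ} (s : Equiv.Perm (Fin n)) (i : Fin 3) (p : Fin n × Fin 3) :
    (∃ v, p = (v, i)) ∨ (∃ v, p = nxt s v i) ∨ ∃ v, p = (v, i + 2) := by
  obtain ⟨v, j⟩ := p
  fin_cases i <;> fin_cases j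
  · exact Or.inl ⟨v, rfl⟩
  · exact Or.inr (Or.inl ⟨v, rfl⟩)
  · exact Or.inr (Or.inr ⟨v, rfl⟩)
  · exact Or.inr (Or.inr ⟨v, rfl⟩)
  · exact Or.inl ⟨v, rfl⟩
  · exact Or.inr (Or.inl ⟨v, rfl⟩)
  · exact Or.inr (Or.inl ⟨s v, by simp [nxt]⟩)
  · exact Or.inr (Or.inr ⟨v, rfl⟩)
  · exact Or.inl ⟨v, rfl⟩

theorem PRB_sum {n : ℕ} (s : Equiv.Perm (Fin n)) (i : Fin 3) (g : Fin n × Fin 3 → ℝ) :
    ∑ p, g p = ∑ v, g (v, i) + ∑ v, g (nxt s v i) + ∑ v, g (v, i + 2) := by
  rw [Fintype.sum_prod_type_right, Fin.sum_univ_three]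
  fin_cases i
  · simp only [Fin.zero_eta, Fin.isValue, nxt, zero_add]
  · simp only [Fin.mk_one, Fin.isValue, nxt, Fin.reduceAdd]
    ring
  · simp only [Fin.reduceFinMk, Fin.isValue, nxt, Fin.reduceAdd]
    rw [Equiv.sum_comp s.symm (fun v => g (v, 0))]
    ring

/-- The point `gam s x l` lies in the realisation of `prisms T s`. For the support: let `x` be
supported on `t ∈ T`; if some `tp x τ v > 0` take the smallest such `v` as `m`
(`tp_full`), otherwise take `m = max t`. The sum is `∑ (x v - tp x τ v) + ∑ tp x τ v = 1` (the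
three levels `i`, `i + 1` and `i + 2` exhaust `Fin 3`, and `v ↦ s⁻¹ v` is a bijection). -/
theorem gam_mem {n : ℕ} (T : Set (Finset (Fin n))) (s : Equiv.Perm (Fin n))
    {x : Fin n → ℝ} (hx : x ∈ geo T) {l : ℝ} (h0 : 0 ≤ l) (h3 : l ≤ 3) :
    gam s x l ∈ geo (prisms T s) := by
  obtain ⟨hx0, hx1, t, htT, ht⟩ := hx
  obtain ⟨i, τ, hτ0, hτ1, rfl⟩ := exists_layer h0 h3
  have hb := gam_bot s hx0 hx1 i hτ0 hτ1
  have htop := gam_top s hx0 hx1 i hτ0 hτ1
  have ho := gam_off s hx0 hx1 i hτ0 hτ1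
  refine ⟨fun p => ?_, ?_, ?_⟩
  · rcases PRB_cases s i p with ⟨v, rfl⟩ | ⟨v, rfl⟩ | ⟨v, rfl⟩
    · rw [hb]
      have := tp_le hx0 τ v
      linarith
    · rw [htop]
      exact tp_nonneg x τ v
    · rw [ho]
  · rw [PRB_sum s i]
    simp only [hb, htop, ho, Finset.sum_sub_distrib, hx1, Finset.sum_const_zero]
    ring
  · have htp0 : ∀ v, x v = 0 → tp x τ v = 0 := fun v hv =>
      le_antisymm ((tp_le hx0 τ v).trans (le_of_eq hv)) (tp_nonneg x τ v)
    have key : ∃ m ∈ t, (∀ v ∈ t, m < v → x v - tp x τ v = 0) ∧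
        (∀ v ∈ t, v < m → tp x τ v = 0) := by
      by_cases hA : ∃ v, 0 < tp x τ v
      · have hne : (Finset.univ.filter fun v => 0 < tp x τ v).Nonempty := by
          obtain ⟨v, hv⟩ := hA
          exact ⟨v, by simp [hv]⟩
        obtain ⟨m, hm, hmin⟩ := Finset.exists_min_image _ id hne
        rw [Finset.mem_filter] at hm
        refine ⟨m, ?_, ?_, ?_⟩
        · by_contra hmt
          have := htp0 m (ht m hmt)
          linarith [hm.2]
        · intro v _ hv
          rw [tp_full hx0 hm.2 hv, sub_self]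
        · intro v _ hv
          by_contra hne0
          have hpos : 0 < tp x τ v := lt_of_le_of_ne (tp_nonneg x τ v) (Ne.symm hne0)
          have := hmin v (by simp [hpos])
          exact absurd hv (not_lt.2 this)
      · have hA' : ∀ v, tp x τ v = 0 := fun v =>
          le_antisymm (not_lt.1 fun h => hA ⟨v, h⟩) (tp_nonneg x τ v)
        have hne : t.Nonempty := by
          by_contra hcon
          rw [Finset.not_nonempty_iff_eq_empty] at hcon
          have : ∑ v, x v = 0 := Finset.sum_eq_zero fun v _ => ht v (by simp [hcon])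
          rw [hx1] at this
          exact one_ne_zero this
        refine ⟨t.max' hne, t.max'_mem hne, ?_, fun v _ _ => hA' v⟩
        intro v hv hlt
        exact absurd (t.le_max' v hv) (not_le.2 hlt)
    obtain ⟨m, hmt, hm1, hm2⟩ := key
    refine ⟨prism s t m i, ⟨t, htT, m, hmt, i, rfl⟩, fun p hp => ?_⟩
    unfold prism at hp
    rw [Finset.mem_union, not_or, Finset.mem_image, Finset.mem_image] at hp
    rcases PRB_cases s i p with ⟨v, rfl⟩ | ⟨v, rfl⟩ | ⟨v, rfl⟩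
    · rw [hb]
      by_cases hvt : v ∈ t
      · apply hm1 v hvt
        by_contra hle
        exact hp.1 ⟨v, Finset.mem_filter.2 ⟨hvt, not_lt.1 hle⟩, rfl⟩
      · rw [htp0 v (ht v hvt), ht v hvt, sub_zero]
    · rw [htop]
      by_cases hvt : v ∈ t
      · apply hm2 v hvt
        by_contra hle
        exact hp.2 ⟨v, Finset.mem_filter.2 ⟨hvt, not_lt.1 hle⟩, rfl⟩
      · exact htp0 v (ht v hvt)
    · exact ho v

end Pool.Agent.H44.SQM
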