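import Pool.Agent.H44.SQM.PRB

/-!
# PRC : the barycentric coordinates determine the point of the mapping torus
-/

namespace Pool.Agent.H44.SQM

open Topology

/-- every vertex lies on one of the three levels `i`, `i + 1`, `i + 2` -/
theorem PRC_cases {n : ℕ} (s : Equiv.Perm (Fin n)) (i : Fin 3) (p : Fin n × Fin 3) :
    (∃ v, p = (v, i)) ∨ (∃ v, p = nxt s v i) ∨ (∃ v, p = (v, i + 2)) := by
  obtain ⟨v, j⟩ := p
  fin_cases i <;> fin_cases j
  · exact Or.inl ⟨v, rfl⟩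
  · exact Or.inr (Or.inl ⟨v, rfl⟩)
  · exact Or.inr (Or.inr ⟨v, rfl⟩)
  · exact Or.inr (Or.inr ⟨v, rfl⟩)
  · exact Or.inl ⟨v, rfl⟩
  · exact Or.inr (Or.inl ⟨v, rfl⟩)
  · exact Or.inr (Or.inl ⟨s v, by simp [nxt]⟩)
  · exact Or.inr (Or.inr ⟨v, rfl⟩)
  · exact Or.inl ⟨v, rfl⟩

/-- the level of the vertex above -/
theorem PRC_nxt_snd {n : ℕ} (s : Equiv.Perm (Fin n)) (v : Fin n) (i : Fin 3) :
    (nxt s v i).2 = i + 1 := by
  fin_cases i <;> rfl

theorem PRC_nxt_inj {n : ℕ} (s : Equiv.Perm (Fin n)) {v w : Fin n} {i : Fin 3}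
    (h : nxt s v i = nxt s w i) : v = w := by
  fin_cases i
  · simpa [nxt] using h
  · simpa [nxt] using h
  · simpa [nxt] using h

theorem PRC_ne1 (i : Fin 3) : i + 1 ≠ i := by
  fin_cases i <;> decide

theorem PRC_ne2 (i : Fin 3) : i + 2 ≠ i := by
  fin_cases i <;> decide

theorem PRC_ne3 (i : Fin 3) : i + 2 ≠ i + 1 := by
  fin_cases i <;> decide

/-- the sum over all vertices is the sum over the three levels -/
theorem PRC_sum {n : ℕ} (s : Equiv.Perm (Fin n)) (i : Fin 3) (f : Fin n × Fin 3 → ℝ) :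
    ∑ p, f p = ∑ v, f (v, i) + ∑ v, f (nxt s v i) + ∑ v, f (v, i + 2) := by
  rw [Fintype.sum_prod_type_right, Fin.sum_univ_three]
  fin_cases i
  · rfl
  · simp only [nxt]
    change _ = ∑ v, f (v, 1) + ∑ v, f (v, 2) + ∑ v, f (v, 0)
    ring
  · change _ = ∑ v, f (v, 2) + ∑ v, f (s.symm v, 0) + ∑ v, f (v, 1)
    rw [Equiv.sum_comp s.symm (fun v => f (v, 0))]
    ring

/-- members of the bottom of a prism -/
theorem PRC_mem_bot {n : ℕ} (s : Equiv.Perm (Fin n)) {t : Finset (Fin n)} {m : Fin n} {i : Fin 3}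
    {v : Fin n} (h : (v, i) ∈ prism s t m i) : v ∈ t ∧ v ≤ m := by
  rw [prism, Finset.mem_union, Finset.mem_image, Finset.mem_image] at h
  rcases h with ⟨w, hw, he⟩ | ⟨w, hw, he⟩
  · rw [Finset.mem_filter] at hw
    obtain rfl : w = v := congrArg Prod.fst he
    exact hw
  · exact absurd ((PRC_nxt_snd s w i).symm.trans (congrArg Prod.snd he)) (PRC_ne1 i)

/-- members of the top of a prism -/
theorem PRC_mem_top {n : ℕ} (s : Equiv.Perm (Fin n)) {t : Finset (Fin n)} {m : Fin n} {i : Fin 3}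
    {v : Fin n} (h : nxt s v i ∈ prism s t m i) : v ∈ t ∧ m ≤ v := by
  rw [prism, Finset.mem_union, Finset.mem_image, Finset.mem_image] at h
  rcases h with ⟨w, hw, he⟩ | ⟨w, hw, he⟩
  · exact absurd ((PRC_nxt_snd s v i).symm.trans (congrArg Prod.snd he).symm) (PRC_ne1 i)
  · rw [Finset.mem_filter] at hw
    obtain rfl : w = v := PRC_nxt_inj s he
    exact hw

/-- the third level does not meet a prism -/
theorem PRC_not_mem {n : ℕ} (s : Equiv.Perm (Fin n)) {t : Finset (Fin n)} {m : Fin n} {i : Fin 3}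
    {v : Fin n} : (v, i + 2) ∉ prism s t m i := by
  intro h
  rw [prism, Finset.mem_union, Finset.mem_image, Finset.mem_image] at h
  rcases h with ⟨w, hw, he⟩ | ⟨w, hw, he⟩
  · exact PRC_ne2 i (congrArg Prod.snd he).symm
  · exact PRC_ne3 i ((PRC_nxt_snd s w i).symm.trans (congrArg Prod.snd he)).symm

/-- Surjectivity: let `y` be supported on `prism s t m i`; put `b v = y (v, i)`, `t v = y (nxt s v i)`,
`x = b + t`, `τ = ∑ t`, `l = i + τ`; use `tp_unique`. -/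
theorem gam_surj {n : ℕ} (T : Set (Finset (Fin n))) (s : Equiv.Perm (Fin n))
    {y : Fin n × Fin 3 → ℝ} (hy : y ∈ geo (prisms T s)) :
    ∃ x ∈ geo T, ∃ l : ℝ, 0 ≤ l ∧ l ≤ 3 ∧ gam s x l = y := by
  obtain ⟨hy0, hy1, r, ⟨t, ht, m, hm, i, rfl⟩, hsup⟩ := hy
  have hz : ∀ v, y (v, i + 2) = 0 := fun v => hsup _ (PRC_not_mem s)
  have hsum : ∑ v, y (v, i) + ∑ v, y (nxt s v i) = 1 := by
    have := PRC_sum s i y
    rw [hy1] at this
    simp only [hz, Finset.sum_const_zero, add_zero] at this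
    exact this.symm
  have hb : ∀ v, 0 ≤ y (v, i) := fun v => hy0 _
  have htt : ∀ v, 0 ≤ y (nxt s v i) := fun v => hy0 _
  have hx0 : ∀ v, 0 ≤ y (v, i) + y (nxt s v i) := fun v => add_nonneg (hb v) (htt v)
  have hx1 : ∑ v, (y (v, i) + y (nxt s v i)) = 1 := by
    rw [Finset.sum_add_distrib]; exact hsum
  have hτ0 : 0 ≤ ∑ v, y (nxt s v i) := Finset.sum_nonneg fun v _ => htt v
  have hτ1 : ∑ v, y (nxt s v i) ≤ 1 := by
    have : 0 ≤ ∑ v, y (v, i) := Finset.sum_nonneg fun v _ => hb v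
    linarith
  have hbt : ∀ v w, 0 < y (nxt s v i) → v < w → y (w, i) = 0 := by
    intro v w hv hvw
    refine hsup _ fun hmem => ?_
    have h1 := (PRC_mem_bot s hmem).2
    have h2 : nxt s v i ∈ prism s t m i := by
      by_contra hne
      exact absurd (hsup _ hne) hv.ne'
    exact absurd (lt_of_lt_of_le hvw h1) (not_lt.mpr (PRC_mem_top s h2).2)
  have htp := tp_unique (b := fun v => y (v, i)) (t := fun v => y (nxt s v i)) hb htt hbt
  have hi : ((i.val : ℕ) : ℝ) ≤ 2 := by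
    have : i.val ≤ 2 := by omega
    exact_mod_cast this
  have hi0 : (0 : ℝ) ≤ ((i.val : ℕ) : ℝ) := Nat.cast_nonneg _
  refine ⟨fun v => y (v, i) + y (nxt s v i), ⟨hx0, hx1, t, ht, ?_⟩,
    ((i.val : ℕ) : ℝ) + ∑ v, y (nxt s v i), by linarith, by linarith, ?_⟩
  · intro v hv
    have e1 : y (v, i) = 0 := hsup _ fun hmem => hv (PRC_mem_bot s hmem).1
    have e2 : y (nxt s v i) = 0 := hsup _ fun hmem => hv (PRC_mem_top s hmem).1
    simp only [e1, e2, add_zero]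
  · funext p
    rcases PRC_cases s i p with ⟨v, rfl⟩ | ⟨v, rfl⟩ | ⟨v, rfl⟩
    · rw [gam_bot s hx0 hx1 i hτ0 hτ1 v, htp v]
      ring
    · rw [gam_top s hx0 hx1 i hτ0 hτ1 v, htp v]
    · rw [gam_off s hx0 hx1 i hτ0 hτ1 v, hz v]

/-- The point `(s x, 3)` has the coordinates of `(x, 0)`. -/
theorem gam_glue {n : ℕ} (s : Equiv.Perm (Fin n)) {x : Fin n → ℝ} (hx : ∀ v, 0 ≤ x v)
    (h1 : ∑ v, x v = 1) : gam s (fun v => x (s.symm v)) 3 = gam s x 0 := by
  have hx' : ∀ v, 0 ≤ (fun v => x (s.symm v)) v := fun v => hx _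
  have h1' : ∑ v, (fun v => x (s.symm v)) v = 1 := by
    rw [← h1]; exact Equiv.sum_comp s.symm x
  have e3 : (3 : ℝ) = (((2 : Fin 3).val : ℕ) : ℝ) + 1 := by norm_num
  have e0 : (0 : ℝ) = (((0 : Fin 3).val : ℕ) : ℝ) + 0 := by norm_num
  funext p
  rcases PRC_cases s 2 p with ⟨v, rfl⟩ | ⟨v, rfl⟩ | ⟨v, rfl⟩
  · have a := gam_bot s hx' h1' 2 zero_le_one le_rfl v
    have b := gam_off s hx h1 0 le_rfl zero_le_one v
    rw [← e3, tp_of_one_le hx' h1' le_rfl, sub_self] at a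
    rw [← e0] at b
    exact a.trans b.symm
  · have a := gam_top s hx' h1' 2 zero_le_one le_rfl v
    have b := gam_bot s hx h1 0 le_rfl zero_le_one (s.symm v)
    rw [← e3, tp_of_one_le hx' h1' le_rfl] at a
    rw [← e0, tp_of_nonpos hx le_rfl, sub_zero] at b
    exact a.trans b.symm
  · have a := gam_off s hx' h1' 2 zero_le_one le_rfl v
    have b := gam_top s hx h1 0 le_rfl zero_le_one v
    rw [← e3] at a
    rw [← e0, tp_of_nonpos hx le_rfl] at b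
    exact a.trans b.symm

/-- every `l` in `[0, 3)` is of the form `i + τ` with `τ < 1` -/
theorem PRC_layer {l : ℝ} (h0 : 0 ≤ l) (h3 : l < 3) :
    ∃ (i : Fin 3) (τ : ℝ), 0 ≤ τ ∧ τ < 1 ∧ l = ((i.val : ℕ) : ℝ) + τ := by
  rcases lt_or_ge l 1 with h | h
  · exact ⟨0, l, h0, h, by norm_num⟩
  rcases lt_or_ge l 2 with h' | h'
  · exact ⟨1, l - 1, by linarith, by linarith, by norm_num⟩
  · exact ⟨2, l - 2, by linarith, by linarith, by norm_num⟩

/-- the sum over the level `i` -/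
theorem PRC_sum_bot {n : ℕ} (s : Equiv.Perm (Fin n)) {x : Fin n → ℝ} (hx : ∀ v, 0 ≤ x v)
    (h1 : ∑ v, x v = 1) (i : Fin 3) {τ : ℝ} (h0 : 0 ≤ τ) (hτ : τ ≤ 1) :
    ∑ v, gam s x (((i.val : ℕ) : ℝ) + τ) (v, i) = 1 - τ := by
  simp only [gam_bot s hx h1 i h0 hτ, Finset.sum_sub_distrib, h1, tp_sum hx h1 h0 hτ]

/-- the sum over the level `i + 2` -/
theorem PRC_sum_off {n : ℕ} (s : Equiv.Perm (Fin n)) {x : Fin n → ℝ} (hx : ∀ v, 0 ≤ x v)
    (h1 : ∑ v, x v = 1) (i : Fin 3) {τ : ℝ} (h0 : 0 ≤ τ) (hτ : τ ≤ 1) :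
    ∑ v, gam s x (((i.val : ℕ) : ℝ) + τ) (v, i + 2) = 0 := by
  simp only [gam_off s hx h1 i h0 hτ, Finset.sum_const_zero]

theorem PRC_fin (i j : Fin 3) : i = j ∨ i = j + 2 ∨ j = i + 2 := by
  fin_cases i <;> fin_cases j <;> decide

/-- injectivity on `[0, 3)` -/
theorem PRC_inj {n : ℕ} (s : Equiv.Perm (Fin n)) {x x' : Fin n → ℝ} (hx : ∀ v, 0 ≤ x v)
    (h1 : ∑ v, x v = 1) (hx' : ∀ v, 0 ≤ x' v) (h1' : ∑ v, x' v = 1) {l l' : ℝ}
    (h0 : 0 ≤ l) (h3 : l < 3) (h0' : 0 ≤ l') (h3' : l' < 3) (he : gam s x l = gam s x' l') :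
    l = l' ∧ x = x' := by
  obtain ⟨i, τ, hτ0, hτ1, rfl⟩ := PRC_layer h0 h3
  obtain ⟨j, σ, hσ0, hσ1, rfl⟩ := PRC_layer h0' h3'
  rcases PRC_fin i j with rfl | h | h
  · have e1 : τ = σ := by
      have a := PRC_sum_bot s hx h1 i hτ0 hτ1.le
      have b := PRC_sum_bot s hx' h1' i hσ0 hσ1.le
      rw [he, b] at a
      linarith
    subst e1
    refine ⟨rfl, ?_⟩
    funext v
    have a := gam_bot s hx h1 i hτ0 hτ1.le v
    have a' := gam_bot s hx' h1' i hτ0 hτ1.le v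
    have b := gam_top s hx h1 i hτ0 hτ1.le v
    have b' := gam_top s hx' h1' i hτ0 hτ1.le v
    rw [he, a'] at a
    rw [he, b'] at b
    linarith
  · have a := PRC_sum_bot s hx h1 i hτ0 hτ1.le
    have b := PRC_sum_off s hx' h1' j hσ0 hσ1.le
    rw [he, h, b] at a
    linarith
  · have a := PRC_sum_bot s hx' h1' j hσ0 hσ1.le
    have b := PRC_sum_off s hx h1 i hτ0 hτ1.le
    rw [← he, h, b] at a
    linarith

/-- the top level -/
theorem PRC_three {n : ℕ} (s : Equiv.Perm (Fin n)) {x : Fin n → ℝ} (hx : ∀ v, 0 ≤ x v)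
    (h1 : ∑ v, x v = 1) : gam s x 3 = gam s (fun v => x (s v)) 0 := by
  have h := gam_glue s (x := fun v => x (s v)) (fun v => hx _)
    (by rw [← h1]; exact Equiv.sum_comp s x)
  rw [← h]
  congr 1
  funext v
  simp

/-- Injectivity: the sums over the three levels determine `l` up to `0 ~ 3`; then
`x v = y (v, i) + y (nxt s v i)`. -/
theorem gam_inj {n : ℕ} (s : Equiv.Perm (Fin n)) {x x' : Fin n → ℝ} (hx : ∀ v, 0 ≤ x v)
    (h1 : ∑ v, x v = 1) (hx' : ∀ v, 0 ≤ x' v) (h1' : ∑ v, x' v = 1) {l l' : ℝ}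
    (h0 : 0 ≤ l) (h3 : l ≤ 3) (h0' : 0 ≤ l') (h3' : l' ≤ 3) (he : gam s x l = gam s x' l') :
    (l = l' ∧ x = x') ∨ (l = 0 ∧ l' = 3 ∧ ∀ v, x' v = x (s.symm v)) ∨
      (l = 3 ∧ l' = 0 ∧ ∀ v, x v = x' (s.symm v)) := by
  have hs : ∀ v, 0 ≤ (fun v => x (s v)) v := fun v => hx _
  have hs' : ∀ v, 0 ≤ (fun v => x' (s v)) v := fun v => hx' _
  have hs1 : ∑ v, (fun v => x (s v)) v = 1 := by rw [← h1]; exact Equiv.sum_comp s x
  have hs1' : ∑ v, (fun v => x' (s v)) v = 1 := by rw [← h1']; exact Equiv.sum_comp s x'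
  rcases h3.lt_or_eq with h | h
  · rcases h3'.lt_or_eq with h' | h'
    · exact Or.inl (PRC_inj s hx h1 hx' h1' h0 h h0' h' he)
    · subst h'
      rw [PRC_three s hx' h1'] at he
      obtain ⟨e1, e2⟩ := PRC_inj s hx h1 hs' hs1' h0 h le_rfl (by norm_num) he
      refine Or.inr (Or.inl ⟨e1, rfl, fun v => ?_⟩)
      rw [e2]
      simp
  · subst h
    rw [PRC_three s hx h1] at he
    rcases h3'.lt_or_eq with h' | h'
    · obtain ⟨e1, e2⟩ := PRC_inj s hs hs1 hx' h1' le_rfl (by norm_num) h0' h' he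
      refine Or.inr (Or.inr ⟨rfl, e1.symm, fun v => ?_⟩)
      rw [← e2]
      simp
    · subst h'
      rw [PRC_three s hx' h1'] at he
      obtain ⟨-, e2⟩ := PRC_inj s hs hs1 hs' hs1' le_rfl (by norm_num) le_rfl (by norm_num) he
      refine Or.inl ⟨rfl, ?_⟩
      funext v
      have := congrFun e2 (s.symm v)
      simpa using this

end Pool.Agent.H44.SQM
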