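import Pool.Agent.H44.SQM.Defs
import Pool.Agent.H44.SQM.PRA

/-!
# PRD : definitions for the triangulation of a mapping torus

`T` is a set of triangles on the vertex set `Fin n`, `s` a permutation of the vertices. The
vertices of the triangulation of the mapping torus are the pairs `(v, i)` (`i : Fin 3`, the
point `v` at the height `i / 3`).
-/

namespace Pool.Agent.H44.SQM

/-- the vertex above `(v, i)` -/
def nxt {n : ℕ} (s : Equiv.Perm (Fin n)) (v : Fin n) : Fin 3 → Fin n × Fin 3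
  | 0 => (v, 1)
  | 1 => (v, 2)
  | 2 => (s.symm v, 0)

/-- the tetrahedron with the vertices `(v, i)`, `v ≤ m`, and `nxt (v, i)`, `m ≤ v` (`v ∈ t`) -/
def prism {n : ℕ} (s : Equiv.Perm (Fin n)) (t : Finset (Fin n)) (m : Fin n) (i : Fin 3) :
    Finset (Fin n × Fin 3) :=
  (t.filter (· ≤ m)).image (fun v => (v, i)) ∪ (t.filter (m ≤ ·)).image (fun v => nxt s v i)

/-- the tetrahedra of the mapping torus -/
def prisms {n : ℕ} (T : Set (Finset (Fin n))) (s : Equiv.Perm (Fin n)) :
    Set (Finset (Fin n × Fin 3)) :=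
  {r | ∃ t ∈ T, ∃ m ∈ t, ∃ i, r = prism s t m i}

/-- the mass of the point `(x, l / 3)` (`l` in `[0, 3]`) at the vertex `v` of the level `j` -/
def lev {n : ℕ} (x : Fin n → ℝ) (l : ℝ) (j : ℝ) (v : Fin n) : ℝ :=
  tp x (l - j + 1) v - tp x (l - j) v

/-- The barycentric coordinates of the point `(x, l / 3)` (`l` in `[0, 3]`); the
vertex `v` of the level `3` is the vertex `s⁻¹ v` of the level `0`. -/
def gam {n : ℕ} (s : Equiv.Perm (Fin n)) (x : Fin n → ℝ) (l : ℝ) (p : Fin n × Fin 3) : ℝ :=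
  if p.2 = 0 then lev x l 0 p.1 + lev x l 3 (s p.1)
  else if p.2 = 1 then lev x l 1 p.1 else lev x l 2 p.1

end Pool.Agent.H44.SQM
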