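import Pool.Agent.H44.SQM.MTB

/-!
# SQR : the squares of `MT h` and `MT (h ^ k)` are homeomorphic

Let `h ^ n = 1` and `k ^ 2 = ε + n m` with `ε = 1` or `ε = -1`. The matrix
`M = [[k, n], [-ε n m², k - ε n k m]]` has determinant
`k² - ε n k² m + ε n² m² = k² - ε n m (k² - n m) = k² - n m = ε` and is `k` times the identity mod `n`.
The map `MT (h ^ k) × MT (h ^ k) → MT h × MT h`,
`([x, s], [y, t]) ↦ ([x, k s + n t], [y, - ε n m² s + (k - ε n k m) t])`
is well defined (use `mk_shift`: if `j = k mod n` then `h ^ j = h ^ k`) and has the inverse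
`([x, s], [y, t]) ↦ ([x, ε (k - ε n k m) s - ε n t], [y, n m² s + ε k t])`.
Continuity: `IsOpenQuotientMap.prodMap` and `isOpenQuotientMap_mk`.
-/

namespace Pool.Agent.H44.SQM

open Topology

/-- the map given by an integer matrix -/
def SQR_map {X : Type*} [TopologicalSpace X] (f g : X ≃ₜ X) (a b c d : ℤ) (ha : g ^ a = f)
    (hb : g ^ b = 1) (hc : g ^ c = 1) (hd : g ^ d = f) (P : MT f × MT f) : MT g × MT g :=
  Quotient.liftOn₂ P.1 P.2
    (fun p q => (mk g (p.1, (a : ℝ) * p.2 + (b : ℝ) * q.2), mk g (q.1, (c : ℝ) * p.2 + (d : ℝ) * q.2)))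
    (by
      rintro ⟨x, s⟩ ⟨y, t⟩ ⟨x', s'⟩ ⟨y', t'⟩ ⟨i, hi⟩ ⟨j, hj⟩
      simp only [Prod.mk.injEq] at hi hj
      obtain ⟨rfl, rfl⟩ := hi
      obtain ⟨rfl, rfl⟩ := hj
      have e1 : f ^ i = g ^ (a * i + b * j) := by
        rw [zpow_add, zpow_mul, zpow_mul, ha, hb, one_zpow, mul_one]
      have e2 : f ^ j = g ^ (c * i + d * j) := by
        rw [zpow_add, zpow_mul, zpow_mul, hc, hd, one_zpow, one_mul]
      have h1 := mk_shift g (a * i + b * j) x ((a : ℝ) * s + (b : ℝ) * t)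
      have h2 := mk_shift g (c * i + d * j) y ((c : ℝ) * s + (d : ℝ) * t)
      rw [← e1] at h1
      rw [← e2] at h2
      refine Prod.ext ?_ ?_
      · show mk g (x, (a : ℝ) * s + (b : ℝ) * t) = mk g ((f ^ i) x, (a : ℝ) * (s + i) + (b : ℝ) * (t + j))
        rw [← h1]
        congr 2
        push_cast
        ring
      · show mk g (y, (c : ℝ) * s + (d : ℝ) * t) = mk g ((f ^ j) y, (c : ℝ) * (s + i) + (d : ℝ) * (t + j))
        rw [← h2]
        congr 2
        push_cast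
        ring)

theorem SQR_map_mk {X : Type*} [TopologicalSpace X] (f g : X ≃ₜ X) (a b c d : ℤ) (ha : g ^ a = f)
    (hb : g ^ b = 1) (hc : g ^ c = 1) (hd : g ^ d = f) (x y : X) (s t : ℝ) :
    SQR_map f g a b c d ha hb hc hd (mk f (x, s), mk f (y, t)) =
      (mk g (x, (a : ℝ) * s + (b : ℝ) * t), mk g (y, (c : ℝ) * s + (d : ℝ) * t)) := rfl

theorem SQR_map_cont {X : Type*} [TopologicalSpace X] (f g : X ≃ₜ X) (a b c d : ℤ) (ha : g ^ a = f)
    (hb : g ^ b = 1) (hc : g ^ c = 1) (hd : g ^ d = f) :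
    Continuous (SQR_map f g a b c d ha hb hc hd) := by
  have hq := (isOpenQuotientMap_mk f).prodMap (isOpenQuotientMap_mk f)
  rw [hq.isQuotientMap.continuous_iff]
  have h1 : Continuous (mk g) := (isOpenQuotientMap_mk g).continuous
  have h2 : SQR_map f g a b c d ha hb hc hd ∘ Prod.map (mk f) (mk f) =
      fun P : (X × ℝ) × (X × ℝ) => (mk g (P.1.1, (a : ℝ) * P.1.2 + (b : ℝ) * P.2.2),
        mk g (P.2.1, (c : ℝ) * P.1.2 + (d : ℝ) * P.2.2)) := rfl
  rw [h2]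
  refine Continuous.prodMk (h1.comp ?_) (h1.comp ?_)
  · fun_prop
  · fun_prop

theorem SQR_inv {X : Type*} [TopologicalSpace X] (f g : X ≃ₜ X) (a b c d a' b' c' d' : ℤ)
    (ha : g ^ a = f) (hb : g ^ b = 1) (hc : g ^ c = 1) (hd : g ^ d = f)
    (ha' : f ^ a' = g) (hb' : f ^ b' = 1) (hc' : f ^ c' = 1) (hd' : f ^ d' = g)
    (h11 : a' * a + b' * c = 1) (h12 : a' * b + b' * d = 0) (h21 : c' * a + d' * c = 0)
    (h22 : c' * b + d' * d = 1) (P : MT f × MT f) :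
    SQR_map g f a' b' c' d' ha' hb' hc' hd' (SQR_map f g a b c d ha hb hc hd P) = P := by
  obtain ⟨P1, P2⟩ := P
  obtain ⟨⟨x, s⟩, rfl⟩ := Quotient.exists_rep P1
  obtain ⟨⟨y, t⟩, rfl⟩ := Quotient.exists_rep P2
  show SQR_map g f a' b' c' d' ha' hb' hc' hd'
    (SQR_map f g a b c d ha hb hc hd (mk f (x, s), mk f (y, t))) = (mk f (x, s), mk f (y, t))
  rw [SQR_map_mk, SQR_map_mk]
  have r11 : (a' : ℝ) * a + b' * c = 1 := by exact_mod_cast h11
  have r12 : (a' : ℝ) * b + b' * d = 0 := by exact_mod_cast h12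
  have r21 : (c' : ℝ) * a + d' * c = 0 := by exact_mod_cast h21
  have r22 : (c' : ℝ) * b + d' * d = 1 := by exact_mod_cast h22
  have e1 : (a' : ℝ) * ((a : ℝ) * s + (b : ℝ) * t) + (b' : ℝ) * ((c : ℝ) * s + (d : ℝ) * t) = s := by
    linear_combination s * r11 + t * r12
  have e2 : (c' : ℝ) * ((a : ℝ) * s + (b : ℝ) * t) + (d' : ℝ) * ((c : ℝ) * s + (d : ℝ) * t) = t := by
    linear_combination s * r21 + t * r22
  rw [e1, e2]

/-- the homeomorphism given by two inverse integer matrices -/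
def SQR_homeo {X : Type*} [TopologicalSpace X] (f g : X ≃ₜ X) (a b c d a' b' c' d' : ℤ)
    (ha : g ^ a = f) (hb : g ^ b = 1) (hc : g ^ c = 1) (hd : g ^ d = f)
    (ha' : f ^ a' = g) (hb' : f ^ b' = 1) (hc' : f ^ c' = 1) (hd' : f ^ d' = g)
    (h11 : a' * a + b' * c = 1) (h12 : a' * b + b' * d = 0) (h21 : c' * a + d' * c = 0)
    (h22 : c' * b + d' * d = 1) (k11 : a * a' + b * c' = 1) (k12 : a * b' + b * d' = 0)
    (k21 : c * a' + d * c' = 0) (k22 : c * b' + d * d' = 1) :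
    MT f × MT f ≃ₜ MT g × MT g where
  toFun := SQR_map f g a b c d ha hb hc hd
  invFun := SQR_map g f a' b' c' d' ha' hb' hc' hd'
  left_inv := SQR_inv f g a b c d a' b' c' d' ha hb hc hd ha' hb' hc' hd' h11 h12 h21 h22
  right_inv := SQR_inv g f a' b' c' d' a b c d ha' hb' hc' hd' ha hb hc hd k11 k12 k21 k22
  continuous_toFun := SQR_map_cont f g a b c d ha hb hc hd
  continuous_invFun := SQR_map_cont g f a' b' c' d' ha' hb' hc' hd'

theorem square_homeo {X : Type*} [TopologicalSpace X] (h : X ≃ₜ X) (n k : ℤ) (hn : h ^ n = 1)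
    (hk : n ∣ k ^ 2 - 1 ∨ n ∣ k ^ 2 + 1) :
    Nonempty (MT h × MT h ≃ₜ MT (h ^ k) × MT (h ^ k)) := by
  obtain ⟨ε, m, hε, hkm⟩ : ∃ ε m : ℤ, ε * ε = 1 ∧ k ^ 2 = ε + n * m := by
    rcases hk with ⟨m, hm⟩ | ⟨m, hm⟩
    · exact ⟨1, m, by norm_num, by linarith⟩
    · exact ⟨-1, m, by norm_num, by linarith⟩
  have hz : ∀ z : ℤ, h ^ (n * z) = 1 := by
    intro z
    rw [zpow_mul, hn, one_zpow]
  have hz' : ∀ z w : ℤ, h ^ (w + n * z) = h ^ w := by
    intro z w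
    rw [zpow_add, hz, mul_one]
  -- conditions for the map `MT (h ^ k) ^ 2 → MT h ^ 2`
  have c1 : h ^ k = h ^ k := rfl
  have c2 : h ^ n = 1 := hn
  have c3 : h ^ (n * (-ε * m ^ 2)) = 1 := hz _
  have c4 : h ^ (k + n * (-ε * k * m)) = h ^ k := hz' _ _
  -- conditions for the inverse
  have c5 : (h ^ k) ^ (ε * (k + n * (-ε * k * m))) = h := by
    rw [← zpow_mul]
    have : k * (ε * (k + n * (-ε * k * m))) = 1 + n * (ε * m - k ^ 2 * m) := by
      linear_combination (ε) * hkm + (1 - n * k ^ 2 * m) * hε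
    rw [this, hz', zpow_one]
  have c6 : (h ^ k) ^ (n * (-ε)) = 1 := by
    rw [← zpow_mul]
    have : k * (n * (-ε)) = n * (k * (-ε)) := by ring
    rw [this, hz]
  have c7 : (h ^ k) ^ (n * m ^ 2) = 1 := by
    rw [← zpow_mul]
    have : k * (n * m ^ 2) = n * (k * m ^ 2) := by ring
    rw [this, hz]
  have c8 : (h ^ k) ^ (ε * k) = h := by
    rw [← zpow_mul]
    have : k * (ε * k) = 1 + n * (ε * m) := by
      linear_combination ε * hkm + hε
    rw [this, hz', zpow_one]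
  refine ⟨(SQR_homeo (h ^ k) h k n (n * (-ε * m ^ 2)) (k + n * (-ε * k * m))
    (ε * (k + n * (-ε * k * m))) (n * (-ε)) (n * m ^ 2) (ε * k) c1 c2 c3 c4 c5 c6 c7 c8
    ?_ ?_ ?_ ?_ ?_ ?_ ?_ ?_).symm⟩
  · linear_combination (ε - ε ^ 2 * n * m) * hkm + (1 - ε * n * m) * hε
  · ring
  · linear_combination (-n * m ^ 2 * k) * hε
  · linear_combination (ε - ε ^ 2 * n * m) * hkm + (1 - ε * n * m - n ^ 2 * m ^ 2) * hε
  · linear_combination (ε - ε ^ 2 * n * m) * hkm + (1 - ε * n * m - n ^ 2 * m ^ 2) * hε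
  · ring
  · linear_combination (-n * m ^ 2 * k + ε * n ^ 2 * m ^ 3 * k) * hε
  · linear_combination (ε - ε ^ 2 * n * m) * hkm + (1 - ε * n * m) * hε

end Pool.Agent.H44.SQM
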